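import Pool.Agent.PtC.Defs

/-!
# Package PtC-Crt: the Chinese remainder theorem for numbers of solutions

`R m x y` is a relation that depends on `x`, `y` modulo `m` only (`h1`), and `R (a b) x y` is
equivalent to `R a x y` and `R b x y` for coprime `a`, `b` (`h2`).

*`crt_mul`*: the map `(x, y) ↦ ((x mod a, y mod a), (x mod b, y mod b))` is a bijection of the
solutions modulo `a b` to the pairs of solutions modulo `a`, `b` (`Nat.chineseRemainder`,
`Nat.modEq_and_modEq_iff_modEq_mul`; `Finset.card_bij`, `Finset.card_product`). ∎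

*`crt_sqf`*: strong induction on `m` (or `Nat.recOnPosPrimePosCoprime`): a squarefree `m > 1` is
`p m'` with `p` prime, `p` coprime to `m'`, `m'` squarefree and
`m.primeFactors = insert p m'.primeFactors`. For `m = 1` the number is `1` by `h3`. ∎

Difficulty: 1.0 h.
-/

set_option autoImplicit false

namespace Pool.Agent.PtC

open Finset

open scoped Classical in
theorem crt_mul (R : ℕ → ℕ → ℕ → Prop) (h1 : ∀ m x y, R m (x % m) (y % m) ↔ R m x y)
    (h2 : ∀ a b x y, Nat.Coprime a b → (R (a * b) x y ↔ R a x y ∧ R b x y)) {a b : ℕ}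
    (ha : 0 < a) (hb : 0 < b) (hab : Nat.Coprime a b) :
    #{z ∈ range (a * b) ×ˢ range (a * b) | R (a * b) z.1 z.2} =
      #{z ∈ range a ×ˢ range a | R a z.1 z.2} * #{z ∈ range b ×ˢ range b | R b z.1 z.2} := by
  rw [← Finset.card_product]
  refine Finset.card_bij (fun z _ => ((z.1 % a, z.2 % a), (z.1 % b, z.2 % b))) ?_ ?_ ?_
  · intro z hz
    rw [mem_filter, mem_product] at hz
    obtain ⟨-, hR⟩ := hz
    obtain ⟨r1, r2⟩ := (h2 a b z.1 z.2 hab).1 hR
    simp only [mem_product, mem_filter, mem_range]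
    exact ⟨⟨⟨Nat.mod_lt _ ha, Nat.mod_lt _ ha⟩, (h1 a _ _).2 r1⟩,
      ⟨⟨Nat.mod_lt _ hb, Nat.mod_lt _ hb⟩, (h1 b _ _).2 r2⟩⟩
  · intro z hz w hw h
    rw [mem_filter, mem_product, mem_range, mem_range] at hz hw
    obtain ⟨⟨z1, z2⟩, -⟩ := hz
    obtain ⟨⟨w1, w2⟩, -⟩ := hw
    rw [Prod.mk.injEq, Prod.mk.injEq, Prod.mk.injEq] at h
    obtain ⟨⟨e1, e2⟩, ⟨e3, e4⟩⟩ := h
    have f1 : z.1 ≡ w.1 [MOD a * b] := (Nat.modEq_and_modEq_iff_modEq_mul hab).1 ⟨e1, e3⟩
    have f2 : z.2 ≡ w.2 [MOD a * b] := (Nat.modEq_and_modEq_iff_modEq_mul hab).1 ⟨e2, e4⟩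
    exact Prod.ext (f1.eq_of_lt_of_lt z1 w1) (f2.eq_of_lt_of_lt z2 w2)
  · rintro ⟨⟨x1, y1⟩, ⟨x2, y2⟩⟩ hz
    simp only [mem_product, mem_filter, mem_range] at hz
    obtain ⟨⟨⟨x1a, y1a⟩, r1⟩, ⟨⟨x2b, y2b⟩, r2⟩⟩ := hz
    have kx := (Nat.chineseRemainder hab x1 x2).2
    have lx := Nat.chineseRemainder_lt_mul hab x1 x2 ha.ne' hb.ne'
    have ky := (Nat.chineseRemainder hab y1 y2).2
    have ly := Nat.chineseRemainder_lt_mul hab y1 y2 ha.ne' hb.ne'
    generalize (Nat.chineseRemainder hab x1 x2 : ℕ) = u at kx lx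
    generalize (Nat.chineseRemainder hab y1 y2 : ℕ) = v at ky ly
    have e1 : u % a = x1 := by rw [kx.1, Nat.mod_eq_of_lt x1a]
    have e2 : u % b = x2 := by rw [kx.2, Nat.mod_eq_of_lt x2b]
    have e3 : v % a = y1 := by rw [ky.1, Nat.mod_eq_of_lt y1a]
    have e4 : v % b = y2 := by rw [ky.2, Nat.mod_eq_of_lt y2b]
    refine ⟨(u, v), ?_, ?_⟩
    · rw [mem_filter, mem_product, mem_range, mem_range]
      refine ⟨⟨lx, ly⟩, (h2 a b u v hab).2 ⟨?_, ?_⟩⟩
      · rw [← h1 a u v, e1, e3]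
        exact r1
      · rw [← h1 b u v, e2, e4]
        exact r2
    · simp only
      rw [e1, e2, e3, e4]

open scoped Classical in
theorem crt_sqf (R : ℕ → ℕ → ℕ → Prop) (h1 : ∀ m x y, R m (x % m) (y % m) ↔ R m x y)
    (h2 : ∀ a b x y, Nat.Coprime a b → (R (a * b) x y ↔ R a x y ∧ R b x y))
    (h3 : R 1 0 0) {m : ℕ} (hm : Squarefree m) :
    #{z ∈ range m ×ˢ range m | R m z.1 z.2} =
      ∏ p ∈ m.primeFactors, #{z ∈ range p ×ˢ range p | R p z.1 z.2} := by
  induction m using Nat.strong_induction_on with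
  | _ m ih =>
    have hm0 : m ≠ 0 := hm.ne_zero
    rcases Nat.eq_or_lt_of_le (Nat.one_le_iff_ne_zero.2 hm0) with h | h
    · subst h
      rw [Nat.primeFactors_one, prod_empty, card_eq_one]
      refine ⟨(0, 0), ?_⟩
      ext z
      rw [mem_filter, mem_product, mem_range, mem_range, mem_singleton]
      constructor
      · rintro ⟨⟨z1, z2⟩, -⟩
        exact Prod.ext (Nat.lt_one_iff.1 z1) (Nat.lt_one_iff.1 z2)
      · rintro rfl
        exact ⟨⟨Nat.one_pos, Nat.one_pos⟩, h3⟩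
    · have hp : (m.minFac).Prime := Nat.minFac_prime h.ne'
      obtain ⟨k, hk⟩ := m.minFac_dvd
      have hco : Nat.Coprime m.minFac k := by
        rw [hk] at hm
        exact Nat.coprime_of_squarefree_mul hm
      have hkm : Squarefree k := by
        refine hm.squarefree_of_dvd ?_
        rw [hk]
        exact dvd_mul_left _ _
      have hk0 : 0 < k := Nat.pos_of_ne_zero hkm.ne_zero
      have hlt : k < m := by
        conv_rhs => rw [hk]
        have := hp.two_le
        nlinarith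
      have e1 := crt_mul R h1 h2 hp.pos hk0 hco
      rw [← hk] at e1
      rw [e1, ih k hlt hkm]
      conv_rhs => rw [hk]
      rw [hco.primeFactors_mul, prod_union hco.disjoint_primeFactors, hp.primeFactors,
        prod_singleton]

end Pool.Agent.PtC
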