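import Pool.Agent.PtC.Defs
import Pool.Agent.LPC.SeqCode
import Pool.Agent.ECD.GPowA

/-!
# Package PtC-NthPF: the prime factors in increasing order

`pf m i` is the prime factor number `i` of `m` (from `0` on, in increasing order), `0` if there is
none; `om m` is the number of the prime factors.

*`pf_def`*, *`om_def`*. Let `T m k a` say: for all `l < k` the number `sq a l` is a prime factor of
`m`, for all `l` with `l + 1 < k` we have `sq a l < sq a (l + 1)`, and each prime factor `q` of `m`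
with `q ≤ sq a (k - 1)` is one of the `sq a l`, `l < k`; here `sq`, `C` are from `seq_code`. `T` is
`Delta0` (`delta_prime`, bounded quantifiers). The increasing list `p_0 < p_1 < …` of the prime
factors of `m ≥ 1` satisfies `∏ (p_l + 2) ≤ ∏ p_l ^ 2 ≤ m ^ 2`, so its initial parts have codes
`a ≤ (m ^ 2 + 2) ^ C`. Hence for `m ≥ 1`: `x = pf m i` with `x > 0` iff there is an
`a ≤ (m ^ 2 + 2) ^ C` with `T m (i + 1) a` and `x = sq a i` (by induction `T` forces
`sq a l = p_l`), and `x = 0` iff there is no such `a`. `om m` is the least `i` with `pf m i = 0`; or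
`om m ≤ lg m` and a graph. ∎ (It is a good idea to prove first the characterisation of `pf m i` by:
`q` is a prime factor and exactly `i` prime factors are smaller: `Nat.nth_count`, `Nat.count_nth`.)

*`prod_pf`*: `Nat.nth`, `Nat.count`: the map `i ↦ pf m i` is a bijection of `range (om m)` to
`m.primeFactors` (`Finset.prod_bij`; `Nat.nth_injOn`, `Nat.nth_mem_of_lt_card`,
`Nat.exists_lt_card_nth_eq`; the set is finite as `m ≥ 1`). ∎

Difficulty: 1.5 h.
-/

set_option autoImplicit false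

namespace Pool.Agent.PtC

open Finset Pool.Agent.Grz Pool.Agent.GAvg Pool.Agent.PTr Pool.Agent.MTr Pool.Agent.LPC
  Pool.Agent.ECD

open scoped Classical in
/-- the prime factor number `i` of `m`, `0` if there is none -/
noncomputable def pf (m i : ℕ) : ℕ := if m = 0 then 0 else Nat.nth (fun q => q.Prime ∧ q ∣ m) i

open scoped Classical in
/-- the number of the prime factors of `m` below `q`, `0` for `m = 0` -/
private noncomputable def nthPF_cnt (m q : ℕ) : ℕ :=
  if m = 0 then 0 else #{x ∈ range q | x.Prime ∧ x ∣ m}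

/-- `a` codes an enumeration by the numbers below `c` of the prime factors of `m` below `q` -/
private def nthPF_E (sq : ℕ → ℕ → ℕ) (m q c a : ℕ) : Prop :=
  (∀ l, l ≤ c → (l < c → (sq a l).Prime ∧ sq a l ∣ m ∧ sq a l < q)) ∧
    (∀ l, l ≤ c → ∀ l', l' ≤ c → (l < c → l' < c → sq a l = sq a l' → l = l')) ∧
    (∀ x, x ≤ q → (x < q → x.Prime → x ∣ m → ∃ l, l ≤ c ∧ (l < c ∧ sq a l = x)))

private theorem nthPF_dE {sq : ℕ → ℕ → ℕ} (hsq : DFun 2 (fun v => sq (v 0) (v 1))) {n : ℕ}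
    {m q c a : (Fin n → ℕ) → ℕ} (hm : DFun n m) (hq : DFun n q) (hc : DFun n c) (ha : DFun n a) :
    Delta0 n (fun v => nthPF_E sq (m v) (q v) (c v) (a v)) := by
  have e1 : Delta0 n (fun v => ∀ l, l ≤ c v →
      (l < c v → (sq (a v) l).Prime ∧ sq (a v) l ∣ m v ∧ sq (a v) l < q v)) := by
    refine Delta0.ballFun hc (P := fun l v =>
      l < c v → (sq (a v) l).Prime ∧ sq (a v) l ∣ m v ∧ sq (a v) l < q v) ?_
    have h0 : DFun (n + 1) (fun w => w 0) := DFun.proj 0
    have h1 : DFun (n + 1) (fun w => sq (a fun i => w i.succ) (w 0)) := DFun.comp2 hsq ha.weak h0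
    exact (Delta0.ltFun h0 hc.weak).imp
      ((delta_prime h1).and ((delta_dvd h1 hm.weak).and (Delta0.ltFun h1 hq.weak)))
  have e2 : Delta0 n (fun v => ∀ l, l ≤ c v → ∀ l', l' ≤ c v →
      (l < c v → l' < c v → sq (a v) l = sq (a v) l' → l = l')) := by
    refine Delta0.ballFun hc (P := fun l v => ∀ l', l' ≤ c v →
      (l < c v → l' < c v → sq (a v) l = sq (a v) l' → l = l')) ?_
    refine Delta0.ballFun hc.weak (P := fun l' w =>
      (w 0 < c (fun i => w i.succ) → l' < c (fun i => w i.succ) →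
        sq (a fun i => w i.succ) (w 0) = sq (a fun i => w i.succ) l' → w 0 = l')) ?_
    have h0 : DFun (n + 1 + 1) (fun w => w 0) := DFun.proj 0
    have h1 : DFun (n + 1 + 1) (fun w => w (Fin.succ 0)) := DFun.proj _
    exact (Delta0.ltFun h1 hc.weak.weak).imp ((Delta0.ltFun h0 hc.weak.weak).imp
      ((Delta0.eqFun (DFun.comp2 hsq ha.weak.weak h1) (DFun.comp2 hsq ha.weak.weak h0)).imp
        (Delta0.eqFun h1 h0)))
  have e3 : Delta0 n (fun v => ∀ x, x ≤ q v →
      (x < q v → x.Prime → x ∣ m v → ∃ l, l ≤ c v ∧ (l < c v ∧ sq (a v) l = x))) := by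
    refine Delta0.ballFun hq (P := fun x v =>
      (x < q v → x.Prime → x ∣ m v → ∃ l, l ≤ c v ∧ (l < c v ∧ sq (a v) l = x))) ?_
    have h0 : DFun (n + 1) (fun w => w 0) := DFun.proj 0
    refine (Delta0.ltFun h0 hq.weak).imp ((delta_prime h0).imp ((delta_dvd h0 hm.weak).imp ?_))
    refine Delta0.bexFun hc.weak (P := fun l w => (l < c (fun i => w i.succ) ∧
      sq (a fun i => w i.succ) l = w 0)) ?_
    have k0 : DFun (n + 1 + 1) (fun w => w 0) := DFun.proj 0
    have k1 : DFun (n + 1 + 1) (fun w => w (Fin.succ 0)) := DFun.proj _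
    exact (Delta0.ltFun k0 hc.weak.weak).and
      (Delta0.eqFun (DFun.comp2 hsq ha.weak.weak k0) k1)
  exact e1.and (e2.and e3)

private theorem nthPF_E_card {sq : ℕ → ℕ → ℕ} {m q c a : ℕ} (hm : m ≠ 0)
    (h : nthPF_E sq m q c a) : c = nthPF_cnt m q := by
  classical
  obtain ⟨h1, h2, h3⟩ := h
  have e : ({x ∈ range q | x.Prime ∧ x ∣ m} : Finset ℕ) = (range c).image (sq a) := by
    ext x
    simp only [mem_filter, mem_range, mem_image]
    constructor
    · rintro ⟨hx, hp, hd⟩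
      obtain ⟨l, -, hl, hlx⟩ := h3 x hx.le hx hp hd
      exact ⟨l, hl, hlx⟩
    · rintro ⟨l, hl, rfl⟩
      obtain ⟨k1, k2, k3⟩ := h1 l hl.le hl
      exact ⟨k3, k1, k2⟩
  have e2 : #((range c).image (sq a)) = c := by
    rw [card_image_of_injOn, card_range]
    intro l hl l' hl' hll
    have hl2 : l < c := by simpa using hl
    have hl3 : l' < c := by simpa using hl'
    exact h2 l hl2.le l' hl3.le hl2 hl3 hll
  unfold nthPF_cnt
  rw [if_neg hm]
  calc c = #((range c).image (sq a)) := e2.symm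
    _ = _ := by
      rw [← e]

private theorem nthPF_exists {sq : ℕ → ℕ → ℕ} {C : ℕ}
    (hsq : ∀ (X L : ℕ) (y : ℕ → ℕ), ∏ l ∈ range L, (y l + 2) ≤ X →
      ∃ a, a ≤ (X + 2) ^ C ∧ ∀ l, l < L → sq a l = y l) {m : ℕ} (hm : m ≠ 0) (q : ℕ) :
    ∃ a, a ≤ (m ^ 2 + 2) ^ C ∧ nthPF_E sq m q (nthPF_cnt m q) a := by
  classical
  obtain ⟨S, hS⟩ : ∃ S : Finset ℕ, S = {x ∈ range q | x.Prime ∧ x ∣ m} := ⟨_, rfl⟩
  have hmem : ∀ x, x ∈ S ↔ x < q ∧ x.Prime ∧ x ∣ m := by
    intro x
    rw [hS]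
    simp only [mem_filter, mem_range]
  have hcard : nthPF_cnt m q = #S := by
    unfold nthPF_cnt
    rw [if_neg hm, hS]
  have hprod : ∏ x ∈ S, (x + 2) ≤ m ^ 2 := by
    have h1 : ∏ x ∈ S, (x + 2) ≤ ∏ x ∈ S, x ^ 2 := by
      refine prod_le_prod' fun x hx => ?_
      have h2 := ((hmem x).1 hx).2.1.two_le
      nlinarith
    have h2 : S ⊆ m.primeFactors := by
      intro x hx
      obtain ⟨-, hp, hd⟩ := (hmem x).1 hx
      exact Nat.mem_primeFactors.2 ⟨hp, hd, hm⟩
    have h3 : ∏ x ∈ S, x ≤ ∏ x ∈ m.primeFactors, x :=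
      prod_le_prod_of_subset_of_one_le' h2 fun x hx _ => (Nat.prime_of_mem_primeFactors hx).one_le
    have h4 : ∏ x ∈ m.primeFactors, x ≤ m :=
      Nat.le_of_dvd (Nat.pos_of_ne_zero hm) (Nat.prod_primeFactors_dvd m)
    rw [prod_pow] at h1
    exact h1.trans (Nat.pow_le_pow_left (h3.trans h4) 2)
  obtain ⟨f⟩ : Nonempty (Fin #S ≃ S) := ⟨S.equivFin.symm⟩
  obtain ⟨y, hy⟩ : ∃ y : ℕ → ℕ, ∀ (l : ℕ) (hl : l < #S), y l = f ⟨l, hl⟩ :=
    ⟨fun l => if hl : l < #S then (f ⟨l, hl⟩ : ℕ) else 0, fun l hl => dif_pos hl⟩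
  have hy2 : ∏ l ∈ range #S, (y l + 2) = ∏ x ∈ S, (x + 2) := by
    rw [prod_range]
    have h1 : ∀ i : Fin #S, y i + 2 = ((f i : ℕ) + 2) := fun i => by rw [hy i i.2]
    rw [Finset.prod_congr rfl fun i _ => h1 i, Equiv.prod_comp f fun x : S => (x : ℕ) + 2]
    exact prod_coe_sort S fun x => x + 2
  obtain ⟨a, ha, hal⟩ := hsq (m ^ 2) #S y (by rw [hy2]; exact hprod)
  refine ⟨a, ha, ?_⟩
  rw [hcard]
  refine ⟨?_, ?_, ?_⟩
  · intro l _ hl
    rw [hal l hl, hy l hl]
    obtain ⟨k1, k2, k3⟩ := (hmem _).1 (f ⟨l, hl⟩).2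
    exact ⟨k2, k3, k1⟩
  · intro l _ l' _ hl hl' hll
    rw [hal l hl, hal l' hl', hy l hl, hy l' hl'] at hll
    have h1 := f.injective (Subtype.ext hll)
    exact Fin.mk.inj_iff.1 h1
  · intro x _ hx hp hd
    have hxS : x ∈ S := (hmem x).2 ⟨hx, hp, hd⟩
    refine ⟨f.symm ⟨x, hxS⟩, (f.symm ⟨x, hxS⟩).2.le, (f.symm ⟨x, hxS⟩).2, ?_⟩
    rw [hal _ (f.symm ⟨x, hxS⟩).2, hy _ (f.symm ⟨x, hxS⟩).2]
    simp

private theorem nthPF_cnt_le (m q : ℕ) : nthPF_cnt m q ≤ q := by
  unfold nthPF_cnt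
  split_ifs with h
  · exact Nat.zero_le _
  · exact (card_filter_le _ _).trans (le_of_eq (card_range q))

private theorem nthPF_dcnt {n : ℕ} {f g : (Fin n → ℕ) → ℕ} (hf : DFun n f) (hg : DFun n g) :
    DFun n (fun v => nthPF_cnt (f v) (g v)) := by
  obtain ⟨sq, C, hsq, hcode⟩ := seq_code
  refine DFun.ofGraph hg (fun v => nthPF_cnt_le _ _) ?_
  have h0 : DFun (n + 1) (fun w => w 0) := DFun.proj 0
  have hX : DFun (n + 1) (fun w => ((f fun i => w i.succ) ^ 2 + 2) ^ C) :=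
    DFun.powConst ((DFun.powConst hf.weak 2).add (DFun.const 2)) C
  have h1 : Delta0 (n + 1) (fun w => ∃ a, a ≤ ((f fun i => w i.succ) ^ 2 + 2) ^ C ∧
      nthPF_E sq (f fun i => w i.succ) (g fun i => w i.succ) (w 0) a) := by
    refine Delta0.bexFun hX (P := fun a w =>
      nthPF_E sq (f fun i => w i.succ) (g fun i => w i.succ) (w 0) a) ?_
    exact nthPF_dE hsq hf.weak.weak hg.weak.weak h0.weak (DFun.proj 0)
  have h2 : Delta0 (n + 1) (fun w => f (fun i => w i.succ) = 0) :=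
    Delta0.eqFun hf.weak (DFun.const 0)
  refine ((h2.and (Delta0.eqFun h0 (DFun.const 0))).or (h2.not.and h1)).of_iff ?_
  intro w
  by_cases hm : f (fun i => w i.succ) = 0
  · have e : nthPF_cnt (f fun i => w i.succ) (g fun i => w i.succ) = 0 := by
      unfold nthPF_cnt
      rw [if_pos hm]
    rw [e]
    constructor
    · intro h
      exact Or.inl ⟨hm, h⟩
    · rintro (h | h)
      · exact h.2
      · exact absurd hm h.1
  · constructor
    · intro h
      refine Or.inr ⟨hm, ?_⟩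
      rw [h]
      exact nthPF_exists hcode hm _
    · rintro (h | ⟨-, a, -, ha⟩)
      · exact absurd h.1 hm
      · exact nthPF_E_card hm ha

private theorem nthPF_finite {m : ℕ} (hm : m ≠ 0) :
    (Set.ofPred fun q : ℕ => q.Prime ∧ q ∣ m).Finite :=
  (m.primeFactors.finite_toSet).subset fun _ hq =>
    Nat.mem_primeFactors.2 ⟨hq.1, hq.2, hm⟩

private theorem nthPF_toFinset {m : ℕ} (hm : m ≠ 0) :
    (nthPF_finite hm).toFinset = m.primeFactors := by
  ext q
  rw [Set.Finite.mem_toFinset, Nat.mem_primeFactors]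
  constructor
  · rintro ⟨h1, h2⟩
    exact ⟨h1, h2, hm⟩
  · rintro ⟨h1, h2, -⟩
    exact ⟨h1, h2⟩

open scoped Classical in
private theorem nthPF_count {m : ℕ} (hm : m ≠ 0) (x : ℕ) :
    Nat.count (fun q => q.Prime ∧ q ∣ m) x = nthPF_cnt m x := by
  unfold nthPF_cnt
  rw [if_neg hm, Nat.count_eq_card_filter_range]

/-- the characterisation of the prime factor number `i` -/
private theorem nthPF_iff {m : ℕ} (hm : m ≠ 0) (x i : ℕ) :
    x = pf m i ↔ (x.Prime ∧ x ∣ m ∧ nthPF_cnt m x = i) ∨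
      (x = 0 ∧ ¬ ∃ y, y ≤ m ∧ (y.Prime ∧ y ∣ m ∧ nthPF_cnt m y = i)) := by
  classical
  have hpf : pf m i = Nat.nth (fun q => q.Prime ∧ q ∣ m) i := by
    unfold pf
    rw [if_neg hm]
  have key : ∀ y, (y.Prime ∧ y ∣ m ∧ nthPF_cnt m y = i) → pf m i = y := by
    rintro y ⟨h1, h2, h3⟩
    rw [hpf, ← h3, ← nthPF_count hm]
    exact Nat.nth_count (p := fun q => q.Prime ∧ q ∣ m) ⟨h1, h2⟩
  rcases lt_or_ge i #m.primeFactors with hi | hi
  · have hi' : i < #(nthPF_finite hm).toFinset := by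
      rw [nthPF_toFinset hm]
      exact hi
    have h1 : (pf m i).Prime ∧ pf m i ∣ m := by
      rw [hpf]
      exact Nat.nth_mem_of_lt_card (nthPF_finite hm) hi'
    have h2 : nthPF_cnt m (pf m i) = i := by
      rw [← nthPF_count hm, hpf]
      exact Nat.count_nth fun _ => hi'
    constructor
    · rintro rfl
      exact Or.inl ⟨h1.1, h1.2, h2⟩
    · rintro (h | ⟨-, h⟩)
      · exact (key x h).symm
      · exact absurd ⟨pf m i, Nat.le_of_dvd (Nat.pos_of_ne_zero hm) h1.2, h1.1, h1.2, h2⟩ h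
  · have h0 : pf m i = 0 := by
      rw [hpf]
      refine Nat.nth_of_card_le (nthPF_finite hm) ?_
      rw [nthPF_toFinset hm]
      exact hi
    have hno : ¬ ∃ y, y ≤ m ∧ (y.Prime ∧ y ∣ m ∧ nthPF_cnt m y = i) := by
      rintro ⟨y, -, hy⟩
      have h1 := key y hy
      rw [h0] at h1
      exact hy.1.ne_zero h1.symm
    rw [h0]
    constructor
    · intro h
      exact Or.inr ⟨h, hno⟩
    · rintro (h | h)
      · have h1 := key x h
        rw [h0] at h1
        exact h1.symm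
      · exact h.1

private theorem nthPF_le (m i : ℕ) : pf m i ≤ m := by
  by_cases hm : m = 0
  · unfold pf
    rw [if_pos hm]
    exact Nat.zero_le _
  · rcases (nthPF_iff hm (pf m i) i).1 rfl with h | h
    · exact Nat.le_of_dvd (Nat.pos_of_ne_zero hm) h.2.1
    · rw [h.1]
      exact Nat.zero_le _

theorem pf_def : DFun 2 (fun v => pf (v 0) (v 1)) := by
  have hm : DFun 2 (fun v => v 0) := DFun.proj 0
  have hi : DFun 2 (fun v => v 1) := DFun.proj 1
  refine DFun.ofGraph hm (fun v => nthPF_le _ _) ?_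
  have h0 : DFun (2 + 1) (fun w => w 0) := DFun.proj 0
  have hm1 : DFun (2 + 1) (fun w => w (Fin.succ 0)) := DFun.proj _
  have hi1 : DFun (2 + 1) (fun w => w (Fin.succ 1)) := DFun.proj _
  have hz : Delta0 (2 + 1) (fun w => w (Fin.succ 0) = 0) := Delta0.eqFun hm1 (DFun.const 0)
  have ha : Delta0 (2 + 1) (fun w => (w 0).Prime ∧ w 0 ∣ w (Fin.succ 0) ∧
      nthPF_cnt (w (Fin.succ 0)) (w 0) = w (Fin.succ 1)) :=
    (delta_prime h0).and ((delta_dvd h0 hm1).and (Delta0.eqFun (nthPF_dcnt hm1 h0) hi1))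
  have hb : Delta0 (2 + 1) (fun w => ∃ y, y ≤ w (Fin.succ 0) ∧ (y.Prime ∧ y ∣ w (Fin.succ 0) ∧
      nthPF_cnt (w (Fin.succ 0)) y = w (Fin.succ 1))) := by
    refine Delta0.bexFun hm1 (P := fun y w => (y.Prime ∧ y ∣ w (Fin.succ 0) ∧
      nthPF_cnt (w (Fin.succ 0)) y = w (Fin.succ 1))) ?_
    have k0 : DFun (2 + 1 + 1) (fun w => w 0) := DFun.proj 0
    exact (delta_prime k0).and ((delta_dvd k0 hm1.weak).and
      (Delta0.eqFun (nthPF_dcnt hm1.weak k0) hi1.weak))
  refine ((hz.and (Delta0.eqFun h0 (DFun.const 0))).or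
    (hz.not.and (ha.or ((Delta0.eqFun h0 (DFun.const 0)).and hb.not)))).of_iff ?_
  intro w
  by_cases h : w (Fin.succ 0) = 0
  · have e : pf (w (Fin.succ 0)) (w (Fin.succ 1)) = 0 := by
      unfold pf
      rw [if_pos h]
    constructor
    · intro hw
      have hw' : w 0 = pf (w (Fin.succ 0)) (w (Fin.succ 1)) := hw
      rw [e] at hw'
      exact Or.inl ⟨h, hw'⟩
    · rintro (hw | hw)
      · show w 0 = pf (w (Fin.succ 0)) (w (Fin.succ 1))
        rw [e]
        exact hw.2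
      · exact absurd h hw.1
  · constructor
    · intro hw
      exact Or.inr ⟨h, (nthPF_iff h (w 0) (w (Fin.succ 1))).1 hw⟩
    · rintro (hw | hw)
      · exact absurd hw.1 h
      · exact (nthPF_iff h (w 0) (w (Fin.succ 1))).2 hw.2

theorem om_def : DFun 1 (fun v => #(v 0).primeFactors) := by
  have h0 : DFun 1 (fun v => v 0) := DFun.proj 0
  have h1 : DFun 1 (fun v => nthPF_cnt (v 0) (v 0 + 1)) := nthPF_dcnt h0 (h0.add (DFun.const 1))
  have e : (fun v : Fin 1 → ℕ => #(v 0).primeFactors) =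
      fun v => nthPF_cnt (v 0) (v 0 + 1) := by
    funext v
    unfold nthPF_cnt
    split_ifs with h
    · rw [h]
      simp
    · congr 1
      ext x
      simp only [mem_filter, mem_range, Nat.mem_primeFactors]
      constructor
      · rintro ⟨h2, h3, -⟩
        exact ⟨Nat.lt_succ_of_le (Nat.le_of_dvd (Nat.pos_of_ne_zero h) h3), h2, h3⟩
      · rintro ⟨-, h2, h3⟩
        exact ⟨h2, h3, h⟩
  rw [e]
  exact h1

theorem prod_pf (m : ℕ) (g : ℕ → ℕ) :
    ∏ q ∈ m.primeFactors, g q = ∏ i ∈ range (#m.primeFactors), g (pf m i) := by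
  classical
  by_cases hm : m = 0
  · subst hm
    simp
  · have hpf : ∀ i, pf m i = Nat.nth (fun q => q.Prime ∧ q ∣ m) i := by
      intro i
      unfold pf
      rw [if_neg hm]
    have hcard : ∀ i, i < #m.primeFactors → i < #(nthPF_finite hm).toFinset := by
      intro i hi
      rw [nthPF_toFinset hm]
      exact hi
    refine prod_nbij' (fun q => Nat.count (fun q => q.Prime ∧ q ∣ m) q) (fun i => pf m i)
      ?_ ?_ ?_ ?_ ?_
    · intro q hq
      obtain ⟨h1, h2, -⟩ := Nat.mem_primeFactors.1 hq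
      rw [mem_range, ← nthPF_toFinset hm]
      exact Nat.count_lt_card (nthPF_finite hm) ⟨h1, h2⟩
    · intro i hi
      have h1 : (Nat.nth (fun q => q.Prime ∧ q ∣ m) i).Prime ∧
          Nat.nth (fun q => q.Prime ∧ q ∣ m) i ∣ m :=
        Nat.nth_mem_of_lt_card (nthPF_finite hm) (hcard i (mem_range.1 hi))
      rw [Nat.mem_primeFactors, hpf]
      exact ⟨h1.1, h1.2, hm⟩
    · intro q hq
      obtain ⟨h1, h2, -⟩ := Nat.mem_primeFactors.1 hq
      rw [hpf]
      exact Nat.nth_count (p := fun q => q.Prime ∧ q ∣ m) ⟨h1, h2⟩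
    · intro i hi
      rw [hpf]
      exact Nat.count_nth fun _ => hcard i (mem_range.1 hi)
    · intro q hq
      obtain ⟨h1, h2, -⟩ := Nat.mem_primeFactors.1 hq
      rw [hpf, Nat.nth_count (p := fun q => q.Prime ∧ q ∣ m) ⟨h1, h2⟩]

end Pool.Agent.PtC
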