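import Pool.Agent.PtC.Defs
import Pool.Agent.LPC.RecPolyA
import Pool.Agent.ECD.PrimeCt

/-!
# Package PtC-ProdPoly: products of polylogarithmically many numbers

*`dfun_prodPoly`*. Let `P v = ∏_(i < S v) g i v ≤ B v`. For a prime `r` the residue
`f j = (∏_(i < j) g i v) % r` satisfies `f 0 = 1 % r`, `f (j + 1) = f j * g j v % r` and `f j < r`; for
`r ≤ R v := 16 (lg (B v) + 2) ^ 2 + 3` it is bounded by a power of a logarithm, so `rec_poly` (with
the parameters `(r, v)`; the bound for all `r` by `min r (R v)` in place of `r`, and `N` := a sum of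
`N v` and `B v`) shows that `(r, v) ↦ P v % r` is `DFun` for `r ≤ R v`. Now `P v` is the only number
`≤ B v` with these residues modulo all primes `r < R v`: the product of these primes exceeds `B v`
(`primes_many` with `A = lg (B v) + 2`: at least `lg B + 2` primes, each `≥ 2`; `lt_two_pow_lg`), and
two numbers that are congruent modulo distinct primes are congruent modulo the product
(`Nat.modEq` and `Finset.prod`: see how ECD does it: `prod_primes_ge`, or
`Finset.prod_primes_dvd` for the difference). So `DFun.ofGraph`. ∎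

Difficulty: 1.2 h.
-/

set_option autoImplicit false

namespace Pool.Agent.PtC

open Finset Pool.Agent.Grz Pool.Agent.GAvg Pool.Agent.PTr Pool.Agent.MTr Pool.Agent.LPC
  Pool.Agent.ECD

private theorem ProdPoly_eq {a b B : ℕ} (hab : a ≤ b) (hb : b ≤ B)
    (h : ∀ q, q.Prime → q < 16 * (lg B + 2) ^ 2 + 3 → a % q = b % q) : a = b := by
  by_contra hne
  have hd : 0 < b - a := by omega
  set S := {q ∈ range (16 * (lg B + 2) ^ 2 + 3) | q.Prime} with hS
  have h1 : ∏ q ∈ S, q ∣ b - a := by
    refine Finset.prod_primes_dvd (b - a) (fun q hq => ?_) (fun q hq => ?_)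
    · exact (Finset.mem_filter.1 hq).2.prime
    · have h2 := Finset.mem_filter.1 hq
      exact (Nat.modEq_iff_dvd' hab).1 (h q h2.2 (Finset.mem_range.1 h2.1))
  have h2 : ∏ q ∈ S, q ≤ b - a := Nat.le_of_dvd hd h1
  have h3 : 2 ^ #S ≤ ∏ q ∈ S, q := by
    rw [← Finset.prod_const]
    exact Finset.prod_le_prod' fun q hq => (Finset.mem_filter.1 hq).2.two_le
  have h4 : lg B + 2 ≤ #S := primes_many (lg B + 2)
  have h5 : 2 ^ (lg B + 2) ≤ 2 ^ #S := Nat.pow_le_pow_right (by norm_num) h4
  have h6 : B < 2 ^ (lg B + 1) := lt_two_pow_lg B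
  have h7 : 2 ^ (lg B + 1) ≤ 2 ^ (lg B + 2) := Nat.pow_le_pow_right (by norm_num) (by omega)
  omega

private theorem ProdPoly_bound (K b c : ℕ) :
    16 * (lg c + 2) ^ 2 + 3 ≤ (lg (b + c + 2) + 1) ^ (K + 9) := by
  have h1 : 1 ≤ lg (b + c + 2) := Nat.le_log_of_pow_le (by norm_num) (by omega)
  have h2 : lg c ≤ lg (b + c + 2) := Nat.log_mono_right (by omega)
  set x := lg (b + c + 2) + 1 with hx
  have h3 : lg c + 2 ≤ 2 * x := by omega
  have h4 : (lg c + 2) ^ 2 ≤ (2 * x) ^ 2 := Nat.pow_le_pow_left h3 2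
  have h5 : 16 * (lg c + 2) ^ 2 + 3 ≤ 2 ^ 7 * x ^ 2 := by
    have h6 : 4 ≤ x ^ 2 := by nlinarith
    have h7 : (2 * x) ^ 2 = 4 * x ^ 2 := by ring
    omega
  calc 16 * (lg c + 2) ^ 2 + 3 ≤ 2 ^ 7 * x ^ 2 := h5
    _ ≤ x ^ 7 * x ^ 2 := Nat.mul_le_mul_right _ (Nat.pow_le_pow_left (by omega) 7)
    _ = x ^ 9 := by ring
    _ ≤ x ^ (K + 9) := Nat.pow_le_pow_right (by omega) (by omega)

theorem dfun_prodPoly {n : ℕ} (K : ℕ) {S N B : (Fin n → ℕ) → ℕ} {g : ℕ → (Fin n → ℕ) → ℕ}
    (hg : DFun (n + 1) (fun w => g (w 0) (fun i => w i.succ))) (hS : DFun n S) (hN : DFun n N)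
    (hB : DFun n B) (hSb : ∀ v, S v ≤ (lg (N v) + 1) ^ K)
    (hb : ∀ v, ∏ i ∈ range (S v), g i v ≤ B v) : DFun n (fun v => ∏ i ∈ range (S v), g i v) := by
  set R : (Fin n → ℕ) → ℕ := fun v => 16 * (lg (B v) + 2) ^ 2 + 3 with hRdef
  have hR : DFun n R :=
    ((DFun.const 16).mul (DFun.powConst ((DFun.lg hB).add (DFun.const 2)) 2)).add (DFun.const 3)
  -- the residues modulo small numbers
  have hF : DFun (n + 1) (fun w => (∏ i ∈ range (S (fun i => w i.succ)), g i (fun i => w i.succ)) %
      (min (w 0) (R (fun i => w i.succ)) + 1)) := by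
    have hm : DFun (n + 1) (fun w => min (w 0) (R (fun i => w i.succ))) :=
      (DFun.proj 0).min hR.weak
    have hA : DFun (n + 1) (fun w => 1 % (min (w 0) (R (fun i => w i.succ)) + 1)) :=
      (DFun.const 1).mod hm
    have hN' : DFun (n + 1) (fun w => N (fun i => w i.succ) + B (fun i => w i.succ) + 2) :=
      (hN.weak.add hB.weak).add (DFun.const 2)
    have hg3 : DFun (n + 1 + 2) (fun w => g (w 0) (fun i => w i.succ.succ.succ)) := by
      have h := hg.comp (n := n + 1 + 2) (h := Fin.cons (fun w => w 0)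
        (fun l w => w l.succ.succ.succ)) (by
          intro i
          refine Fin.cases ?_ (fun i => ?_) i
          · exact DFun.proj 0
          · exact DFun.proj _)
      exact h
    have hm3 : DFun (n + 1 + 2) (fun w => min (w (Fin.succ (Fin.succ 0)))
        (R (fun i => w i.succ.succ.succ))) :=
      (DFun.proj (Fin.succ (Fin.succ 0))).min hR.weak.weak.weak
    have hH : DFun (n + 1 + 2) (fun w => (fun (j a : ℕ) (u : Fin (n + 1) → ℕ) =>
        a * g j (fun i => u i.succ) % (min (u 0) (R (fun i => u i.succ)) + 1)) (w 0) (w 1)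
        (fun i => w i.succ.succ)) :=
      ((DFun.proj 1).mul hg3).mod hm3
    refine rec_poly (r := n + 1) (K + 9) hA hS.weak hN'
      (H := fun (j a : ℕ) (u : Fin (n + 1) → ℕ) =>
        a * g j (fun i => u i.succ) % (min (u 0) (R (fun i => u i.succ)) + 1)) hH
      (f := fun j w => (∏ i ∈ range j, g i (fun i => w i.succ)) %
        (min (w 0) (R (fun i => w i.succ)) + 1)) ?_ ?_ ?_ ?_
    · intro v
      simp
    · intro v j _
      rw [Finset.prod_range_succ, Nat.mod_mul_mod]
    · intro v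
      refine (hSb _).trans ?_
      have h1 : lg (N (fun i => v i.succ)) + 1 ≤
          lg (N (fun i => v i.succ) + B (fun i => v i.succ) + 2) + 1 :=
        Nat.add_le_add_right (Nat.log_mono_right (by omega)) 1
      exact (Nat.pow_le_pow_left h1 K).trans (Nat.pow_le_pow_right (by omega) (by omega))
    · intro v j _
      have h1 := Nat.mod_lt (∏ i ∈ range j, g i (fun i => v i.succ))
        (Nat.succ_pos (min (v 0) (R (fun i => v i.succ))))
      have h2 : min (v 0) (R (fun i => v i.succ)) ≤ R (fun i => v i.succ) := min_le_right _ _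
      have h3 := ProdPoly_bound K (N (fun i => v i.succ)) (B (fun i => v i.succ))
      have h4 : R (fun i => v i.succ) ≤
          (lg (N (fun i => v i.succ) + B (fun i => v i.succ) + 2) + 1) ^ (K + 9) := h3
      have h5 : (∏ i ∈ range j, g i (fun i => v i.succ)) %
          (min (v 0) (R (fun i => v i.succ)) + 1) ≤ min (v 0) (R (fun i => v i.succ)) :=
        Nat.lt_succ_iff.1 h1
      exact h5.trans (h2.trans h4)
  refine DFun.ofGraph hB hb ?_
  have h1 : Delta0 (n + 1) (fun w => w 0 ≤ B (fun i => w i.succ)) :=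
    Delta0.leFun (DFun.proj 0) hB.weak
  have hF2 : DFun (n + 1 + 1) (fun w => (∏ i ∈ range (S (fun i => w i.succ.succ)),
      g i (fun i => w i.succ.succ)) % (min (w 0) (R (fun i => w i.succ.succ)) + 1)) := by
    have h := hF.comp (n := n + 1 + 1) (h := Fin.cons (fun w => w 0)
      (fun l w => w l.succ.succ)) (by
        intro i
        refine Fin.cases ?_ (fun i => ?_) i
        · exact DFun.proj 0
        · exact DFun.proj _)
    exact h
  have h2 : Delta0 (n + 1 + 1) (fun w => (fun (t : ℕ) (u : Fin (n + 1) → ℕ) =>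
      u 0 % (t + 1) = (∏ i ∈ range (S (fun i => u i.succ)), g i (fun i => u i.succ)) %
        (min t (R (fun i => u i.succ)) + 1)) (w 0) (fun i => w i.succ)) :=
    Delta0.eqFun ((DFun.proj (Fin.succ 0)).mod (DFun.proj 0)) hF2
  have h3 := Delta0.ballFun (n := n + 1) (b := fun w => R (fun i => w i.succ))
    (P := fun (t : ℕ) (u : Fin (n + 1) → ℕ) => u 0 % (t + 1) =
      (∏ i ∈ range (S (fun i => u i.succ)), g i (fun i => u i.succ)) %
        (min t (R (fun i => u i.succ)) + 1)) hR.weak h2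
  refine (h1.and h3).of_iff fun w => ?_
  constructor
  · intro e
    refine ⟨e ▸ hb _, fun t ht => ?_⟩
    rw [min_eq_left ht, e]
  · rintro ⟨h4, h5⟩
    have h6 : ∀ q, q.Prime → q < 16 * (lg (B (fun i => w i.succ)) + 2) ^ 2 + 3 →
        w 0 % q = (∏ i ∈ range (S (fun i => w i.succ)), g i (fun i => w i.succ)) % q := by
      intro q hq hq2
      have h7 := h5 (q - 1) (show q - 1 ≤ 16 * (lg (B (fun i => w i.succ)) + 2) ^ 2 + 3 by omega)
      have h8 : min (q - 1) (R (fun i => w i.succ)) = q - 1 := min_eq_left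
        (show q - 1 ≤ 16 * (lg (B (fun i => w i.succ)) + 2) ^ 2 + 3 by omega)
      rw [h8, Nat.sub_add_cancel hq.one_le] at h7
      exact h7
    rcases le_total (w 0) (∏ i ∈ range (S (fun i => w i.succ)), g i (fun i => w i.succ)) with h | h
    · exact ProdPoly_eq h (hb _) h6
    · exact (ProdPoly_eq h h4 fun q hq hq2 => (h6 q hq hq2).symm).symm

end Pool.Agent.PtC
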