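import Pool.Agent.PtC.DefD
import Pool.Agent.PtC.Crt
import Pool.Agent.PtC.ProdPoly
import Pool.Agent.PtC.NthPF

/-!
# Package PtC-Final: squarefree moduli

*`dfun_prodPF`*: `prod_pf`, `dfun_prodPoly` with `S v = #(m v).primeFactors ≤ lg (m v)`
(`primeFactors` of `m` have product `≤ m`, each `≥ 2`; ECD has `primeCt_dvd`, private: restate) and
`g (pf (m v) i) v`, `DFun.comp`. ∎

*`qn_prime`*, *`pn_prime`*: all primes: `quart_def`, `pc_def` for `p ≥ 5`, `small_def` for `p = 2`,
`p = 3` (`DFun.ite`). ∎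

*`qn_sqf`*: `crt_sqf` with `R m x y := y ^ 2 ≡ q4 a b c d e x [MOD m]`, the bound `m ^ 2` for the
product (it is the number of solutions, `≤ m ^ 2`, if `m` is squarefree; for other `m` replace
the modulus by `1` before: `m' v = if Squarefree m then m else 1`; `Squarefree m` is `Delta0`: no
`x` with `1 < x ≤ m`, `x * x ∣ m`), `dfun_prodPF` with `qn_prime`. *`pn_sqf`*: the same. ∎

Difficulty: 1.3 h.
-/

set_option autoImplicit false

namespace Pool.Agent.PtC

open Finset Pool.Agent.Grz Pool.Agent.GAvg Pool.Agent.PTr Pool.Agent.MTr Pool.Agent.LPC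
  Pool.Agent.ECD

private theorem primeCt_Final (m : ℕ) : #m.primeFactors ≤ lg m := by
  rcases Nat.eq_zero_or_pos m with h0 | h0
  · rw [h0, Nat.primeFactors_zero, Finset.card_empty]
    exact Nat.zero_le _
  have h1 : 2 ^ #m.primeFactors ≤ m := by
    calc 2 ^ #m.primeFactors = ∏ _p ∈ m.primeFactors, 2 := by rw [Finset.prod_const]
      _ ≤ ∏ p ∈ m.primeFactors, p :=
        Finset.prod_le_prod' fun p hp => (Nat.prime_of_mem_primeFactors hp).two_le
      _ ≤ m := Nat.le_of_dvd h0 (Nat.prod_primeFactors_dvd m)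
  exact (Nat.le_log_iff_pow_le (by norm_num) h0.ne').2 h1

theorem dfun_prodPF {n : ℕ} {m B : (Fin n → ℕ) → ℕ} {g : ℕ → (Fin n → ℕ) → ℕ}
    (hg : DFun (n + 1) (fun w => g (w 0) (fun i => w i.succ))) (hm : DFun n m) (hB : DFun n B)
    (hb : ∀ v, ∏ q ∈ (m v).primeFactors, g q v ≤ B v) :
    DFun n (fun v => ∏ q ∈ (m v).primeFactors, g q v) := by
  have e : ∀ v, ∏ q ∈ (m v).primeFactors, g q v =
      ∏ i ∈ range (#(m v).primeFactors), g (pf (m v) i) v := fun v =>
    prod_pf (m v) fun q => g q v
  refine dfun_congr ?_ e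
  refine dfun_prodPoly 1 (N := m) (B := B) (g := fun i v => g (pf (m v) i) v) ?_
    (DFun.comp1 (g := fun m => #m.primeFactors) om_def hm) hm hB (fun v => ?_) fun v => ?_
  · exact DFun.app hg (u := fun w : Fin (n + 1) → ℕ => pf (m (fun i => w i.succ)) (w 0))
      (v := fun i w => w i.succ) (DFun.comp2 (g := pf) pf_def hm.weak (DFun.proj 0))
      fun i => DFun.proj i.succ
  · rw [pow_one]
    exact (primeCt_Final (m v)).trans (Nat.le_succ _)
  · rw [← e v]
    exact hb v

private theorem prime_cases_Final {p : ℕ} (hp : p.Prime) : Good p ∨ p = 2 ∨ p = 3 := by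
  by_cases h : 5 ≤ p
  · exact Or.inl ⟨hp, h⟩
  · have h2 := hp.two_le
    have h4 : p ≠ 4 := by
      rintro rfl
      revert hp
      decide
    omega

private theorem mod_Final {n : ℕ} (k y : ℕ) {f : (Fin n → ℕ) → ℕ} (hf : DFun n f) :
    Delta0 n (fun v => y ≡ f v [MOD k]) :=
  Delta0.eqFun (DFun.modAny (DFun.const y) (DFun.const k)) (DFun.modAny hf (DFun.const k))

private theorem q4_Final {n : ℕ} {a b c d e x : (Fin n → ℕ) → ℕ} (ha : DFun n a) (hb : DFun n b)
    (hc : DFun n c) (hd : DFun n d) (he : DFun n e) (hx : DFun n x) :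
    DFun n (fun v => q4 (a v) (b v) (c v) (d v) (e v) (x v)) := by
  unfold q4
  exact (((ha.add (hb.mul hx)).add (hc.mul (DFun.powConst hx 2))).add
    (hd.mul (DFun.powConst hx 3))).add (he.mul (DFun.powConst hx 4))

private theorem qnk_Final (k : ℕ) : DFun 6 (fun v => QN k (v 1) (v 2) (v 3) (v 4) (v 5)) := by
  classical
  have h := small_def (n := 6) k (R := fun x y v =>
    y ^ 2 ≡ q4 (v 1) (v 2) (v 3) (v 4) (v 5) x [MOD k]) fun x y =>
      mod_Final k (y ^ 2) (q4_Final (DFun.proj 1) (DFun.proj 2) (DFun.proj 3) (DFun.proj 4)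
        (DFun.proj 5) (DFun.const x))
  refine dfun_congr h fun v => ?_
  unfold QN
  congr 1
  ext z
  simp only [Finset.mem_filter]

private theorem cub_Final {n : ℕ} {e : Fin 10 → (Fin n → ℕ) → ℕ} {x y : (Fin n → ℕ) → ℕ}
    (he : ∀ i, DFun n (e i)) (hx : DFun n x) (hy : DFun n y) :
    DFun n (fun v => cub (fun i => e i v) (x v) (y v)) := by
  unfold cub
  exact (((((((((he 0).add ((he 1).mul hx)).add ((he 2).mul hy)).add
    ((he 3).mul (DFun.powConst hx 2))).add (((he 4).mul hx).mul hy)).add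
    ((he 5).mul (DFun.powConst hy 2))).add ((he 6).mul (DFun.powConst hx 3))).add
    (((he 7).mul (DFun.powConst hx 2)).mul hy)).add
    (((he 8).mul hx).mul (DFun.powConst hy 2))).add ((he 9).mul (DFun.powConst hy 3))

private theorem pnk_Final (k : ℕ) : DFun 11 (fun v => PN k (fun i => v i.succ)) := by
  classical
  have h := small_def (n := 11) k (R := fun x y v => k ∣ cub (fun i => v i.succ) x y) fun x y =>
      delta_dvd (DFun.const k) (cub_Final (e := fun i v => v i.succ)
        (fun i => DFun.proj i.succ) (DFun.const x) (DFun.const y))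
  refine dfun_congr h fun v => ?_
  unfold PN
  congr 1
  ext z
  simp only [Finset.mem_filter]

open scoped Classical in
theorem qn_prime :
    DFun 6 (fun v => if (v 0).Prime then QN (v 0) (v 1) (v 2) (v 3) (v 4) (v 5) else 0) := by
  have h2 := DFun.ite (Delta0.eqFun (DFun.proj (n := 6) 0) (DFun.const 3)) (qnk_Final 3)
    (DFun.const 0)
  have h1 := DFun.ite (Delta0.eqFun (DFun.proj (n := 6) 0) (DFun.const 2)) (qnk_Final 2) h2
  refine dfun_congr (quart_def.add h1) fun v => ?_
  by_cases hp : (v 0).Prime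
  · rw [if_pos hp]
    rcases prime_cases_Final hp with h | h | h
    · have h3 : v 0 ≠ 2 := fun e => by have := h.2; omega
      have h4 : v 0 ≠ 3 := fun e => by have := h.2; omega
      rw [if_pos h, if_neg h3, if_neg h4, add_zero]
    · have h3 : ¬ Good (v 0) := fun e => by have := e.2; omega
      rw [if_neg h3, if_pos h, zero_add, h]
    · have h3 : ¬ Good (v 0) := fun e => by have := e.2; omega
      have h4 : v 0 ≠ 2 := by omega
      rw [if_neg h3, if_neg h4, if_pos h, zero_add, h]
  · have h3 : ¬ Good (v 0) := fun e => hp e.1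
    have h4 : v 0 ≠ 2 := fun e => hp (e ▸ Nat.prime_two)
    have h5 : v 0 ≠ 3 := fun e => hp (e ▸ Nat.prime_three)
    rw [if_neg hp, if_neg h3, if_neg h4, if_neg h5]

open scoped Classical in
theorem pn_prime :
    DFun 11 (fun v => if (v 0).Prime then PN (v 0) (fun i => v i.succ) else 0) := by
  have h2 := DFun.ite (Delta0.eqFun (DFun.proj (n := 11) 0) (DFun.const 3)) (pnk_Final 3)
    (DFun.const 0)
  have h1 := DFun.ite (Delta0.eqFun (DFun.proj (n := 11) 0) (DFun.const 2)) (pnk_Final 2) h2
  refine dfun_congr (pc_def.add h1) fun v => ?_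
  by_cases hp : (v 0).Prime
  · rw [if_pos hp]
    rcases prime_cases_Final hp with h | h | h
    · have h3 : v 0 ≠ 2 := fun e => by have := h.2; omega
      have h4 : v 0 ≠ 3 := fun e => by have := h.2; omega
      rw [if_pos h, if_neg h3, if_neg h4, add_zero]
    · have h3 : ¬ Good (v 0) := fun e => by have := e.2; omega
      rw [if_neg h3, if_pos h, zero_add, h]
    · have h3 : ¬ Good (v 0) := fun e => by have := e.2; omega
      have h4 : v 0 ≠ 2 := by omega
      rw [if_neg h3, if_neg h4, if_pos h, zero_add, h]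
  · have h3 : ¬ Good (v 0) := fun e => hp e.1
    have h4 : v 0 ≠ 2 := fun e => hp (e ▸ Nat.prime_two)
    have h5 : v 0 ≠ 3 := fun e => hp (e ▸ Nat.prime_three)
    rw [if_neg hp, if_neg h3, if_neg h4, if_neg h5]

private theorem sqf_Final {n : ℕ} {f : (Fin n → ℕ) → ℕ} (hf : DFun n f) :
    Delta0 n (fun v => Squarefree (f v)) := by
  have h1 : Delta0 (n + 1) (fun w => w 0 * w 0 ∣ f (fun i => w i.succ) → w 0 = 1) :=
    (delta_dvd ((DFun.proj 0).mul (DFun.proj 0)) hf.weak).imp
      (Delta0.eqFun (DFun.proj 0) (DFun.const 1))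
  refine ((Delta0.ltFun (DFun.const 0) hf).and (Delta0.ballFun
    (P := fun x v => x * x ∣ f v → x = 1) hf h1)).of_iff fun v => ?_
  constructor
  · intro h
    exact ⟨Nat.pos_of_ne_zero h.ne_zero, fun x _ hx => Nat.isUnit_iff.1 (h x hx)⟩
  · rintro ⟨h0, h⟩ x hx
    refine Nat.isUnit_iff.2 (h x ?_ hx)
    have h2 : x * x ≤ f v := Nat.le_of_dvd h0 hx
    exact (Nat.le_mul_self x).trans h2

private theorem card_Final (m : ℕ) (P : ℕ × ℕ → Prop) [DecidablePred P] :
    #{z ∈ range m ×ˢ range m | P z} ≤ m ^ 2 := by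
  refine (Finset.card_filter_le _ _).trans ?_
  rw [Finset.card_product, Finset.card_range, pow_two]

private theorem qn_crt_Final {m : ℕ} (hm : Squarefree m) (a b c d e : ℕ) :
    QN m a b c d e = ∏ p ∈ m.primeFactors, QN p a b c d e := by
  classical
  have h := crt_sqf (fun m x y => y ^ 2 ≡ q4 a b c d e x [MOD m]) (fun m x y => ?_)
    (fun k l x y hkl => ?_) (Nat.modEq_one) hm
  · unfold QN
    convert h using 2
    · congr
    · congr
  · have e1 : ((q4 a b c d e (x % m) : ℕ) : ZMod m) = ((q4 a b c d e x : ℕ) : ZMod m) := by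
      unfold q4
      push_cast
      simp only [ZMod.natCast_mod]
    have e2 : (((y % m) ^ 2 : ℕ) : ZMod m) = ((y ^ 2 : ℕ) : ZMod m) := by
      push_cast
      simp only [ZMod.natCast_mod]
    change (y % m) ^ 2 ≡ q4 a b c d e (x % m) [MOD m] ↔ y ^ 2 ≡ q4 a b c d e x [MOD m]
    rw [← ZMod.natCast_eq_natCast_iff, ← ZMod.natCast_eq_natCast_iff, e1, e2]
  · exact (Nat.modEq_and_modEq_iff_modEq_mul hkl).symm

private theorem pn_crt_Final {m : ℕ} (hm : Squarefree m) (e : Fin 10 → ℕ) :
    PN m e = ∏ p ∈ m.primeFactors, PN p e := by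
  classical
  have h := crt_sqf (fun m x y => m ∣ cub e x y) (fun m x y => ?_)
    (fun k l x y hkl => ?_) (one_dvd _) hm
  · unfold PN
    convert h using 2
    · congr
    · congr
  · have e1 : ((cub e (x % m) (y % m) : ℕ) : ZMod m) = ((cub e x y : ℕ) : ZMod m) := by
      unfold cub
      push_cast
      simp only [ZMod.natCast_mod]
    change m ∣ cub e (x % m) (y % m) ↔ m ∣ cub e x y
    rw [← ZMod.natCast_eq_zero_iff, ← ZMod.natCast_eq_zero_iff, e1]
  · constructor
    · intro h
      exact ⟨(Dvd.intro _ rfl).trans h, (Dvd.intro_left _ rfl).trans h⟩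
    · rintro ⟨h1, h2⟩
      exact Nat.Coprime.mul_dvd_of_dvd_of_dvd hkl h1 h2

open scoped Classical in
/-- the number of the solutions of `y ^ 2 = f(x)`, `deg f ≤ 4`, modulo a squarefree number -/
theorem qn_sqf :
    DFun 6 (fun v => if Squarefree (v 0) then QN (v 0) (v 1) (v 2) (v 3) (v 4) (v 5) else 0) := by
  have hs : Delta0 6 (fun v => Squarefree (v 0)) := sqf_Final (DFun.proj 0)
  have hm : DFun 6 (fun v => if Squarefree (v 0) then v 0 else 1) :=
    DFun.ite hs (DFun.proj 0) (DFun.const 1)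
  have hg : DFun (6 + 1) (fun w => (fun (q : ℕ) (v : Fin 6 → ℕ) =>
      if q.Prime then QN q (v 1) (v 2) (v 3) (v 4) (v 5) else 0) (w 0) (fun i => w i.succ)) :=
    DFun.app (n := 5) (m := 7) (T := fun (q : ℕ) (v : Fin 5 → ℕ) =>
      if q.Prime then QN q (v 0) (v 1) (v 2) (v 3) (v 4) else 0) qn_prime
      (u := fun w => w 0) (v := fun i w => w i.succ.succ) (DFun.proj 0)
      fun i => DFun.proj i.succ.succ
  have hsq : ∀ v : Fin 6 → ℕ, Squarefree (if Squarefree (v 0) then v 0 else 1) := by
    intro v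
    split_ifs with h
    · exact h
    · exact squarefree_one
  have hpr : ∀ v : Fin 6 → ℕ,
      ∏ q ∈ (if Squarefree (v 0) then v 0 else 1).primeFactors,
        (if q.Prime then QN q (v 1) (v 2) (v 3) (v 4) (v 5) else 0) =
      QN (if Squarefree (v 0) then v 0 else 1) (v 1) (v 2) (v 3) (v 4) (v 5) := by
    intro v
    rw [qn_crt_Final (hsq v)]
    refine Finset.prod_congr rfl fun q hq => ?_
    rw [if_pos (Nat.prime_of_mem_primeFactors hq)]
  have h := dfun_prodPF (n := 6) (m := fun v => if Squarefree (v 0) then v 0 else 1)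
    (B := fun v => (if Squarefree (v 0) then v 0 else 1) ^ 2) hg hm (DFun.powConst hm 2)
    fun v => by
      rw [hpr v]
      unfold QN
      exact card_Final _ _
  refine dfun_congr (DFun.ite hs h (DFun.const 0)) fun v => ?_
  by_cases h0 : Squarefree (v 0)
  · have e := hpr v
    rw [if_pos h0] at e
    rw [if_pos h0, if_pos h0]
    rw [if_pos h0]
    exact e.symm
  · rw [if_neg h0, if_neg h0]

open scoped Classical in
/-- the number of the solutions of a cubic equation in two unknowns modulo a squarefree number -/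
theorem pn_sqf :
    DFun 11 (fun v => if Squarefree (v 0) then PN (v 0) (fun i => v i.succ) else 0) := by
  have hs : Delta0 11 (fun v => Squarefree (v 0)) := sqf_Final (DFun.proj 0)
  have hm : DFun 11 (fun v => if Squarefree (v 0) then v 0 else 1) :=
    DFun.ite hs (DFun.proj 0) (DFun.const 1)
  have hg : DFun (11 + 1) (fun w => (fun (q : ℕ) (v : Fin 11 → ℕ) =>
      if q.Prime then PN q (fun i => v i.succ) else 0) (w 0) (fun i => w i.succ)) :=
    DFun.app (n := 10) (m := 12) (T := fun (q : ℕ) (v : Fin 10 → ℕ) =>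
      if q.Prime then PN q v else 0) pn_prime
      (u := fun w => w 0) (v := fun i w => w i.succ.succ) (DFun.proj 0)
      fun i => DFun.proj i.succ.succ
  have hsq : ∀ v : Fin 11 → ℕ, Squarefree (if Squarefree (v 0) then v 0 else 1) := by
    intro v
    split_ifs with h
    · exact h
    · exact squarefree_one
  have hpr : ∀ v : Fin 11 → ℕ,
      ∏ q ∈ (if Squarefree (v 0) then v 0 else 1).primeFactors,
        (if q.Prime then PN q (fun i => v i.succ) else 0) =
      PN (if Squarefree (v 0) then v 0 else 1) (fun i => v i.succ) := by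
    intro v
    rw [pn_crt_Final (hsq v)]
    refine Finset.prod_congr rfl fun q hq => ?_
    rw [if_pos (Nat.prime_of_mem_primeFactors hq)]
  have h := dfun_prodPF (n := 11) (m := fun v => if Squarefree (v 0) then v 0 else 1)
    (B := fun v => (if Squarefree (v 0) then v 0 else 1) ^ 2) hg hm (DFun.powConst hm 2)
    fun v => by
      rw [hpr v]
      unfold PN
      exact card_Final _ _
  refine dfun_congr (DFun.ite hs h (DFun.const 0)) fun v => ?_
  by_cases h0 : Squarefree (v 0)
  · have e := hpr v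
    rw [if_pos h0] at e
    rw [if_pos h0, if_pos h0]
    rw [if_pos h0]
    exact e.symm
  · rw [if_neg h0, if_neg h0]

end Pool.Agent.PtC
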