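import Pool.Agent.PtC.Defs

/-!
# Package PtC-Bridge: numbers of solutions and character sums over `ZMod p`

*`qn_eq`*: the map `(x, y) ↦ ((x : ZMod p), (y : ZMod p))` is a bijection of `range p × range p` to
`ZMod p × ZMod p` that respects the equation (`ZMod.natCast_eq_natCast_iff`), and for fixed `x` the
number of the `y` with `y ^ 2 = f(x)` is `quadraticChar f(x) + 1` (`quadraticChar_card_sqrts`,
`ZMod.ringChar_zmod_n`). The others are alike. ∎

*`qn_congr`*: from the definition, or `qn_eq`-like. ∎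

Difficulty: 1.0 h.
-/

set_option autoImplicit false

namespace Pool.Agent.PtC

open Finset

private theorem cast_inj_Bridge {p s t : ℕ} (hs : s < p) (ht : t < p)
    (h : (s : ZMod p) = (t : ZMod p)) : s = t := by
  rw [ZMod.natCast_eq_natCast_iff'] at h
  rwa [Nat.mod_eq_of_lt hs, Nat.mod_eq_of_lt ht] at h

private theorem sum_Bridge {p : ℕ} [NeZero p] {M : Type*} [AddCommMonoid M] (f : ZMod p → M) :
    ∑ t ∈ range p, f (t : ZMod p) = ∑ t : ZMod p, f t := by
  refine Finset.sum_bij (fun t _ => (t : ZMod p)) (fun t _ => mem_univ _) ?_ ?_ ?_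
  · intro s hs t ht h
    exact cast_inj_Bridge (mem_range.1 hs) (mem_range.1 ht) h
  · intro b _
    exact ⟨b.val, mem_range.2 (ZMod.val_lt b), ZMod.natCast_zmod_val b⟩
  · intro t _
    rfl

private theorem card_Bridge {p : ℕ} [NeZero p] (P : ZMod p → Prop) [DecidablePred P] :
    ((range p).filter fun t : ℕ => P (t : ZMod p)).card = #{t : ZMod p | P t} := by
  rw [card_filter, card_filter]
  exact sum_Bridge (fun t => if P t then 1 else 0)

private theorem card2_Bridge {p : ℕ} [NeZero p] (P : ZMod p → ZMod p → Prop)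
    [∀ x y, Decidable (P x y)] :
    ((range p ×ˢ range p).filter fun z : ℕ × ℕ => P (z.1 : ZMod p) (z.2 : ZMod p)).card =
      #{z : ZMod p × ZMod p | P z.1 z.2} := by
  rw [card_filter, card_filter, sum_product, Fintype.sum_prod_type]
  have h : ∀ x : ZMod p, ∑ y ∈ range p, (if P x (y : ZMod p) then 1 else 0) =
      ∑ y : ZMod p, (if P x y then 1 else 0) := fun x =>
    sum_Bridge (fun y => if P x y then 1 else 0)
  simp only [h]
  exact sum_Bridge (fun x => ∑ y : ZMod p, (if P x y then 1 else 0))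

theorem qn_congr {m a b c d e a' b' c' d' e' : ℕ} (ha : a ≡ a' [MOD m]) (hb : b ≡ b' [MOD m])
    (hc : c ≡ c' [MOD m]) (hd : d ≡ d' [MOD m]) (he : e ≡ e' [MOD m]) :
    QN m a b c d e = QN m a' b' c' d' e' := by
  unfold QN
  congr 1
  refine filter_congr fun z _ => ?_
  have h : q4 a b c d e z.1 ≡ q4 a' b' c' d' e' z.1 [MOD m] := by
    unfold q4
    exact (((ha.add (hb.mul_right _)).add (hc.mul_right _)).add (hd.mul_right _)).add
      (he.mul_right _)
  exact ⟨fun h1 => h1.trans h, fun h1 => h1.trans h.symm⟩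

private theorem q4_cast_Bridge {p : ℕ} (a b c d e x : ℕ) :
    ((q4 a b c d e x : ℕ) : ZMod p) = q4 (a : ZMod p) b c d e x := by
  unfold q4
  push_cast
  rfl

theorem sn_eq {p : ℕ} [Fact p.Prime] (hp : p ≠ 2) (a : ℕ) :
    (SN p a : ℤ) = 1 + quadraticChar (ZMod p) a := by
  have hc : ringChar (ZMod p) ≠ 2 := by rwa [ZMod.ringChar_zmod_n]
  have h1 := quadraticChar_card_sqrts hc (a : ZMod p)
  have h2 : SN p a = #{y : ZMod p | y ^ 2 = (a : ZMod p)} := by
    rw [← card_Bridge (p := p) (fun y : ZMod p => y ^ 2 = (a : ZMod p))]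
    unfold SN
    congr 1
    refine filter_congr fun y _ => ?_
    rw [← ZMod.natCast_eq_natCast_iff, Nat.cast_pow]
  have h3 : {x : ZMod p | x ^ 2 = (a : ZMod p)}.toFinset =
      ({y : ZMod p | y ^ 2 = (a : ZMod p)} : Finset (ZMod p)) := by
    ext x
    simp
  rw [h3] at h1
  rw [h2, h1, add_comm]

theorem qn_eq {p : ℕ} [Fact p.Prime] (hp : p ≠ 2) (a b c d e : ℕ) :
    (QN p a b c d e : ℤ) = p + S4 (a : ZMod p) b c d e := by
  have h1 : QN p a b c d e = ∑ x ∈ range p, SN p (q4 a b c d e x) := by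
    unfold QN SN
    rw [card_filter, sum_product]
    refine sum_congr rfl fun x _ => ?_
    rw [card_filter]
  rw [h1, Nat.cast_sum]
  have h2 : ∀ x ∈ range p, (SN p (q4 a b c d e x) : ℤ) =
      1 + quadraticChar (ZMod p) (q4 (a : ZMod p) b c d e (x : ZMod p)) := fun x _ => by
    rw [sn_eq hp, q4_cast_Bridge]
  rw [sum_congr rfl h2, sum_add_distrib, sum_const, card_range, nsmul_eq_mul, mul_one,
    sum_Bridge (fun x : ZMod p => quadraticChar (ZMod p) (q4 (a : ZMod p) b c d e x))]
  rfl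

theorem rn_eq {p : ℕ} [Fact p.Prime] (a b c d : ℕ) :
    RN p a b c d = #{t : ZMod p | q4 (a : ZMod p) b c d 0 t = 0} := by
  rw [← card_Bridge (fun t : ZMod p => q4 (a : ZMod p) b c d 0 t = 0)]
  unfold RN
  congr 1
  refine filter_congr fun t _ => ?_
  rw [← ZMod.natCast_eq_zero_iff, q4_cast_Bridge, Nat.cast_zero]

theorem pn_eq {p : ℕ} [Fact p.Prime] (e : Fin 10 → ℕ) :
    PN p e = #{z : ZMod p × ZMod p | cub (fun i => (e i : ZMod p)) z.1 z.2 = 0} := by
  rw [← card2_Bridge (fun x y : ZMod p => cub (fun i => (e i : ZMod p)) x y = 0)]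
  unfold PN
  congr 1
  refine filter_congr fun z _ => ?_
  rw [← ZMod.natCast_eq_zero_iff]
  unfold cub
  push_cast
  rfl

end Pool.Agent.PtC
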