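import Pool.Agent.PtC.Defs

/-!
# Package PtC-CubA: plane cubics through the origin

`e 0 = 0`. Let `a(t) = e 6 + e 7 t + e 8 t ^ 2 + e 9 t ^ 3`, `b(t) = e 3 + e 4 t + e 5 t ^ 2`,
`c(t) = e 1 + e 2 t`; `N = |F|`, `χ = quadraticChar F`.

*`pc_origin`*. The solutions of `cub e x y = 0`: the origin; the points `(0, y)`, `y ≠ 0`, with
`e 2 + e 5 y + e 9 y ^ 2 = 0`; and the points `(x, t x)` with `x ≠ 0` (`t = y / x`) and
`a(t) x ^ 2 + b(t) x + c(t) = 0` (as `cub e x (t x) = x (a(t) x ^ 2 + b(t) x + c(t))`). For fixed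
`t` let `n(t)` be the number of the `x ≠ 0` with `a(t) x ^ 2 + b(t) x + c(t) = 0`. Then
`n(t) = 1 + χ(b ^ 2 - 4 a c) - [a = 0] - [c = 0] + N [a = b = c = 0]`:
`a ≠ 0`, `c ≠ 0`: all roots are nonzero, `1 + χ(D)` of them; `a ≠ 0`, `c = 0`: one nonzero root
iff `b ≠ 0` (and `χ(b ^ 2) = 1` iff `b ≠ 0`); `a = 0`, `c ≠ 0`: the same; `a = c = 0`, `b ≠ 0`:
none (`1 + 1 - 1 - 1`); `a = b = c = 0`: all `N - 1` (`1 + 0 - 1 - 1 + N`). (A lemma: for `a ≠ 0`
the number of all roots of `a x ^ 2 + b x + c` is `1 + χ(b ^ 2 - 4 a c)`, from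
`quadraticChar_card_sqrts` and `(2 a x + b) ^ 2 = b ^ 2 - 4 a c`.) Sum over `t`; `b ^ 2 - 4 a c`
is the polynomial of degree at most four in `t` with the coefficients in the statement (`ring`).

Difficulty: 1.5 h.
-/

set_option autoImplicit false

namespace Pool.Agent.PtC

open Finset

variable {F : Type*} [Field F] [Fintype F] [DecidableEq F]

/-- the number of roots of `a x ^ 2 + b x + c` -/
private theorem roots_ne_CubA (h2 : (2 : F) ≠ 0) {a b c : F} (ha : a ≠ 0) :
    ∑ x : F, (if a * x ^ 2 + b * x + c = 0 then (1 : ℤ) else 0) =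
      1 + quadraticChar F (b ^ 2 - 4 * a * c) := by
  have hchar : ringChar F ≠ 2 := by
    intro h
    apply h2
    have := ringChar.Nat.cast_ringChar (R := F)
    rw [h] at this
    exact_mod_cast this
  have h := quadraticChar_card_sqrts hchar (b ^ 2 - 4 * a * c)
  rw [add_comm (quadraticChar F (b ^ 2 - 4 * a * c)) 1] at h
  rw [← h, ← Finset.natCast_card_filter]
  congr 1
  have h2a : 2 * a ≠ 0 := mul_ne_zero h2 ha
  refine Finset.card_bij (fun x _ => 2 * a * x + b) ?_ ?_ ?_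
  · intro x hx
    rw [Finset.mem_filter] at hx
    rw [Set.mem_toFinset, Set.mem_ofPred_eq]
    linear_combination 4 * a * hx.2
  · intro x _ y _ hxy
    have h3 : 2 * a * (x - y) = 0 := by linear_combination hxy
    exact sub_eq_zero.1 ((mul_eq_zero.1 h3).resolve_left h2a)
  · intro y hy
    rw [Set.mem_toFinset, Set.mem_ofPred_eq] at hy
    refine ⟨(y - b) / (2 * a), ?_, ?_⟩
    · rw [Finset.mem_filter]
      refine ⟨Finset.mem_univ _, ?_⟩
      have h4 : 4 * a ≠ 0 := by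
        rw [show (4 : F) = 2 * 2 by norm_num]
        exact mul_ne_zero (mul_ne_zero h2 h2) ha
      have h5 : 4 * a * (a * ((y - b) / (2 * a)) ^ 2 + b * ((y - b) / (2 * a)) + c) = 0 := by
        have h6 : 2 * a * ((y - b) / (2 * a)) = y - b := mul_div_cancel₀ _ h2a
        linear_combination (2 * a * ((y - b) / (2 * a)) + (y - b) + 2 * b) * h6 + hy
      exact (mul_eq_zero.1 h5).resolve_left h4
    · show 2 * a * ((y - b) / (2 * a)) + b = y
      rw [mul_div_cancel₀ _ h2a]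
      ring

/-- the number of roots, all cases -/
private theorem roots_CubA (h2 : (2 : F) ≠ 0) (a b c : F) :
    ∑ x : F, (if a * x ^ 2 + b * x + c = 0 then (1 : ℤ) else 0) =
      1 + quadraticChar F (b ^ 2 - 4 * a * c) - (if a = 0 then 1 else 0) +
        Fintype.card F * (if a = 0 ∧ b = 0 ∧ c = 0 then 1 else 0) := by
  by_cases ha : a = 0
  · subst ha
    by_cases hb : b = 0
    · subst hb
      by_cases hc : c = 0
      · subst hc
        simp
      · simp [hc]
    · have hx : ∀ x : F, (0 * x ^ 2 + b * x + c = 0) ↔ x = -c / b := by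
        intro x
        rw [eq_div_iff hb]
        constructor
        · intro h
          linear_combination h
        · intro h
          linear_combination h
      simp only [hx]
      have hb2 : quadraticChar F (b ^ 2 - 4 * 0 * c) = 1 := by
        rw [mul_zero, zero_mul, sub_zero]
        exact quadraticChar_sq_one' hb
      rw [hb2]
      simp [hb]
  · rw [roots_ne_CubA h2 ha]
    simp [ha]

/-- the number of the nonzero roots -/
private theorem nz_CubA (h2 : (2 : F) ≠ 0) (a b c : F) :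
    ∑ x : F, (if x ≠ 0 ∧ a * x ^ 2 + b * x + c = 0 then (1 : ℤ) else 0) =
      1 + quadraticChar F (b ^ 2 - 4 * a * c) - (if a = 0 then 1 else 0) -
        (if c = 0 then 1 else 0) +
        Fintype.card F * (if a = 0 ∧ b = 0 ∧ c = 0 then 1 else 0) := by
  have h := roots_CubA h2 a b c
  have h1 : ∑ x : F, (if a * x ^ 2 + b * x + c = 0 then (1 : ℤ) else 0) =
      (if c = 0 then 1 else 0) +
        ∑ x : F, (if x ≠ 0 ∧ a * x ^ 2 + b * x + c = 0 then (1 : ℤ) else 0) := by
    have h3 : ∀ x : F, (if a * x ^ 2 + b * x + c = 0 then (1 : ℤ) else 0) =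
        (if x = 0 then (if c = 0 then 1 else 0) else 0) +
          (if x ≠ 0 ∧ a * x ^ 2 + b * x + c = 0 then (1 : ℤ) else 0) := by
      intro x
      by_cases hx : x = 0
      · subst hx
        simp
      · simp [hx]
    rw [Finset.sum_congr rfl fun x _ => h3 x, Finset.sum_add_distrib,
      Finset.sum_ite_eq' Finset.univ (0 : F) (fun _ => (if c = 0 then (1 : ℤ) else 0)),
      if_pos (Finset.mem_univ _)]
  linarith

/-- one column -/
private theorem col_CubA (e : Fin 10 → F) (h0 : e 0 = 0) (x : F) :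
    ∑ y : F, (if cub e x y = 0 then (1 : ℤ) else 0) =
      (if x = 0 then 1 + ∑ y : F, (if y ≠ 0 ∧ q4 (e 2) (e 5) (e 9) 0 0 y = 0 then (1 : ℤ)
        else 0) else 0) +
      ∑ t : F, (if x ≠ 0 ∧ q4 (e 6) (e 7) (e 8) (e 9) 0 t * x ^ 2 +
        q4 (e 3) (e 4) (e 5) 0 0 t * x + (e 1 + e 2 * t) = 0 then (1 : ℤ) else 0) := by
  by_cases hx : x = 0
  · subst hx
    rw [if_pos rfl]
    have h3 : ∀ y : F, (if cub e 0 y = 0 then (1 : ℤ) else 0) =
        (if y = 0 then 1 else 0) +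
          (if y ≠ 0 ∧ q4 (e 2) (e 5) (e 9) 0 0 y = 0 then (1 : ℤ) else 0) := by
      intro y
      have hc : cub e 0 y = y * q4 (e 2) (e 5) (e 9) 0 0 y := by
        unfold cub q4
        rw [h0]
        ring
      rw [hc]
      by_cases hy : y = 0
      · subst hy
        simp
      · simp [hy]
    rw [Finset.sum_congr rfl fun y _ => h3 y, Finset.sum_add_distrib,
      Finset.sum_ite_eq' Finset.univ (0 : F) (fun _ => (1 : ℤ)), if_pos (Finset.mem_univ _)]
    simp
  · rw [if_neg hx, zero_add]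
    symm
    refine Fintype.sum_bijective (fun t => t * x) (mulRight_bijective₀ x hx) _ _ ?_
    intro t
    have hc : cub e x (t * x) = x * (q4 (e 6) (e 7) (e 8) (e 9) 0 t * x ^ 2 +
        q4 (e 3) (e 4) (e 5) 0 0 t * x + (e 1 + e 2 * t)) := by
      unfold cub q4
      rw [h0]
      ring
    rw [hc]
    simp [hx]

theorem pc_origin (h2 : (2 : F) ≠ 0) (e : Fin 10 → F) (h0 : e 0 = 0) :
    (#{z : F × F | cub e z.1 z.2 = 0} : ℤ) =
      1 + #{y : F | y ≠ 0 ∧ q4 (e 2) (e 5) (e 9) 0 0 y = 0} + Fintype.card F +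
        S4 (e 3 ^ 2 - 4 * e 6 * e 1)
          (2 * e 3 * e 4 - 4 * (e 6 * e 2 + e 7 * e 1))
          (e 4 ^ 2 + 2 * e 3 * e 5 - 4 * (e 7 * e 2 + e 8 * e 1))
          (2 * e 4 * e 5 - 4 * (e 8 * e 2 + e 9 * e 1))
          (e 5 ^ 2 - 4 * e 9 * e 2) -
        #{t : F | q4 (e 6) (e 7) (e 8) (e 9) 0 t = 0} - #{t : F | e 1 + e 2 * t = 0} +
        Fintype.card F * #{t : F | q4 (e 6) (e 7) (e 8) (e 9) 0 t = 0 ∧
          q4 (e 3) (e 4) (e 5) 0 0 t = 0 ∧ e 1 + e 2 * t = 0} := by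
  rw [Finset.natCast_card_filter, Finset.natCast_card_filter, Finset.natCast_card_filter,
    Finset.natCast_card_filter, Finset.natCast_card_filter, Fintype.sum_prod_type]
  rw [Finset.sum_congr rfl fun x _ => col_CubA e h0 x, Finset.sum_add_distrib,
    Finset.sum_ite_eq' Finset.univ (0 : F), if_pos (Finset.mem_univ _), Finset.sum_comm]
  rw [Finset.sum_congr rfl fun t _ => nz_CubA h2 (q4 (e 6) (e 7) (e 8) (e 9) 0 t)
    (q4 (e 3) (e 4) (e 5) 0 0 t) (e 1 + e 2 * t)]
  rw [Finset.sum_add_distrib, Finset.sum_sub_distrib, Finset.sum_sub_distrib,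
    Finset.sum_add_distrib, ← Finset.mul_sum]
  have hS : ∑ t : F, quadraticChar F (q4 (e 3) (e 4) (e 5) 0 0 t ^ 2 -
      4 * q4 (e 6) (e 7) (e 8) (e 9) 0 t * (e 1 + e 2 * t)) =
      S4 (e 3 ^ 2 - 4 * e 6 * e 1)
          (2 * e 3 * e 4 - 4 * (e 6 * e 2 + e 7 * e 1))
          (e 4 ^ 2 + 2 * e 3 * e 5 - 4 * (e 7 * e 2 + e 8 * e 1))
          (2 * e 4 * e 5 - 4 * (e 8 * e 2 + e 9 * e 1))
          (e 5 ^ 2 - 4 * e 9 * e 2) := by
    unfold S4
    refine Finset.sum_congr rfl fun t _ => ?_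
    congr 1
    unfold q4
    ring
  have h1 : ∑ _t : F, (1 : ℤ) = Fintype.card F := by simp
  rw [hS, h1]
  ring

end Pool.Agent.PtC
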