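import Pool.Agent.PtC.Defs

/-!
# Package PtC-CubB: the shift of a plane cubic

*`cub_sh`*: `simp [sh, cub]` (`Fin` indices, `Matrix.cons_val`), `ring`. *`pc_shift`*: the bijection
`(x, y) ↦ (x + s, y + t)`. ∎

Difficulty: 0.5 h.
-/

set_option autoImplicit false

namespace Pool.Agent.PtC

open Finset

theorem cub_sh {R : Type*} [CommSemiring R] (e : Fin 10 → R) (s t x y : R) :
    cub (sh e s t) x y = cub e (x + s) (y + t) := by
  have h0 : sh e s t 0 = cub e s t := rfl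
  have h1 : sh e s t 1 = e 1 + 2 * e 3 * s + e 4 * t + 3 * e 6 * s ^ 2 + 2 * e 7 * s * t +
    e 8 * t ^ 2 := rfl
  have h2 : sh e s t 2 = e 2 + e 4 * s + 2 * e 5 * t + e 7 * s ^ 2 + 2 * e 8 * s * t +
    3 * e 9 * t ^ 2 := rfl
  have h3 : sh e s t 3 = e 3 + 3 * e 6 * s + e 7 * t := rfl
  have h4 : sh e s t 4 = e 4 + 2 * e 7 * s + 2 * e 8 * t := rfl
  have h5 : sh e s t 5 = e 5 + e 8 * s + 3 * e 9 * t := rfl
  have h6 : sh e s t 6 = e 6 := rfl
  have h7 : sh e s t 7 = e 7 := rfl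
  have h8 : sh e s t 8 = e 8 := rfl
  have h9 : sh e s t 9 = e 9 := rfl
  unfold cub
  rw [h0, h1, h2, h3, h4, h5, h6, h7, h8, h9]
  unfold cub
  ring

theorem pc_shift {F : Type*} [Field F] [Fintype F] [DecidableEq F] (e : Fin 10 → F) (s t : F) :
    #{z : F × F | cub (sh e s t) z.1 z.2 = 0} = #{z : F × F | cub e z.1 z.2 = 0} := by
  apply Finset.card_bij' (fun z _ => (z.1 + s, z.2 + t)) (fun z _ => (z.1 - s, z.2 - t))
  · intro z hz
    rw [Finset.mem_filter] at hz ⊢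
    refine ⟨Finset.mem_univ _, ?_⟩
    rw [← cub_sh]
    exact hz.2
  · intro z hz
    rw [Finset.mem_filter] at hz ⊢
    refine ⟨Finset.mem_univ _, ?_⟩
    rw [cub_sh]
    simpa using hz.2
  · intro z _
    simp
  · intro z _
    simp

end Pool.Agent.PtC
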