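import Pool.Agent.PtC.SumA

/-!
# Package PtC-SumB: character sums of cubic polynomials

*`s_cubic`*: `d ^ 2 (a + b x + c x ^ 2 + d x ^ 3) = T ^ 3 + r T + s` with `T = d x + c / 3`
(multiply by `27`; `3 ≠ 0`), `χ(d ^ 2) = 1`, `x ↦ d x + c / 3` is a bijection. ∎

*`s_sing_ex`*: if `r = 0` then `s = 0` (`27 ≠ 0`), `u = 0`. Else `u = -3 s / (2 r)`. ∎

*`s_sing`*: `x ^ 3 - 3 u ^ 2 x + 2 u ^ 3 = (x - u) ^ 2 (x + 2 u)`, so the sum is
`∑_(x ≠ u) χ(x + 2 u) = - χ(3 u)` (`s_lin`: the sum over all `x` is `0`). ∎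

Difficulty: 1.0 h.
-/

set_option autoImplicit false

namespace Pool.Agent.PtC

open Finset

variable {F : Type*} [Field F] [Fintype F] [DecidableEq F]

omit [Fintype F] [DecidableEq F] in
private theorem sumB_char (h2 : (2 : F) ≠ 0) : ringChar F ≠ 2 := by
  intro h
  apply h2
  have h1 : ((ringChar F : ℕ) : F) = 0 := ringChar.Nat.cast_ringChar
  rw [h] at h1
  exact_mod_cast h1

theorem s_cubic (h3 : (3 : F) ≠ 0) {a b c d r s : F} (hd : d ≠ 0)
    (hr : 3 * r = 3 * b * d - c ^ 2) (hs : 27 * s = 27 * a * d ^ 2 - 9 * b * c * d + 2 * c ^ 3) :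
    S4 a b c d 0 = S4 s r 0 1 0 := by
  obtain ⟨t, ht⟩ : ∃ t : F, c = 3 * t := ⟨c / 3, by field_simp⟩
  subst ht
  have h27 : (27 : F) ≠ 0 := by
    have h : (27 : F) = 3 ^ 3 := by norm_num
    rw [h]
    exact pow_ne_zero 3 h3
  have hr' : r = b * d - 3 * t ^ 2 := by
    apply mul_left_cancel₀ h3
    linear_combination hr
  have hs' : s = a * d ^ 2 - b * t * d + 2 * t ^ 3 := by
    apply mul_left_cancel₀ h27
    linear_combination hs
  have hbij : Function.Bijective (fun x : F => d * x + t) := by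
    constructor
    · intro x y h
      simp only at h
      exact mul_left_cancel₀ hd (add_right_cancel h)
    · intro y
      refine ⟨d⁻¹ * (y - t), ?_⟩
      simp only
      rw [mul_inv_cancel_left₀ hd]
      ring
  unfold S4
  rw [← hbij.sum_comp (fun y => quadraticChar F (q4 s r 0 1 0 y))]
  refine Finset.sum_congr rfl fun x _ => ?_
  have h1 : q4 s r 0 1 0 (d * x + t) = d ^ 2 * q4 a b (3 * t) d 0 x := by
    unfold q4
    rw [hr', hs']
    ring
  rw [h1, map_mul, quadraticChar_sq_one' hd, one_mul]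

theorem s_sing_ex (h2 : (2 : F) ≠ 0) (h3 : (3 : F) ≠ 0) {r s : F}
    (h : 4 * r ^ 3 + 27 * s ^ 2 = 0) : ∃ u : F, r = -3 * u ^ 2 ∧ s = 2 * u ^ 3 := by
  have h27 : (27 : F) ≠ 0 := by
    have h : (27 : F) = 3 ^ 3 := by norm_num
    rw [h]
    exact pow_ne_zero 3 h3
  by_cases hr : r = 0
  · subst hr
    have h1 : 27 * s ^ 2 = 0 := by linear_combination h
    have h4 : s ^ 2 = 0 := (mul_eq_zero.mp h1).resolve_left h27
    have h5 : s = 0 := pow_eq_zero_iff (two_ne_zero) |>.mp h4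
    exact ⟨0, by simp, by rw [h5]; simp⟩
  · have hu : 2 * r * (-3 * s / (2 * r)) = -3 * s := by
      field_simp
    refine ⟨-3 * s / (2 * r), ?_, ?_⟩
    · have h4 : (2 * r) ^ 2 ≠ 0 := pow_ne_zero 2 (mul_ne_zero h2 hr)
      apply mul_left_cancel₀ h4
      generalize -3 * s / (2 * r) = u at hu
      linear_combination h - 3 * s * (-3) * hu * (-1) + (3 * (2 * r * u) + 0) * hu
    · have h4 : (2 * r) ^ 3 ≠ 0 := pow_ne_zero 3 (mul_ne_zero h2 hr)
      apply mul_left_cancel₀ h4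
      generalize -3 * s / (2 * r) = u at hu
      have h5 : (2 * r * u) ^ 3 = (-3 * s) ^ 3 := by rw [hu]
      linear_combination 2 * s * h - 2 * h5

theorem s_sing (h2 : (2 : F) ≠ 0) (u : F) :
    S4 (2 * u ^ 3) (-3 * u ^ 2) 0 1 0 = - quadraticChar F (3 * u) := by
  have hbij : Function.Bijective (fun x : F => x + 2 * u) :=
    (Equiv.addRight (2 * u)).bijective
  have h0 : ∑ x : F, quadraticChar F (x + 2 * u) = 0 := by
    rw [hbij.sum_comp (fun y => quadraticChar F y)]
    exact quadraticChar_sum_zero (sumB_char h2)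
  have h1 : ∀ x : F, quadraticChar F (q4 (2 * u ^ 3) (-3 * u ^ 2) 0 1 0 x) =
      quadraticChar F (x + 2 * u) - if x = u then quadraticChar F (3 * u) else 0 := by
    intro x
    have h4 : q4 (2 * u ^ 3) (-3 * u ^ 2) 0 1 0 x = (x - u) ^ 2 * (x + 2 * u) := by
      unfold q4
      ring
    rw [h4]
    by_cases hx : x = u
    · subst hx
      rw [if_pos rfl, show x + 2 * x = 3 * x by ring, sub_self, sub_self]
      simp
    · rw [if_neg hx, map_mul, quadraticChar_sq_one' (sub_ne_zero.mpr hx), one_mul, sub_zero]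
  unfold S4
  rw [Finset.sum_congr rfl fun x _ => h1 x, Finset.sum_sub_distrib, h0,
    Finset.sum_ite_eq' Finset.univ u, if_pos (Finset.mem_univ u), zero_sub]

end Pool.Agent.PtC
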