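import Pool.Agent.PtC.Small
import Pool.Agent.PtC.Bridge
import Pool.Agent.PtC.SumB

/-!
# Package PtC-DefA: quadratic polynomials and depressed cubic polynomials

`Good p`: `p` is a prime, `p ≥ 5`. Only the statements of `sn_def`, `qn_eq`, `sn_eq`, `s_const`,
`s_lin`, `s_quad`, `s_sing_ex`, `s_sing`, `ec_count` are needed.

*`good_def`*: `delta_prime`, `Delta0.leFun`.

*`quad_def`*: for a good `p`, with `SN c = SN p c` (`DFun` by `sn_def`): if `c ≢ 0`:
`QN = 1 + (p - 1) SN c` if `b ^ 2 ≡ 4 a c`, else `QN = p + 1 - SN c`; if `c ≡ 0`: `QN = p` if `b ≢ 0`,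
else `QN = p SN a`. (`qn_eq`, `s_quad`, `s_lin`, `s_const` and `sn_eq`; congruences by `DFun.modAny` or
`DFun.mod`, `Delta0.eqFun`; `DFun.ite`.) ∎

*`dep_def`* (variables `p, r, s`; the equation `y ^ 2 = s + r x + x ^ 3`): if `Valid p r s` (that is
`p` prime, `≥ 5`, `4 r ^ 3 + 27 s ^ 2 ≢ 0`; `delta_valid` in ECD) the value is that of `ec_count`
(same set up to the order of the summands). Otherwise there is a `u < p` with `r + 3 u ^ 2 ≡ 0`,
`s ≡ 2 u ^ 3` (`s_sing_ex` over `ZMod p`) and then `QN = p + 1 - SN (3 u)` (`s_sing`, `qn_eq`,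
`sn_eq`; `r = -3 u ^ 2` in `ZMod p`): `DFun.ofGraph` with the bound `2 p` and
`Delta0.bexFun` for `u`. ∎

Difficulty: 1.3 h.
-/

set_option autoImplicit false

namespace Pool.Agent.PtC

open Finset Pool.Agent.Grz Pool.Agent.GAvg Pool.Agent.PTr Pool.Agent.MTr Pool.Agent.LPC
  Pool.Agent.ECD

private theorem delta_mod_DefA {n : ℕ} {f g m : (Fin n → ℕ) → ℕ} (hf : DFun n f) (hg : DFun n g)
    (hm : DFun n m) : Delta0 n (fun v => f v ≡ g v [MOD m v]) :=
  Delta0.eqFun (DFun.modAny hf hm) (DFun.modAny hg hm)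

private theorem two_ne_DefA {p : ℕ} (hp : 5 ≤ p) : (2 : ZMod p) ≠ 0 := by
  intro h
  have h1 : ((2 : ℕ) : ZMod p) = 0 := by exact_mod_cast h
  have h2 := Nat.le_of_dvd (by norm_num) ((ZMod.natCast_eq_zero_iff _ _).1 h1)
  omega

private theorem three_ne_DefA {p : ℕ} (hp : 5 ≤ p) : (3 : ZMod p) ≠ 0 := by
  intro h
  have h1 : ((3 : ℕ) : ZMod p) = 0 := by exact_mod_cast h
  have h2 := Nat.le_of_dvd (by norm_num) ((ZMod.natCast_eq_zero_iff _ _).1 h1)
  omega

open scoped Classical in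
private theorem sn_comp_DefA {n : ℕ} {f g : (Fin n → ℕ) → ℕ} (hf : DFun n f) (hg : DFun n g) :
    DFun n (fun v => if (f v).Prime then SN (f v) (g v) else 0) :=
  DFun.comp2 (g := fun p a => if p.Prime then SN p a else 0) sn_def hf hg

private theorem quad_val_DefA {p : ℕ} (hp : Good p) (a b c : ℕ) :
    QN p a b c 0 0 = if c ≡ 0 [MOD p] then (if b ≡ 0 [MOD p] then p * SN p a else p)
      else (if b ^ 2 ≡ 4 * a * c [MOD p] then 1 + (p - 1) * SN p c else p + 1 - SN p c) := by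
  have hF : Fact p.Prime := ⟨hp.1⟩
  have h5 := hp.2
  have hp2 : p ≠ 2 := by omega
  have h2 := two_ne_DefA hp.2
  have hq := qn_eq (p := p) hp2 a b c 0 0
  rw [Nat.cast_zero] at hq
  have hcard : (Fintype.card (ZMod p) : ℤ) = p := by rw [ZMod.card]
  have hb0 : (b ≡ 0 [MOD p]) ↔ (b : ZMod p) = 0 := by
    rw [← ZMod.natCast_eq_natCast_iff, Nat.cast_zero]
  have hc0 : (c ≡ 0 [MOD p]) ↔ (c : ZMod p) = 0 := by
    rw [← ZMod.natCast_eq_natCast_iff, Nat.cast_zero]
  have hd : (b ^ 2 ≡ 4 * a * c [MOD p]) ↔ (b : ZMod p) ^ 2 = 4 * a * c := by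
    rw [← ZMod.natCast_eq_natCast_iff]
    push_cast
    rfl
  by_cases hc : c ≡ 0 [MOD p]
  · rw [if_pos hc]
    rw [hc0.1 hc] at hq
    by_cases hb : b ≡ 0 [MOD p]
    · rw [if_pos hb]
      rw [hb0.1 hb, s_const, hcard] at hq
      have hs := sn_eq (p := p) hp2 a
      have h6 : (QN p a b c 0 0 : ℤ) = (p * SN p a : ℕ) := by
        rw [hq]
        push_cast
        rw [hs]
        ring
      exact_mod_cast h6
    · rw [if_neg hb]
      rw [s_lin h2 (fun h => hb (hb0.2 h)), add_zero] at hq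
      exact_mod_cast hq
  · rw [if_neg hc]
    have hs := sn_eq (p := p) hp2 c
    rw [s_quad h2 (fun h => hc (hc0.2 h)), hcard] at hq
    by_cases hb : b ^ 2 ≡ 4 * a * c [MOD p]
    · rw [if_pos hb]
      rw [if_pos (hd.1 hb)] at hq
      have h7 : ((p - 1 : ℕ) : ℤ) = p - 1 := by
        rw [Nat.cast_sub (by omega), Nat.cast_one]
      have h6 : (QN p a b c 0 0 : ℤ) = (1 + (p - 1) * SN p c : ℕ) := by
        rw [hq]
        push_cast
        rw [h7, hs]
        ring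
      exact_mod_cast h6
    · rw [if_neg hb]
      rw [if_neg (fun h => hb (hd.2 h))] at hq
      omega

private theorem sing_ex_DefA {p : ℕ} (hp : Good p) {r s : ℕ} (h : ¬ Valid p r s) :
    ∃ u, u ≤ p ∧ (r + 3 * u ^ 2 ≡ 0 [MOD p] ∧ s ≡ 2 * u ^ 3 [MOD p]) := by
  have hF : Fact p.Prime := ⟨hp.1⟩
  have hd : p ∣ 4 * r ^ 3 + 27 * s ^ 2 := by
    by_contra hd
    exact h ⟨hp.1, hp.2, hd⟩
  have h1 : 4 * (r : ZMod p) ^ 3 + 27 * (s : ZMod p) ^ 2 = 0 := by
    have h2 := (ZMod.natCast_eq_zero_iff _ _).2 hd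
    push_cast at h2
    exact h2
  obtain ⟨u, hu, hu'⟩ := s_sing_ex (two_ne_DefA hp.2) (three_ne_DefA hp.2) h1
  refine ⟨u.val, (ZMod.val_lt u).le, ?_, ?_⟩
  · rw [← ZMod.natCast_eq_natCast_iff]
    push_cast
    rw [ZMod.natCast_zmod_val, hu]
    ring
  · rw [← ZMod.natCast_eq_natCast_iff]
    push_cast
    rw [ZMod.natCast_zmod_val, hu']

private theorem sing_val_DefA {p : ℕ} (hp : Good p) {r s u : ℕ}
    (hr : r + 3 * u ^ 2 ≡ 0 [MOD p]) (hs : s ≡ 2 * u ^ 3 [MOD p]) :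
    QN p s r 0 1 0 = p + 1 - SN p (3 * u) := by
  have hF : Fact p.Prime := ⟨hp.1⟩
  have h5 := hp.2
  have hp2 : p ≠ 2 := by omega
  have h2 := two_ne_DefA hp.2
  have hr' : (r : ZMod p) = -3 * (u : ZMod p) ^ 2 := by
    rw [← ZMod.natCast_eq_natCast_iff] at hr
    push_cast at hr
    linear_combination hr
  have hs' : (s : ZMod p) = 2 * (u : ZMod p) ^ 3 := by
    rw [← ZMod.natCast_eq_natCast_iff] at hs
    push_cast at hs
    exact hs
  have hq := qn_eq (p := p) hp2 s r 0 1 0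
  rw [Nat.cast_zero, Nat.cast_one, hr', hs', s_sing h2] at hq
  have hn := sn_eq (p := p) hp2 (3 * u)
  push_cast at hn
  omega

private theorem reg_val_DefA {p r s : ℕ} :
    QN p s r 0 1 0 = #{z ∈ range p ×ˢ range p | z.2 ^ 2 ≡ z.1 ^ 3 + r * z.1 + s [MOD p]} := by
  unfold QN
  congr 1
  refine filter_congr fun z _ => ?_
  have h : q4 s r 0 1 0 z.1 = z.1 ^ 3 + r * z.1 + s := by
    unfold q4
    ring
  rw [h]

theorem good_def {n : ℕ} {f : (Fin n → ℕ) → ℕ} (hf : DFun n f) :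
    Delta0 n (fun v => Good (f v)) :=
  (delta_prime hf).and (Delta0.leFun (DFun.const 5) hf)

open scoped Classical in
theorem quad_def : DFun 4 (fun v => if Good (v 0) then QN (v 0) (v 1) (v 2) (v 3) 0 0 else 0) := by
  have hp : DFun 4 (fun v => v 0) := DFun.proj 0
  have ha : DFun 4 (fun v => v 1) := DFun.proj 1
  have hb : DFun 4 (fun v => v 2) := DFun.proj 2
  have hc : DFun 4 (fun v => v 3) := DFun.proj 3
  have h0 : DFun 4 (fun _ => 0) := DFun.const 0
  have h1 := DFun.ite (delta_mod_DefA hc h0 hp)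
    (DFun.ite (delta_mod_DefA hb h0 hp) (hp.mul (sn_comp_DefA hp ha)) hp)
    (DFun.ite (delta_mod_DefA (DFun.powConst hb 2) (((DFun.const 4).mul ha).mul hc) hp)
      ((DFun.const 1).add ((hp.sub (DFun.const 1)).mul (sn_comp_DefA hp hc)))
      ((hp.add (DFun.const 1)).sub (sn_comp_DefA hp hc)))
  refine dfun_congr (DFun.ite (good_def hp) h1 h0) fun v => ?_
  by_cases hg : Good (v 0)
  · rw [if_pos hg, if_pos hg, quad_val_DefA hg]
    simp only [if_pos hg.1]
  · rw [if_neg hg, if_neg hg]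

open scoped Classical in
theorem dep_def : DFun 3 (fun v => if Good (v 0) then QN (v 0) (v 2) (v 1) 0 1 0 else 0) := by
  refine DFun.ofGraph (b := fun v => v 0 * v 0) ((DFun.proj 0).mul (DFun.proj 0)) (fun v => ?_) ?_
  · split_ifs
    · unfold QN
      refine (card_filter_le _ _).trans ?_
      rw [card_product, card_range]
    · exact Nat.zero_le _
  · have hV : Delta0 4 (fun w => Valid (w 1) (w 2) (w 3)) :=
      delta_valid (DFun.proj 1) (DFun.proj 2) (DFun.proj 3)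
    have hG : Delta0 4 (fun w => Good (w 1)) := good_def (DFun.proj 1)
    have h1 := ec_count.graph
    have h3 : Delta0 5 (fun w => (w 3 + 3 * w 0 ^ 2 ≡ 0 [MOD w 2] ∧
        w 4 ≡ 2 * w 0 ^ 3 [MOD w 2]) ∧
        w 1 = w 2 + 1 - (if (w 2).Prime then SN (w 2) (3 * w 0) else 0)) :=
      ((delta_mod_DefA ((DFun.proj 3).add ((DFun.const 3).mul (DFun.powConst (DFun.proj 0) 2)))
        (DFun.const 0) (DFun.proj 2)).and
        (delta_mod_DefA (DFun.proj 4) ((DFun.const 2).mul (DFun.powConst (DFun.proj 0) 3))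
          (DFun.proj 2))).and
      (Delta0.eqFun (DFun.proj 1) (((DFun.proj 2).add (DFun.const 1)).sub
        (sn_comp_DefA (DFun.proj 2) ((DFun.const 3).mul (DFun.proj 0)))))
    have h2 := Delta0.bexFun (n := 4) (b := fun w => w 1) (P := fun u w =>
      (w 2 + 3 * u ^ 2 ≡ 0 [MOD w 1] ∧ w 3 ≡ 2 * u ^ 3 [MOD w 1]) ∧
        w 0 = w 1 + 1 - (if (w 1).Prime then SN (w 1) (3 * u) else 0)) (DFun.proj 1) h3
    refine ((hV.and h1).or ((hV.not.and (hG.and h2)).or
      (hG.not.and (Delta0.eqFun (DFun.proj 0) (DFun.const 0))))).of_iff fun w => ?_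
    change (w 0 = if Good (w 1) then QN (w 1) (w 3) (w 2) 0 1 0 else 0) ↔
      (Valid (w 1) (w 2) (w 3) ∧ w 0 = if Valid (w 1) (w 2) (w 3) then
        #{z ∈ range (w 1) ×ˢ range (w 1) | z.2 ^ 2 ≡ z.1 ^ 3 + w 2 * z.1 + w 3 [MOD w 1]} else 0) ∨
      (¬ Valid (w 1) (w 2) (w 3) ∧ Good (w 1) ∧ ∃ u, u ≤ w 1 ∧
        ((w 2 + 3 * u ^ 2 ≡ 0 [MOD w 1] ∧ w 3 ≡ 2 * u ^ 3 [MOD w 1]) ∧
        w 0 = w 1 + 1 - (if (w 1).Prime then SN (w 1) (3 * u) else 0))) ∨
      (¬ Good (w 1) ∧ w 0 = 0)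
    by_cases hg : Good (w 1)
    · rw [if_pos hg]
      by_cases hv : Valid (w 1) (w 2) (w 3)
      · rw [if_pos hv, ← reg_val_DefA]
        constructor
        · exact fun h => Or.inl ⟨hv, h⟩
        · rintro (h | h | h)
          · exact h.2
          · exact absurd hv h.1
          · exact absurd hg h.1
      · constructor
        · intro h
          refine Or.inr (Or.inl ⟨hv, hg, ?_⟩)
          obtain ⟨u, hu, hu1, hu2⟩ := sing_ex_DefA hg hv
          refine ⟨u, hu, ⟨hu1, hu2⟩, ?_⟩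
          rw [if_pos hg.1, h]
          exact sing_val_DefA hg hu1 hu2
        · rintro (h | ⟨_, _, u, _, ⟨hu1, hu2⟩, h⟩ | h)
          · exact absurd h.1 hv
          · rw [if_pos hg.1] at h
            rw [h]
            exact (sing_val_DefA hg hu1 hu2).symm
          · exact absurd hg h.1
    · rw [if_neg hg]
      constructor
      · exact fun h => Or.inr (Or.inr ⟨hg, h⟩)
      · rintro (h | h | h)
        · exact absurd ⟨h.1.1, h.1.2⟩ hg
        · exact absurd h.2.1 hg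
        · exact h.2

end Pool.Agent.PtC
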