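import Pool.Agent.PtC.DefA

/-!
# Package PtC-DefB: cubic polynomials

*`inv_def`*: for a prime `p` and `a ≢ 0` the inverse of `a` modulo `p` as a number `< p`:
`DFun.ofGraph` (bound `p`): `b = ((a : ZMod p)⁻¹).val` iff (`a ≡ 0` and `b = 0`) or (`b < p` and
`a b ≡ 1`). ∎

*`cubic_def`* (`p, a, b, c, d`; `y ^ 2 = a + b x + c x ^ 2 + d x ^ 3`): for a good `p`: if `d ≡ 0` the
value is `QN p a b c 0 0` (`quad_def`, `qn_congr`). Else let (as numbers)
`r = (3 b d + (p - 1) c ^ 2) * i3`, `s = (27 a d ^ 2 + 9 (p - 1) b c d + 2 c ^ 3) * i27` with `i3`,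
`i27` the inverses of `3`, `27` modulo `p` (`inv_def`, `DFun.comp2`-like): then
`QN p a b c d 0 = QN p s r 0 1 0` by `qn_eq` and `s_cubic` (casts: `(p - 1 : ZMod p) = -1`), and
`dep_def` with `DFun.comp`. ∎

Difficulty: 1.0 h.
-/

set_option autoImplicit false

namespace Pool.Agent.PtC

open Finset Pool.Agent.Grz Pool.Agent.GAvg Pool.Agent.PTr Pool.Agent.MTr Pool.Agent.LPC
  Pool.Agent.ECD

private theorem defB_inv_iff {p : ℕ} (hp : p.Prime) (a b : ℕ) :
    b = ((a : ZMod p)⁻¹).val ↔ (p ∣ a ∧ b = 0) ∨ (b < p ∧ a * b % p = 1) := by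
  haveI : Fact p.Prime := ⟨hp⟩
  have h1p : 1 % p = 1 := Nat.mod_eq_of_lt hp.one_lt
  constructor
  · rintro rfl
    by_cases h : p ∣ a
    · left
      refine ⟨h, ?_⟩
      have : (a : ZMod p) = 0 := (ZMod.natCast_eq_zero_iff a p).mpr h
      rw [this, inv_zero, ZMod.val_zero]
    · right
      refine ⟨ZMod.val_lt _, ?_⟩
      have h0 : (a : ZMod p) ≠ 0 := fun h' => h ((ZMod.natCast_eq_zero_iff a p).mp h')
      have h2 : ((a * ((a : ZMod p)⁻¹).val : ℕ) : ZMod p) = ((1 : ℕ) : ZMod p) := by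
        push_cast
        rw [ZMod.natCast_zmod_val, mul_inv_cancel₀ h0]
      have h3 := (ZMod.natCast_eq_natCast_iff _ _ p).mp h2
      unfold Nat.ModEq at h3
      rw [h3, h1p]
  · rintro (⟨h, rfl⟩ | ⟨hb, h⟩)
    · have : (a : ZMod p) = 0 := (ZMod.natCast_eq_zero_iff a p).mpr h
      rw [this, inv_zero, ZMod.val_zero]
    · have h3 : a * b ≡ 1 [MOD p] := by
        unfold Nat.ModEq
        rw [h, h1p]
      have h2 := (ZMod.natCast_eq_natCast_iff _ _ p).mpr h3
      push_cast at h2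
      have h4 : (b : ZMod p) = (a : ZMod p)⁻¹ := eq_inv_of_mul_eq_one_right h2
      rw [← h4, ZMod.val_natCast, Nat.mod_eq_of_lt hb]

open scoped Classical in
theorem inv_def :
    DFun 2 (fun v => if (v 0).Prime then ((v 1 : ZMod (v 0))⁻¹).val else 0) := by
  refine DFun.ofGraph (b := fun v => v 0) (DFun.proj 0) ?_ ?_
  · intro v
    by_cases h : (v 0).Prime
    · rw [if_pos h]
      haveI : Fact (v 0).Prime := ⟨h⟩
      exact (ZMod.val_lt _).le
    · rw [if_neg h]
      exact Nat.zero_le _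
  · have p0 := DFun.proj (n := 3) 0
    have p1 := DFun.proj (n := 3) 1
    have p2 := DFun.proj (n := 3) 2
    have hP := delta_prime p1
    have h1 := (delta_dvd p1 p2).and (Delta0.eqFun p0 (DFun.const 0))
    have h2 := (Delta0.ltFun p0 p1).and
      (Delta0.eqFun (DFun.modAny (p2.mul p0) p1) (DFun.const 1))
    refine ((hP.and (h1.or h2)).or (hP.not.and (Delta0.eqFun p0 (DFun.const 0)))).of_iff ?_
    intro w
    have e1 : (Fin.succ (0 : Fin 2) : Fin 3) = 1 := rfl
    have e2 : (Fin.succ (1 : Fin 2) : Fin 3) = 2 := rfl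
    simp only [e1, e2]
    by_cases h : (w 1).Prime
    · rw [if_pos h, defB_inv_iff h]
      tauto
    · rw [if_neg h]
      tauto

private theorem defB_i (k : ℕ) :
    DFun 5 (fun v => if (v 0).Prime then ((k : ZMod (v 0))⁻¹).val else 0) := by
  classical
  have h := inv_def.comp (n := 5) (h := ![fun v => v 0, fun _ => k]) (by
    intro i
    fin_cases i
    · exact DFun.proj 0
    · exact DFun.const k)
  refine dfun_congr h fun v => ?_
  simp only [Matrix.cons_val_zero, Matrix.cons_val_one]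
  by_cases h : (v 0).Prime
  · rw [if_pos h, if_pos h]
    rfl
  · rw [if_neg h, if_neg h]

private theorem defB_key {p : ℕ} (hp : Good p) (a b c d : ℕ) (hd : ¬ p ∣ d) (i3 i27 : ℕ)
    (h3 : (i3 : ZMod p) = (3 : ZMod p)⁻¹) (h27 : (i27 : ZMod p) = (27 : ZMod p)⁻¹) :
    QN p a b c d 0 = QN p ((27 * a * d ^ 2 + 9 * (p - 1) * b * c * d + 2 * c ^ 3) * i27)
      ((3 * b * d + (p - 1) * c ^ 2) * i3) 0 1 0 := by
  obtain ⟨hpp, hp5⟩ := hp
  haveI : Fact p.Prime := ⟨hpp⟩
  have hp2 : p ≠ 2 := by omega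
  have h30 : (3 : ZMod p) ≠ 0 := by
    intro h
    have h' : ((3 : ℕ) : ZMod p) = 0 := by exact_mod_cast h
    have := (ZMod.natCast_eq_zero_iff 3 p).mp h'
    have := Nat.le_of_dvd (by norm_num) this
    omega
  have h270 : (27 : ZMod p) ≠ 0 := by
    have : (27 : ZMod p) = 3 ^ 3 := by norm_num
    rw [this]
    exact pow_ne_zero 3 h30
  have hd0 : (d : ZMod p) ≠ 0 := fun h => hd ((ZMod.natCast_eq_zero_iff d p).mp h)
  have hp1 : ((p - 1 : ℕ) : ZMod p) = -1 := by
    rw [Nat.cast_sub hpp.one_lt.le, ZMod.natCast_self]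
    simp
  have e : S4 (a : ZMod p) b c d ((0 : ℕ) : ZMod p)
      = S4 (((27 * a * d ^ 2 + 9 * (p - 1) * b * c * d + 2 * c ^ 3) * i27 : ℕ) : ZMod p)
        (((3 * b * d + (p - 1) * c ^ 2) * i3 : ℕ) : ZMod p) ((0 : ℕ) : ZMod p)
        ((1 : ℕ) : ZMod p) ((0 : ℕ) : ZMod p) := by
    rw [Nat.cast_zero, Nat.cast_one]
    refine s_cubic h30 hd0 ?_ ?_
    · push_cast
      rw [hp1, h3]
      field_simp
      ring
    · push_cast
      rw [hp1, h27]
      field_simp
      ring
  have q1 := qn_eq hp2 a b c d 0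
  have q2 := qn_eq hp2 ((27 * a * d ^ 2 + 9 * (p - 1) * b * c * d + 2 * c ^ 3) * i27)
      ((3 * b * d + (p - 1) * c ^ 2) * i3) 0 1 0
  rw [← e, ← q1] at q2
  exact_mod_cast q2.symm

open scoped Classical in
theorem cubic_def :
    DFun 5 (fun v => if Good (v 0) then QN (v 0) (v 1) (v 2) (v 3) (v 4) 0 else 0) := by
  have p0 := DFun.proj (n := 5) 0
  have p1 := DFun.proj (n := 5) 1
  have p2 := DFun.proj (n := 5) 2
  have p3 := DFun.proj (n := 5) 3
  have p4 := DFun.proj (n := 5) 4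
  have hm := p0.sub (DFun.const 1)
  have i3 := defB_i 3
  have i27 := defB_i 27
  have hr := ((((DFun.const 3).mul p2).mul p4).add (hm.mul (p3.mul p3))).mul i3
  have hs := (((((DFun.const 27).mul p1).mul (p4.mul p4)).add
    (((((DFun.const 9).mul hm).mul p2).mul p3).mul p4)).add
    ((DFun.const 2).mul (p3.mul (p3.mul p3)))).mul i27
  have g1 := quad_def.comp (n := 5) (h := ![fun v => v 0, fun v => v 1, fun v => v 2,
      fun v => v 3]) (by
    intro i
    fin_cases i
    · exact p0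
    · exact p1
    · exact p2
    · exact p3)
  have g2 := dep_def.comp (n := 5) (h := ![fun v => v 0, _, _]) (by
    intro i
    fin_cases i
    · exact p0
    · exact hr
    · exact hs)
  refine dfun_congr (DFun.ite (delta_dvd p0 p4) g1 g2) fun v => ?_
  simp only [Matrix.cons_val_zero, Matrix.cons_val_one, Matrix.cons_val]
  by_cases hg : Good (v 0)
  · rw [if_pos hg]
    by_cases hd : v 0 ∣ v 4
    · rw [if_pos hd, if_pos hg]
      exact qn_congr rfl rfl rfl ((Nat.modEq_zero_iff_dvd).mpr hd) rfl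
    · rw [if_neg hd, if_pos hg]
      haveI : Fact (v 0).Prime := ⟨hg.1⟩
      rw [defB_key hg (v 1) (v 2) (v 3) (v 4) hd _ _
        (ZMod.natCast_zmod_val ((3 : ZMod (v 0))⁻¹))
        (ZMod.natCast_zmod_val ((27 : ZMod (v 0))⁻¹))]
      rw [if_pos hg.1, if_pos hg.1]
      congr 1
      · push_cast
        ring
      · push_cast
        ring
  · rw [if_neg hg]
    by_cases hd : v 0 ∣ v 4
    · rw [if_pos hd, if_neg hg]
    · rw [if_neg hd, if_neg hg]

end Pool.Agent.PtC
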