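import Pool.Agent.PtC.Defs

/-!
# Package PtC-SumC: shift and reversal

*`s_shift`*: `x ↦ x + t` (`Equiv.addRight`, `Equiv.sum_comp`) and `ring`. *`s_rev`*: without the term
of `x = 0` the two sums agree: `x ↦ x⁻¹`, `q4 a b c d e x = x ^ 4 * q4 e d c b a x⁻¹` and
`χ(x ^ 4) = 1` for `x ≠ 0`. ∎

Difficulty: 0.7 h.
-/

set_option autoImplicit false

namespace Pool.Agent.PtC

open Finset

variable {F : Type*} [Field F] [Fintype F] [DecidableEq F]

theorem s_shift (a b c d e t : F) : S4 a b c d e = S4 (q4 a b c d e t)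
    (b + 2 * c * t + 3 * d * t ^ 2 + 4 * e * t ^ 3) (c + 3 * d * t + 6 * e * t ^ 2)
    (d + 4 * e * t) e := by
  unfold S4
  rw [← Equiv.sum_comp (Equiv.addRight t) fun x => quadraticChar F (q4 a b c d e x)]
  refine Finset.sum_congr rfl fun x _ => ?_
  congr 1
  show q4 a b c d e (x + t) = _
  unfold q4
  ring

private theorem SumC_term (a b c d e : F) {x : F} (hx : x ≠ 0) :
    quadraticChar F (q4 a b c d e x) = quadraticChar F (q4 e d c b a x⁻¹) := by
  have h1 : q4 a b c d e x = (x ^ 2) ^ 2 * q4 e d c b a x⁻¹ := by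
    unfold q4
    field_simp
    ring
  have h2 : quadraticChar F ((x ^ 2) ^ 2) = 1 :=
    quadraticChar_sq_one' (pow_ne_zero 2 hx)
  rw [h1, map_mul, h2, one_mul]

private theorem SumC_erase (a b c d e : F) : S4 a b c d e - quadraticChar F a =
    ∑ x ∈ univ.erase (0 : F), quadraticChar F (q4 a b c d e x) := by
  have h0 : q4 a b c d e (0 : F) = a := by
    unfold q4
    ring
  rw [Finset.sum_erase_eq_sub (mem_univ (0 : F)), h0]
  rfl

theorem s_rev (a b c d e : F) :
    S4 a b c d e - quadraticChar F a = S4 e d c b a - quadraticChar F e := by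
  rw [SumC_erase, SumC_erase]
  refine Finset.sum_nbij' (fun x => x⁻¹) (fun x => x⁻¹) ?_ ?_ ?_ ?_ ?_
  · intro x hx
    exact mem_erase.2 ⟨inv_ne_zero (mem_erase.1 hx).1, mem_univ _⟩
  · intro x hx
    exact mem_erase.2 ⟨inv_ne_zero (mem_erase.1 hx).1, mem_univ _⟩
  · intro x _
    exact inv_inv x
  · intro x _
    exact inv_inv x
  · intro x hx
    exact SumC_term a b c d e (mem_erase.1 hx).1

end Pool.Agent.PtC
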