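import Pool.Agent.PtC.Defs

/-!
# Package PtC-SumD: quartic polynomials with a square leading coefficient

`f = g ^ 2 - h`, `g = q x ^ 2 + β x + γ`, `h = δ x + ε`, `q ≠ 0`; `χ = quadraticChar F`, `N = |F|`.

*`s_sq`*. Count the set `Z` of the pairs `(x, w)` with `w ^ 2 - 2 g(x) w + h(x) = 0` in two ways.

(1) For fixed `x` put `y = w - g(x)`: `y ^ 2 = g(x) ^ 2 - h(x) = f(x)`; so
`|Z| = ∑_x (1 + χ(f(x))) = N + S4 f` (`quadraticChar_card_sqrts`).

(2) For fixed `w ≠ 0` the equation is quadratic in `x`: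
`2 q w x ^ 2 + (2 β w + δ) x + (2 γ w - w ^ 2 - ε) = 0` up to the sign of the terms of `h`;
precisely
`2 g(x) w - w ^ 2 - h(x) = 2 q w x ^ 2 + (2 β w - δ) x + (2 γ w - w ^ 2 - ε)`, and it has
`1 + χ(D(w))` solutions, `D(w) = (2 β w - δ) ^ 2 - 8 q w (2 γ w - w ^ 2 - ε)
= δ ^ 2 + (8 q ε - 4 β δ) w + (4 β ^ 2 - 16 q γ) w ^ 2 + 8 q w ^ 3`
(multiply by `8 q w`: `(4 q w x + 2 β w - δ) ^ 2 = D(w)`). For `w = 0` it has as many solutions as
`δ x + ε = 0`. So `|Z| = (N - 1) + (S4 D - χ(δ ^ 2)) + #{x | δ x + ε = 0}`.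

If `δ ≠ 0`: `χ(δ ^ 2) = 1` and one `x`; if `δ = 0`: `χ(0) = 0`, and no `x` (`ε ≠ 0`) or `N` of them
(`ε = 0`). Compare. ∎ (Checked by machine for the primes up to 13.)

Difficulty: 1.3 h.
-/

set_option autoImplicit false

namespace Pool.Agent.PtC

open Finset

variable {F : Type*} [Field F] [Fintype F] [DecidableEq F]

private theorem sum_sq (h2 : (2 : F) ≠ 0) (a : F) :
    ∑ y : F, (if y ^ 2 = a then (1 : ℤ) else 0) = quadraticChar F a + 1 := by
  have hF : ringChar F ≠ 2 := by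
    intro h
    apply h2
    have h3 := (ringChar.spec F 2).2 (by rw [h])
    exact_mod_cast h3
  rw [← quadraticChar_card_sqrts hF a, sum_boole]
  congr 2
  ext y
  simp

private theorem sum_lin (δ ε : F) :
    ∑ x : F, (if δ * x + ε = 0 then (1 : ℤ) else 0) =
      quadraticChar F (δ ^ 2) + (if δ = 0 ∧ ε = 0 then (Fintype.card F : ℤ) else 0) := by
  by_cases hδ : δ = 0
  · subst hδ
    by_cases hε : ε = 0
    · subst hε
      simp
    · simp [hε]
  · rw [quadraticChar_sq_one' hδ, if_neg (fun h => hδ h.1), add_zero]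
    have h1 : ∀ x : F, (if δ * x + ε = 0 then (1 : ℤ) else 0) = if x = -ε / δ then 1 else 0 := by
      intro x
      have h3 : δ * x + ε = 0 ↔ x = -ε / δ := by
        rw [eq_div_iff hδ]
        constructor
        · intro h
          linear_combination h
        · intro h
          linear_combination h
      simp only [h3]
    simp only [h1]
    simp

theorem s_sq (h2 : (2 : F) ≠ 0) {q β γ δ ε : F} (hq : q ≠ 0) :
    S4 (γ ^ 2 - ε) (2 * β * γ - δ) (β ^ 2 + 2 * q * γ) (2 * q * β) (q ^ 2) =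
      S4 (δ ^ 2) (8 * q * ε - 4 * β * δ) (4 * β ^ 2 - 16 * q * γ) (8 * q) 0 - 1 +
        (if δ = 0 ∧ ε = 0 then (Fintype.card F : ℤ) else 0) := by
  set I : F → F → ℤ := fun x w =>
    if w ^ 2 - 2 * (q * x ^ 2 + β * x + γ) * w + (δ * x + ε) = 0 then 1 else 0 with hI
  have hx : ∀ x : F, ∑ w : F, I x w = quadraticChar F
      (q4 (γ ^ 2 - ε) (2 * β * γ - δ) (β ^ 2 + 2 * q * γ) (2 * q * β) (q ^ 2) x) + 1 := by
    intro x
    rw [← sum_sq h2]
    refine Fintype.sum_equiv (Equiv.subRight (q * x ^ 2 + β * x + γ)) _ _ fun w => ?_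
    have h3 : w ^ 2 - 2 * (q * x ^ 2 + β * x + γ) * w + (δ * x + ε) = 0 ↔
        (Equiv.subRight (q * x ^ 2 + β * x + γ) w) ^ 2 =
          q4 (γ ^ 2 - ε) (2 * β * γ - δ) (β ^ 2 + 2 * q * γ) (2 * q * β) (q ^ 2) x := by
      rw [Equiv.subRight_apply]
      unfold q4
      constructor
      · intro h
        linear_combination h
      · intro h
        linear_combination h
    simp only [hI, h3]
  have hw : ∀ w : F, w ≠ 0 → ∑ x : F, I x w = quadraticChar F
      (q4 (δ ^ 2) (8 * q * ε - 4 * β * δ) (4 * β ^ 2 - 16 * q * γ) (8 * q) 0 w) + 1 := by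
    intro w hw0
    rw [← sum_sq h2]
    have hA : (4 : F) * q * w ≠ 0 := by
      have h4 : (4 : F) ≠ 0 := by
        have : (4 : F) = 2 * 2 := by norm_num
        rw [this]
        exact mul_ne_zero h2 h2
      exact mul_ne_zero (mul_ne_zero h4 hq) hw0
    refine Fintype.sum_equiv ((Equiv.mulLeft₀ (4 * q * w) hA).trans
      (Equiv.addRight (2 * β * w - δ))) _ _ fun x => ?_
    have h3 : w ^ 2 - 2 * (q * x ^ 2 + β * x + γ) * w + (δ * x + ε) = 0 ↔
        (((Equiv.mulLeft₀ (4 * q * w) hA).trans (Equiv.addRight (2 * β * w - δ))) x) ^ 2 =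
          q4 (δ ^ 2) (8 * q * ε - 4 * β * δ) (4 * β ^ 2 - 16 * q * γ) (8 * q) 0 w := by
      have h5 : ((Equiv.mulLeft₀ (4 * q * w) hA).trans (Equiv.addRight (2 * β * w - δ))) x =
          4 * q * w * x + (2 * β * w - δ) := rfl
      rw [h5]
      unfold q4
      constructor
      · intro h
        linear_combination (-8 * q * w) * h
      · intro h
        have h6 : (2 * (4 * q * w)) *
            (w ^ 2 - 2 * (q * x ^ 2 + β * x + γ) * w + (δ * x + ε)) = 0 := by
          linear_combination (-1 : F) * h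
        exact (mul_eq_zero.1 h6).resolve_left (mul_ne_zero h2 hA)
    simp only [hI, h3]
  have hw0 : ∑ x : F, I x 0 = quadraticChar F (δ ^ 2) +
      (if δ = 0 ∧ ε = 0 then (Fintype.card F : ℤ) else 0) := by
    rw [← sum_lin]
    refine sum_congr rfl fun x _ => ?_
    have h3 : (0 : F) ^ 2 - 2 * (q * x ^ 2 + β * x + γ) * 0 + (δ * x + ε) = δ * x + ε := by ring
    simp only [hI, h3]
  have hD0 : q4 (δ ^ 2) (8 * q * ε - 4 * β * δ) (4 * β ^ 2 - 16 * q * γ) (8 * q) 0 0 =
      δ ^ 2 := by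
    unfold q4
    ring
  have hall : ∀ w : F, ∑ x : F, I x w = (quadraticChar F
      (q4 (δ ^ 2) (8 * q * ε - 4 * β * δ) (4 * β ^ 2 - 16 * q * γ) (8 * q) 0 w) + 1) +
        (if w = 0 then ((if δ = 0 ∧ ε = 0 then (Fintype.card F : ℤ) else 0) - 1) else 0) := by
    intro w
    by_cases h : w = 0
    · subst h
      rw [hw0, hD0, if_pos rfl]
      ring
    · rw [hw w h, if_neg h, add_zero]
  have hmain : ∑ x : F, ∑ w : F, I x w = ∑ w : F, ∑ x : F, I x w := sum_comm
  simp only [hx, hall, sum_add_distrib] at hmain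
  rw [sum_ite_eq' univ (0 : F), if_pos (mem_univ _)] at hmain
  unfold S4
  linarith

end Pool.Agent.PtC
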