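import Pool.Agent.PtC.DefB
import Pool.Agent.PtC.SumC
import Pool.Agent.PtC.SumD

/-!
# Package PtC-DefC: quartic polynomials

*`lead_sq`* (an auxiliary function): for a good `p` and numbers `a, b, c, d, q` with `q ≢ 0` modulo
`p`, the number `QN p a b c d (q ^ 2)` is `DFun` of `(p, a, b, c, d, q)`. Let `i` be the inverse of
`2 q` modulo `p`, `β = d i`, `γ = (c + (p - 1) β ^ 2) i`, `δ = 2 β γ + (p - 1) b`,
`ε = γ ^ 2 + (p - 1) a` (natural numbers, reduce modulo `p` if you like): in `ZMod p`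
`a = γ ^ 2 - ε`, `b = 2 β γ - δ`, `c = β ^ 2 + 2 q γ`, `d = 2 q β`. By `s_sq`, `qn_eq`
`QN p a b c d (q ^ 2) + 1 = QN p (δ ^ 2) (8 q ε + 4 (p - 1) β δ) (4 β ^ 2 + 16 (p - 1) q γ) (8 q) 0
+ (p if δ ≡ ε ≡ 0)`; use `cubic_def`, `DFun.sub`.

*`quart_def`* (`y ^ 2 = a + b x + c x ^ 2 + d x ^ 3 + e x ^ 4`), good `p`. If there is no solution:
`0`. Else let `x0, y0 < p` be a solution (`DFun.ofGraph` with the bound `p ^ 2` or `2 p`;
`Delta0.bexFun` twice), `b1 = b + 2 c x0 + 3 d x0 ^ 2 + 4 e x0 ^ 3`, `c1 = c + 3 d x0 + 6 e x0 ^ 2`,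
`d1 = d + 4 e x0`. By `s_shift`, `s_rev` (with `q4 … x0 = y0 ^ 2` in `ZMod p`) and `qn_eq`, `sn_eq`:
`QN p a b c d e + SN p e = QN p e d1 c1 b1 (y0 ^ 2) + SN p (y0 ^ 2)`. If `y0 ≡ 0` the right side is
given by `cubic_def`, `sn_def` (`qn_congr`), else by `lead_sq`, `sn_def`. ∎

Difficulty: 1.5 h.
-/

set_option autoImplicit false

namespace Pool.Agent.PtC

open Finset Pool.Agent.Grz Pool.Agent.GAvg Pool.Agent.PTr Pool.Agent.MTr Pool.Agent.LPC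
  Pool.Agent.ECD

private theorem DefC_pow {n : ℕ} {f : (Fin n → ℕ) → ℕ} (hf : DFun n f) (k : ℕ) :
    DFun n (fun v => f v ^ k) := by
  induction k with
  | zero => exact dfun_congr (DFun.const 1) fun v => pow_zero _
  | succ k ih => exact dfun_congr (ih.mul hf) fun v => pow_succ _ _

private theorem DefC_q4 {n : ℕ} {fa fb fc fd fe fx : (Fin n → ℕ) → ℕ} (ha : DFun n fa)
    (hb : DFun n fb) (hc : DFun n fc) (hd : DFun n fd) (he : DFun n fe) (hx : DFun n fx) :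
    DFun n (fun v => q4 (fa v) (fb v) (fc v) (fd v) (fe v) (fx v)) :=
  dfun_congr ((((ha.add (hb.mul hx)).add (hc.mul (DefC_pow hx 2))).add
    (hd.mul (DefC_pow hx 3))).add (he.mul (DefC_pow hx 4))) fun _ => rfl

open scoped Classical in
private noncomputable def DefC_cub (p a b c d : ℕ) : ℕ := if Good p then QN p a b c d 0 else 0

open scoped Classical in
private noncomputable def DefC_lead (p a b c d q : ℕ) : ℕ :=
  if Good p ∧ ¬ p ∣ q then QN p a b c d (q ^ 2) else 0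

open scoped Classical in
private noncomputable def DefC_sn (p a : ℕ) : ℕ := if p.Prime then SN p a else 0

open scoped Classical in
private noncomputable def DefC_inv (p a : ℕ) : ℕ :=
  if p.Prime then ((a : ZMod p)⁻¹).val else 0

private theorem DefC_cub_eq {p a b c d : ℕ} (h : Good p) :
    DefC_cub p a b c d = QN p a b c d 0 := by
  rw [DefC_cub, if_pos h]

private theorem DefC_lead_eq {p a b c d q : ℕ} (h : Good p) (hq : ¬ p ∣ q) :
    DefC_lead p a b c d q = QN p a b c d (q ^ 2) := by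
  rw [DefC_lead, if_pos ⟨h, hq⟩]

private theorem DefC_sn_eq {p a : ℕ} (h : p.Prime) : DefC_sn p a = SN p a := by
  rw [DefC_sn, if_pos h]

private theorem DefC_inv_eq {p a : ℕ} (h : p.Prime) (ha : ¬ p ∣ a) :
    ((DefC_inv p a : ℕ) : ZMod p) * a = 1 := by
  have : Fact p.Prime := ⟨h⟩
  rw [DefC_inv, if_pos h, ZMod.natCast_zmod_val]
  refine inv_mul_cancel₀ ?_
  rwa [Ne, ZMod.natCast_eq_zero_iff]

private theorem DefC_cub_def {n : ℕ} {f0 f1 f2 f3 f4 : (Fin n → ℕ) → ℕ} (h0 : DFun n f0)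
    (h1 : DFun n f1) (h2 : DFun n f2) (h3 : DFun n f3) (h4 : DFun n f4) :
    DFun n (fun v => DefC_cub (f0 v) (f1 v) (f2 v) (f3 v) (f4 v)) := by
  have h := cubic_def.comp (n := n) (h := ![f0, f1, f2, f3, f4]) (by
    intro i
    fin_cases i
    exacts [h0, h1, h2, h3, h4])
  exact dfun_congr h fun v => rfl

/-- the auxiliary numbers -/
private theorem DefC_val {p a b c d q i β γ δ ε : ℕ} (hp : Good p) (hq : ¬ p ∣ q)
    (hi : (i : ZMod p) * ((2 * q : ℕ) : ZMod p) = 1) (hβ : β = d * i)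
    (hγ : γ = (c + (p - 1) * β ^ 2) * i) (hδ : δ = 2 * β * γ + (p - 1) * b)
    (hε : ε = γ ^ 2 + (p - 1) * a) :
    QN p a b c d (q ^ 2) + 1 =
      QN p (δ ^ 2) (8 * q * ε + 4 * (p - 1) * β * δ) (4 * β ^ 2 + 16 * (p - 1) * q * γ)
        (8 * q) 0 + (if p ∣ δ ∧ p ∣ ε then p else 0) := by
  have : Fact p.Prime := ⟨hp.1⟩
  have hp5 := hp.2
  have hp2 : p ≠ 2 := by omega
  have h2 : (2 : ZMod p) ≠ 0 := by
    have h3 : ((2 : ℕ) : ZMod p) ≠ 0 := by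
      rw [Ne, ZMod.natCast_eq_zero_iff]
      intro h4
      have := Nat.le_of_dvd two_pos h4
      omega
    exact_mod_cast h3
  have hq' : (q : ZMod p) ≠ 0 := by rwa [Ne, ZMod.natCast_eq_zero_iff]
  have hm : ((p - 1 : ℕ) : ZMod p) = -1 := by
    rw [Nat.cast_sub hp.1.one_le, ZMod.natCast_self, Nat.cast_one, zero_sub]
  push_cast at hi
  have key := s_sq h2 (q := (q : ZMod p)) (β := (β : ZMod p)) (γ := (γ : ZMod p))
    (δ := (δ : ZMod p)) (ε := (ε : ZMod p)) hq'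
  have ea : (a : ZMod p) = (γ : ZMod p) ^ 2 - ε := by
    rw [hε]
    push_cast
    rw [hm]
    ring
  have eb : (b : ZMod p) = 2 * β * γ - δ := by
    rw [hδ]
    push_cast
    rw [hm]
    ring
  have ed : (d : ZMod p) = 2 * q * β := by
    rw [hβ]
    push_cast
    linear_combination (-(d : ZMod p)) * hi
  have ec : (c : ZMod p) = (β : ZMod p) ^ 2 + 2 * q * γ := by
    have h3 : (γ : ZMod p) = (c - (β : ZMod p) ^ 2) * i := by
      rw [hγ]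
      push_cast
      rw [hm]
      ring
    rw [h3]
    linear_combination (-((c : ZMod p) - (β : ZMod p) ^ 2)) * hi
  have e1 : ((δ ^ 2 : ℕ) : ZMod p) = (δ : ZMod p) ^ 2 := by push_cast; rfl
  have e2 : ((8 * q * ε + 4 * (p - 1) * β * δ : ℕ) : ZMod p) = 8 * q * ε - 4 * β * δ := by
    push_cast
    rw [hm]
    ring
  have e3 : ((4 * β ^ 2 + 16 * (p - 1) * q * γ : ℕ) : ZMod p) =
      4 * (β : ZMod p) ^ 2 - 16 * q * γ := by
    push_cast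
    rw [hm]
    ring
  have e4 : ((8 * q : ℕ) : ZMod p) = 8 * (q : ZMod p) := by push_cast; rfl
  have e5 : ((q ^ 2 : ℕ) : ZMod p) = (q : ZMod p) ^ 2 := by push_cast; rfl
  have q1 := qn_eq hp2 a b c d (q ^ 2)
  have q2 := qn_eq hp2 (δ ^ 2) (8 * q * ε + 4 * (p - 1) * β * δ)
    (4 * β ^ 2 + 16 * (p - 1) * q * γ) (8 * q) 0
  rw [e1, e2, e3, e4, Nat.cast_zero] at q2
  rw [e5, ea, eb, ec, ed, key, ZMod.card] at q1
  have h3 : ((δ : ZMod p) = 0 ∧ (ε : ZMod p) = 0) ↔ (p ∣ δ ∧ p ∣ ε) := by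
    rw [ZMod.natCast_eq_zero_iff, ZMod.natCast_eq_zero_iff]
  by_cases h4 : p ∣ δ ∧ p ∣ ε
  · rw [if_pos (h3.2 h4)] at q1
    rw [if_pos h4]
    omega
  · rw [if_neg (fun h5 => h4 (h3.1 h5))] at q1
    rw [if_neg h4]
    omega

private theorem DefC_val2 {p a b c d e x y : ℕ} (hp : Good p)
    (h : y ^ 2 ≡ q4 a b c d e x [MOD p]) :
    QN p a b c d e + SN p e =
      QN p e (d + 4 * e * x) (c + 3 * d * x + 6 * e * x ^ 2)
        (b + 2 * c * x + 3 * d * x ^ 2 + 4 * e * x ^ 3) (y ^ 2) + SN p (y ^ 2) := by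
  have : Fact p.Prime := ⟨hp.1⟩
  have hp5 := hp.2
  have hp2 : p ≠ 2 := by omega
  have h1 : ((y ^ 2 : ℕ) : ZMod p) = q4 (a : ZMod p) b c d e x := by
    rw [(ZMod.natCast_eq_natCast_iff _ _ _).2 h, q4, q4]
    push_cast
    rfl
  have k1 := s_shift (a : ZMod p) b c d e x
  rw [← h1] at k1
  have k2 := s_rev ((y ^ 2 : ℕ) : ZMod p) (b + 2 * c * x + 3 * d * x ^ 2 + 4 * e * x ^ 3)
    (c + 3 * d * x + 6 * e * x ^ 2) (d + 4 * e * x) (e : ZMod p)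
  have q1 := qn_eq hp2 a b c d e
  have q2 := qn_eq hp2 e (d + 4 * e * x) (c + 3 * d * x + 6 * e * x ^ 2)
    (b + 2 * c * x + 3 * d * x ^ 2 + 4 * e * x ^ 3) (y ^ 2)
  have q3 := sn_eq hp2 e
  have q4' := sn_eq hp2 (y ^ 2)
  have e1 : ((d + 4 * e * x : ℕ) : ZMod p) = d + 4 * e * x := by push_cast; rfl
  have e2 : ((c + 3 * d * x + 6 * e * x ^ 2 : ℕ) : ZMod p) =
      c + 3 * d * x + 6 * e * (x : ZMod p) ^ 2 := by push_cast; rfl
  have e3 : ((b + 2 * c * x + 3 * d * x ^ 2 + 4 * e * x ^ 3 : ℕ) : ZMod p) =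
      b + 2 * c * x + 3 * d * (x : ZMod p) ^ 2 + 4 * e * (x : ZMod p) ^ 3 := by push_cast; rfl
  rw [e1, e2, e3] at q2
  omega

open scoped Classical in
theorem lead_sq : DFun 6 (fun v => if Good (v 0) ∧ ¬ v 0 ∣ v 5 then
    QN (v 0) (v 1) (v 2) (v 3) (v 4) (v 5 ^ 2) else 0) := by
  have hp : DFun 6 (fun v => v 0) := DFun.proj 0
  have ha : DFun 6 (fun v => v 1) := DFun.proj 1
  have hb : DFun 6 (fun v => v 2) := DFun.proj 2
  have hc : DFun 6 (fun v => v 3) := DFun.proj 3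
  have hd : DFun 6 (fun v => v 4) := DFun.proj 4
  have hq : DFun 6 (fun v => v 5) := DFun.proj 5
  have hm : DFun 6 (fun v => v 0 - 1) := hp.sub (DFun.const 1)
  obtain ⟨i, hi, hi'⟩ : ∃ i : (Fin 6 → ℕ) → ℕ, DFun 6 i ∧ ∀ v, i v = DefC_inv (v 0) (2 * v 5) :=
    ⟨_, DFun.comp2 (g := DefC_inv) inv_def hp ((DFun.const 2).mul hq), fun v => rfl⟩
  obtain ⟨β, hβ, hβ'⟩ : ∃ β : (Fin 6 → ℕ) → ℕ, DFun 6 β ∧ ∀ v, β v = v 4 * i v :=
    ⟨_, hd.mul hi, fun v => rfl⟩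
  obtain ⟨γ, hγ, hγ'⟩ : ∃ γ : (Fin 6 → ℕ) → ℕ, DFun 6 γ ∧
      ∀ v, γ v = (v 3 + (v 0 - 1) * β v ^ 2) * i v :=
    ⟨_, (hc.add (hm.mul (DefC_pow hβ 2))).mul hi, fun v => rfl⟩
  obtain ⟨δ, hδ, hδ'⟩ : ∃ δ : (Fin 6 → ℕ) → ℕ, DFun 6 δ ∧
      ∀ v, δ v = 2 * β v * γ v + (v 0 - 1) * v 2 :=
    ⟨_, (((DFun.const 2).mul hβ).mul hγ).add (hm.mul hb), fun v => rfl⟩
  obtain ⟨ε, hε, hε'⟩ : ∃ ε : (Fin 6 → ℕ) → ℕ, DFun 6 ε ∧
      ∀ v, ε v = γ v ^ 2 + (v 0 - 1) * v 1 :=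
    ⟨_, (DefC_pow hγ 2).add (hm.mul ha), fun v => rfl⟩
  have h1 : DFun 6 (fun v => DefC_cub (v 0) (δ v ^ 2)
      (8 * v 5 * ε v + 4 * (v 0 - 1) * β v * δ v)
      (4 * β v ^ 2 + 16 * (v 0 - 1) * v 5 * γ v) (8 * v 5)) :=
    DefC_cub_def hp (DefC_pow hδ 2)
      ((((DFun.const 8).mul hq).mul hε).add ((((DFun.const 4).mul hm).mul hβ).mul hδ))
      (((DFun.const 4).mul (DefC_pow hβ 2)).add ((((DFun.const 16).mul hm).mul hq).mul hγ))
      ((DFun.const 8).mul hq)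
  have h2 : DFun 6 (fun v => if v 0 ∣ δ v ∧ v 0 ∣ ε v then v 0 else 0) :=
    DFun.ite ((delta_dvd hp hδ).and (delta_dvd hp hε)) hp (DFun.const 0)
  have h3 : Delta0 6 (fun v => Good (v 0) ∧ ¬ v 0 ∣ v 5) :=
    (good_def hp).and (delta_dvd hp hq).not
  refine dfun_congr (DFun.ite h3 ((h1.add h2).sub (DFun.const 1)) (DFun.const 0)) fun v => ?_
  by_cases hv : Good (v 0) ∧ ¬ v 0 ∣ v 5
  · have h4 : ¬ v 0 ∣ 2 * v 5 := by
      rw [hv.1.1.dvd_mul, not_or]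
      refine ⟨fun h5 => ?_, hv.2⟩
      have h6 := Nat.le_of_dvd two_pos h5
      have := hv.1.2
      omega
    have h5 := DefC_inv_eq hv.1.1 h4
    rw [← hi' v] at h5
    have h6 := DefC_val (a := v 1) (b := v 2) hv.1 hv.2 h5 (hβ' v) (hγ' v) (hδ' v) (hε' v)
    rw [if_pos hv, if_pos hv, DefC_cub_eq hv.1]
    by_cases h7 : v 0 ∣ δ v ∧ v 0 ∣ ε v
    · rw [if_pos h7] at h6 ⊢
      omega
    · rw [if_neg h7] at h6 ⊢
      omega
  · rw [if_neg hv, if_neg hv]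

private theorem DefC_lead_def {n : ℕ} {f0 f1 f2 f3 f4 f5 : (Fin n → ℕ) → ℕ} (h0 : DFun n f0)
    (h1 : DFun n f1) (h2 : DFun n f2) (h3 : DFun n f3) (h4 : DFun n f4) (h5 : DFun n f5) :
    DFun n (fun v => DefC_lead (f0 v) (f1 v) (f2 v) (f3 v) (f4 v) (f5 v)) := by
  have h := lead_sq.comp (n := n) (h := ![f0, f1, f2, f3, f4, f5]) (by
    intro i
    fin_cases i
    exacts [h0, h1, h2, h3, h4, h5])
  exact dfun_congr h fun v => rfl

open scoped Classical in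
/-- the value in terms of a solution -/
private noncomputable def DefC_G (p _a b c d e x y : ℕ) : ℕ :=
  (if p ∣ y then DefC_cub p e (d + 4 * e * x) (c + 3 * d * x + 6 * e * x ^ 2)
      (b + 2 * c * x + 3 * d * x ^ 2 + 4 * e * x ^ 3)
    else DefC_lead p e (d + 4 * e * x) (c + 3 * d * x + 6 * e * x ^ 2)
      (b + 2 * c * x + 3 * d * x ^ 2 + 4 * e * x ^ 3) y) + DefC_sn p (y ^ 2) - DefC_sn p e

private theorem DefC_G_eq {p a b c d e x y : ℕ} (hp : Good p)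
    (h : y ^ 2 ≡ q4 a b c d e x [MOD p]) : DefC_G p a b c d e x y = QN p a b c d e := by
  have h1 := DefC_val2 hp h
  rw [DefC_G, DefC_sn_eq hp.1, DefC_sn_eq hp.1]
  by_cases hy : p ∣ y
  · have h2 : y ^ 2 ≡ 0 [MOD p] := (Nat.modEq_zero_iff_dvd).2 (dvd_pow hy two_ne_zero)
    rw [if_pos hy, DefC_cub_eq hp]
    rw [qn_congr (Nat.ModEq.refl e) (Nat.ModEq.refl _) (Nat.ModEq.refl _) (Nat.ModEq.refl _)
      h2] at h1
    omega
  · rw [if_neg hy, DefC_lead_eq hp hy]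
    omega

private theorem DefC_G_def {n : ℕ} {fp fa fb fc fd fe fx fy : (Fin n → ℕ) → ℕ}
    (hp : DFun n fp) (hb : DFun n fb) (hc : DFun n fc) (hd : DFun n fd)
    (he : DFun n fe) (hx : DFun n fx) (hy : DFun n fy) :
    DFun n (fun v => DefC_G (fp v) (fa v) (fb v) (fc v) (fd v) (fe v) (fx v) (fy v)) := by
  have h1 : DFun n (fun v => fd v + 4 * fe v * fx v) :=
    hd.add (((DFun.const 4).mul he).mul hx)
  have h2 : DFun n (fun v => fc v + 3 * fd v * fx v + 6 * fe v * fx v ^ 2) :=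
    (hc.add (((DFun.const 3).mul hd).mul hx)).add (((DFun.const 6).mul he).mul (DefC_pow hx 2))
  have h3 : DFun n (fun v => fb v + 2 * fc v * fx v + 3 * fd v * fx v ^ 2 +
      4 * fe v * fx v ^ 3) :=
    ((hb.add (((DFun.const 2).mul hc).mul hx)).add
      (((DFun.const 3).mul hd).mul (DefC_pow hx 2))).add
        (((DFun.const 4).mul he).mul (DefC_pow hx 3))
  have h4 : DFun n (fun v => DefC_sn (fp v) (fy v ^ 2)) :=
    DFun.comp2 (g := DefC_sn) sn_def hp (DefC_pow hy 2)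
  have h5 : DFun n (fun v => DefC_sn (fp v) (fe v)) := DFun.comp2 (g := DefC_sn) sn_def hp he
  classical
  refine dfun_congr (((DFun.ite (delta_dvd hp hy) (DefC_cub_def hp he h1 h2 h3)
    (DefC_lead_def hp he h1 h2 h3 hy)).add h4).sub h5) fun v => ?_
  rw [DefC_G]

private theorem DefC_le (m a b c d e : ℕ) : QN m a b c d e ≤ m * m := by
  refine (card_filter_le _ _).trans ?_
  rw [card_product, card_range]

private theorem DefC_zero {m a b c d e : ℕ}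
    (h : ¬ ∃ x, x ≤ m ∧ ∃ y, y ≤ m ∧ y ^ 2 ≡ q4 a b c d e x [MOD m]) :
    QN m a b c d e = 0 := by
  rw [QN, card_eq_zero, filter_eq_empty_iff]
  rintro ⟨x, y⟩ hxy hz
  rw [mem_product, mem_range, mem_range] at hxy
  exact h ⟨x, hxy.1.le, y, hxy.2.le, hz⟩

open scoped Classical in
theorem quart_def :
    DFun 6 (fun v => if Good (v 0) then QN (v 0) (v 1) (v 2) (v 3) (v 4) (v 5) else 0) := by
  have hp0 : DFun 6 (fun v => v 0) := DFun.proj 0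
  refine DFun.ofGraph (hp0.mul hp0) (fun v => ?_) ?_
  · by_cases h : Good (v 0)
    · rw [if_pos h]
      exact DefC_le _ _ _ _ _ _
    · rw [if_neg h]
      exact Nat.zero_le _
  have s1 : Delta0 9 (fun t => (t 0) ^ 2 ≡ q4 (t 4) (t 5) (t 6) (t 7) (t 8) (t 1) [MOD t 3]) :=
    Delta0.eqFun (DFun.modAny (DefC_pow (DFun.proj 0) 2) (DFun.proj 3))
      (DFun.modAny (DefC_q4 (DFun.proj 4) (DFun.proj 5) (DFun.proj 6) (DFun.proj 7)
        (DFun.proj 8) (DFun.proj 1)) (DFun.proj 3))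
  have s2 : Delta0 9 (fun t => t 2 =
      DefC_G (t 3) (t 4) (t 5) (t 6) (t 7) (t 8) (t 1) (t 0)) :=
    Delta0.eqFun (DFun.proj 2) (DefC_G_def (DFun.proj 3) (DFun.proj 5) (DFun.proj 6)
      (DFun.proj 7) (DFun.proj 8) (DFun.proj 1) (DFun.proj 0))
  have g1 : Delta0 7 (fun w => ∃ x, x ≤ w 1 ∧ ∃ y, y ≤ w 1 ∧
      y ^ 2 ≡ q4 (w 2) (w 3) (w 4) (w 5) (w 6) x [MOD w 1]) := by
    have h1 : Delta0 8 (fun u => ∃ y, y ≤ u 2 ∧
        y ^ 2 ≡ q4 (u 3) (u 4) (u 5) (u 6) (u 7) (u 0) [MOD u 2]) :=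
      Delta0.bexFun (n := 8) (P := fun y u =>
        y ^ 2 ≡ q4 (u 3) (u 4) (u 5) (u 6) (u 7) (u 0) [MOD u 2]) (DFun.proj 2) s1
    exact Delta0.bexFun (n := 7) (P := fun x w => ∃ y, y ≤ w 1 ∧
      y ^ 2 ≡ q4 (w 2) (w 3) (w 4) (w 5) (w 6) x [MOD w 1]) (DFun.proj 1) h1
  have g2 : Delta0 7 (fun w => ∃ x, x ≤ w 1 ∧ ∃ y, y ≤ w 1 ∧
      (y ^ 2 ≡ q4 (w 2) (w 3) (w 4) (w 5) (w 6) x [MOD w 1] ∧
        w 0 = DefC_G (w 1) (w 2) (w 3) (w 4) (w 5) (w 6) x y)) := by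
    have h1 : Delta0 8 (fun u => ∃ y, y ≤ u 2 ∧
        (y ^ 2 ≡ q4 (u 3) (u 4) (u 5) (u 6) (u 7) (u 0) [MOD u 2] ∧
          u 1 = DefC_G (u 2) (u 3) (u 4) (u 5) (u 6) (u 7) (u 0) y)) :=
      Delta0.bexFun (n := 8) (P := fun y u =>
        (y ^ 2 ≡ q4 (u 3) (u 4) (u 5) (u 6) (u 7) (u 0) [MOD u 2] ∧
          u 1 = DefC_G (u 2) (u 3) (u 4) (u 5) (u 6) (u 7) (u 0) y)) (DFun.proj 2) (s1.and s2)
    exact Delta0.bexFun (n := 7) (P := fun x w => ∃ y, y ≤ w 1 ∧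
      (y ^ 2 ≡ q4 (w 2) (w 3) (w 4) (w 5) (w 6) x [MOD w 1] ∧
        w 0 = DefC_G (w 1) (w 2) (w 3) (w 4) (w 5) (w 6) x y)) (DFun.proj 1) h1
  have g3 : Delta0 7 (fun w => Good (w 1)) := good_def (DFun.proj 1)
  have g4 : Delta0 7 (fun w => w 0 = 0) := Delta0.eqFun (DFun.proj 0) (DFun.const 0)
  refine ((g3.and (g2.or (g1.not.and g4))).or (g3.not.and g4)).of_iff fun w => ?_
  show w 0 = (if Good (w 1) then QN (w 1) (w 2) (w 3) (w 4) (w 5) (w 6) else 0) ↔ _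
  by_cases hg : Good (w 1)
  · rw [if_pos hg]
    constructor
    · intro h
      refine Or.inl ⟨hg, ?_⟩
      by_cases he : ∃ x, x ≤ w 1 ∧ ∃ y, y ≤ w 1 ∧
          y ^ 2 ≡ q4 (w 2) (w 3) (w 4) (w 5) (w 6) x [MOD w 1]
      · obtain ⟨x, hx, y, hy, hxy⟩ := he
        exact Or.inl ⟨x, hx, y, hy, hxy, h.trans (DefC_G_eq hg hxy).symm⟩
      · exact Or.inr ⟨he, h.trans (DefC_zero he)⟩
    · rintro (⟨-, ⟨x, -, y, -, hxy, h⟩ | ⟨he, h⟩⟩ | ⟨hn, -⟩)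
      · exact h.trans (DefC_G_eq hg hxy)
      · exact h.trans (DefC_zero he).symm
      · exact absurd hg hn
  · rw [if_neg hg]
    constructor
    · intro h
      exact Or.inr ⟨hg, h⟩
    · rintro (⟨h, -⟩ | ⟨-, h⟩)
      · exact absurd h hg
      · exact h

end Pool.Agent.PtC
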