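import Pool.Agent.PtC.DefC
import Pool.Agent.PtC.CubA
import Pool.Agent.PtC.CubB

/-!
# Package PtC-DefD: plane cubics over prime fields

*`orig_def`*: plane cubics through the origin (`e 0 ≡ 0`), good `p`. By `pn_eq`, `pc_origin` over
`ZMod p`, `qn_eq`, `rn_eq`: `PN p e` is a combination of: `1`; the number of the `y` with `0 < y <
p`, `p ∣ e 2 + e 5 y + e 9 y ^ 2`, which is `p - 1` if `p` divides `e 2`, `e 5`, `e 9`, else at most
`2` (`cnt_small` with `k = 2` and roots of a polynomial of degree at most two); `p + S4(…)`, that is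
`QN p (e 3 ^ 2 + 4 (p - 1) e 6 e 1) …` (`quart_def`, coefficients with `p - 1` for `-1`,
`DFun.comp`); the numbers of roots `RN p (e 6) (e 7) (e 8) (e 9)`, `RN p (e 1) (e 2) 0 0`
(`rn_def`); and `p` times the number of the common roots, which is `p` if all nine coefficients are
`0` modulo `p`, else at most `3` (`cnt_small`). The final value is `≥ 0`: write it as `A - B` with
natural `A`, `B` (`DFun.sub`). ∎

*`pc_def`*: good `p`; if there is no solution the value is `0`; else for a solution `(s, t)`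
`PN p e = PN p (sh e s t)` (`pn_eq`, `pc_shift`; the cast of `sh` is `sh` of the casts) and
`sh e s t 0 = cub e s t ≡ 0`: `DFun.ofGraph`, `Delta0.bexFun` twice, `orig_def`, `DFun.comp`. ∎

Difficulty: 1.5 h.
-/

set_option autoImplicit false

namespace Pool.Agent.PtC

open Finset Pool.Agent.Grz Pool.Agent.GAvg Pool.Agent.PTr Pool.Agent.MTr Pool.Agent.LPC
  Pool.Agent.ECD

/-! ### the calculus -/

private theorem defD_q4 {n : ℕ} {a b c d e x : (Fin n → ℕ) → ℕ} (ha : DFun n a) (hb : DFun n b)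
    (hc : DFun n c) (hd : DFun n d) (he : DFun n e) (hx : DFun n x) :
    DFun n (fun v => q4 (a v) (b v) (c v) (d v) (e v) (x v)) :=
  (((ha.add (hb.mul hx)).add (hc.mul (DFun.powConst hx 2))).add (hd.mul (DFun.powConst hx 3))).add
    (he.mul (DFun.powConst hx 4))

private theorem defD_cub {n : ℕ} {e : Fin 10 → (Fin n → ℕ) → ℕ} {x y : (Fin n → ℕ) → ℕ}
    (he : ∀ i, DFun n (e i)) (hx : DFun n x) (hy : DFun n y) :
    DFun n (fun v => cub (fun i => e i v) (x v) (y v)) :=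
  (((((((((he 0).add ((he 1).mul hx)).add ((he 2).mul hy)).add
    ((he 3).mul (DFun.powConst hx 2))).add (((he 4).mul hx).mul hy)).add
    ((he 5).mul (DFun.powConst hy 2))).add ((he 6).mul (DFun.powConst hx 3))).add
    (((he 7).mul (DFun.powConst hx 2)).mul hy)).add (((he 8).mul hx).mul
    (DFun.powConst hy 2))).add ((he 9).mul (DFun.powConst hy 3))

private theorem defD_sh {n : ℕ} {e : Fin 10 → (Fin n → ℕ) → ℕ} {s t : (Fin n → ℕ) → ℕ}
    (he : ∀ i, DFun n (e i)) (hs : DFun n s) (ht : DFun n t) (i : Fin 10) :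
    DFun n (fun v => sh (fun j => e j v) (s v) (t v) i) := by
  have c2 : DFun n (fun _ => 2) := DFun.const 2
  have c3 : DFun n (fun _ => 3) := DFun.const 3
  have hs2 := DFun.powConst hs 2
  have ht2 := DFun.powConst ht 2
  fin_cases i
  · exact defD_cub he hs ht
  · exact (((((he 1).add ((c2.mul (he 3)).mul hs)).add ((he 4).mul ht)).add
      ((c3.mul (he 6)).mul hs2)).add (((c2.mul (he 7)).mul hs).mul ht)).add ((he 8).mul ht2)
  · exact (((((he 2).add ((he 4).mul hs)).add ((c2.mul (he 5)).mul ht)).add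
      ((he 7).mul hs2)).add (((c2.mul (he 8)).mul hs).mul ht)).add ((c3.mul (he 9)).mul ht2)
  · exact ((he 3).add ((c3.mul (he 6)).mul hs)).add ((he 7).mul ht)
  · exact ((he 4).add ((c2.mul (he 7)).mul hs)).add ((c2.mul (he 8)).mul ht)
  · exact ((he 5).add ((he 8).mul hs)).add ((c3.mul (he 9)).mul ht)
  · exact he 6
  · exact he 7
  · exact he 8
  · exact he 9

/-! ### numbers of roots -/

private theorem defD_card {p : ℕ} [Fact p.Prime] (P : ZMod p → Prop) [DecidablePred P] :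
    #{y : ZMod p | P y} = #((range p).filter fun y : ℕ => P (y : ZMod p)) := by
  refine card_nbij' (fun y => ZMod.val y) (fun y => (y : ZMod p)) ?_ ?_ ?_ ?_
  · intro y hy
    simp only [coe_filter, mem_univ, true_and, Set.mem_ofPred_eq] at hy
    simp only [coe_filter, mem_range, Set.mem_ofPred_eq, ZMod.natCast_val, ZMod.cast_id', id_eq]
    exact ⟨ZMod.val_lt y, hy⟩
  · intro y hy
    simp only [coe_filter, mem_range, Set.mem_ofPred_eq] at hy
    simp only [coe_filter, mem_univ, true_and, Set.mem_ofPred_eq]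
    exact hy.2
  · intro y _
    simp
  · intro y hy
    simp only [coe_filter, mem_range, Set.mem_ofPred_eq] at hy
    exact ZMod.val_cast_of_lt hy.1

private theorem defD_roots {p : ℕ} [Fact p.Prime] (k : ℕ) (P : Polynomial (ZMod p)) (hP : P ≠ 0)
    (hk : P.natDegree ≤ k) (A : ZMod p → Prop) [DecidablePred A]
    (hA : ∀ t, A t → P.eval t = 0) : #{t : ZMod p | A t} ≤ k := by
  classical
  calc #{t : ZMod p | A t} ≤ #P.roots.toFinset := by
        refine card_le_card fun t ht => ?_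
        rw [Multiset.mem_toFinset, Polynomial.mem_roots hP]
        exact hA t (mem_filter.1 ht).2
    _ ≤ Multiset.card P.roots := Multiset.toFinset_card_le _
    _ ≤ P.natDegree := P.card_roots'
    _ ≤ k := hk

private noncomputable def defD_pol {p : ℕ} (a b c d : ZMod p) : Polynomial (ZMod p) :=
  Polynomial.C a + Polynomial.C b * Polynomial.X + Polynomial.C c * Polynomial.X ^ 2 +
    Polynomial.C d * Polynomial.X ^ 3

private theorem defD_pol_eval {p : ℕ} (a b c d t : ZMod p) :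
    (defD_pol a b c d).eval t = q4 a b c d 0 t := by
  simp [defD_pol, q4]

private theorem defD_pol_ne {p : ℕ} (a b c d : ZMod p)
    (h : ¬ (a = 0 ∧ b = 0 ∧ c = 0 ∧ d = 0)) : defD_pol a b c d ≠ 0 := by
  intro h0
  apply h
  have e0 := congrArg (fun Q => Polynomial.coeff Q 0) h0
  have e1 := congrArg (fun Q => Polynomial.coeff Q 1) h0
  have e2 := congrArg (fun Q => Polynomial.coeff Q 2) h0
  have e3 := congrArg (fun Q => Polynomial.coeff Q 3) h0
  simp [defD_pol, Polynomial.coeff_C, Polynomial.coeff_X, Polynomial.coeff_X_pow] at e0 e1 e2 e3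
  exact ⟨e0, e1, e2, e3⟩

private theorem defD_pol_deg {p : ℕ} (a b c d : ZMod p) :
    (defD_pol a b c d).natDegree ≤ 3 := by
  unfold defD_pol
  compute_degree

private theorem defD_pol_deg2 {p : ℕ} (a b c : ZMod p) :
    (defD_pol a b c 0).natDegree ≤ 2 := by
  unfold defD_pol
  rw [map_zero, zero_mul, add_zero]
  compute_degree

private theorem defD_q4_cast {p : ℕ} (a b c d e x : ℕ) :
    ((q4 a b c d e x : ℕ) : ZMod p) = q4 (a : ZMod p) b c d e x := by
  simp [q4]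

private theorem defD_q4_dvd {p : ℕ} (a b c d e x : ℕ) :
    p ∣ q4 a b c d e x ↔ q4 (a : ZMod p) b c d e x = 0 := by
  rw [← ZMod.natCast_eq_zero_iff, defD_q4_cast]

/-! ### the two auxiliary numbers -/

open scoped Classical in
private noncomputable def defD_Y (v : Fin 11 → ℕ) : ℕ :=
  if v 0 ∣ v 3 ∧ v 0 ∣ v 6 ∧ v 0 ∣ v 10 then v 0 - 1 else
    min 2 #{y ∈ range (v 0) | 0 < y ∧ v 0 ∣ q4 (v 3) (v 6) (v 10) 0 0 y}

private theorem defD_dY : DFun 11 defD_Y := by
  classical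
  have h (i : Fin 11) : DFun 11 (fun v => v i) := DFun.proj i
  have h0 : DFun (11 + 1) (fun w => w 0) := DFun.proj 0
  have h1 := cnt_small (n := 11) 2 (B := fun v => v 0)
    (A := fun y v => 0 < y ∧ v 0 ∣ q4 (v 3) (v 6) (v 10) 0 0 y) (h 0)
    ((Delta0.ltFun (DFun.const 0) h0).and (delta_dvd (h 0).weak
      (defD_q4 (h 3).weak (h 6).weak (h 10).weak (DFun.const 0) (DFun.const 0) h0)))
  have h2 := DFun.ite ((delta_dvd (h 0) (h 3)).and ((delta_dvd (h 0) (h 6)).and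
    (delta_dvd (h 0) (h 10)))) ((h 0).sub (DFun.const 1)) h1
  refine dfun_congr h2 fun v => ?_
  unfold defD_Y
  by_cases hv : v 0 ∣ v 3 ∧ v 0 ∣ v 6 ∧ v 0 ∣ v 10
  · rw [if_pos hv, if_pos hv]
  · rw [if_neg hv, if_neg hv]
    congr!

private theorem defD_Y_eq (v : Fin 11 → ℕ) [Fact (v 0).Prime] :
    defD_Y v = #{y : ZMod (v 0) | y ≠ 0 ∧
      q4 (v 3 : ZMod (v 0)) (v 6) (v 10) 0 0 y = 0} := by
  classical
  have hN : #{y : ZMod (v 0) | y ≠ 0 ∧ q4 (v 3 : ZMod (v 0)) (v 6) (v 10) 0 0 y = 0} =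
      #{y ∈ range (v 0) | 0 < y ∧ v 0 ∣ q4 (v 3) (v 6) (v 10) 0 0 y} := by
    refine (defD_card (fun y : ZMod (v 0) => y ≠ 0 ∧
      q4 (v 3 : ZMod (v 0)) (v 6) (v 10) 0 0 y = 0)).trans ?_
    congr 1
    apply filter_congr
    intro y hy
    rw [mem_range] at hy
    have h1 : (y : ZMod (v 0)) ≠ 0 ↔ 0 < y := by
      rw [Ne, ZMod.natCast_eq_zero_iff]
      constructor
      · intro h
        exact Nat.pos_of_ne_zero fun h0 => h (by rw [h0]; exact dvd_zero _)
      · intro h h0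
        exact absurd (Nat.le_of_dvd h h0) (by omega)
    rw [h1, defD_q4_dvd, Nat.cast_zero]
  rw [hN]
  unfold defD_Y
  by_cases hv : v 0 ∣ v 3 ∧ v 0 ∣ v 6 ∧ v 0 ∣ v 10
  · rw [if_pos hv]
    obtain ⟨k1, k2, k3⟩ := hv
    have h2 : ({y ∈ range (v 0) | 0 < y ∧ v 0 ∣ q4 (v 3) (v 6) (v 10) 0 0 y} : Finset ℕ) =
        Ico 1 (v 0) := by
      ext y
      simp only [mem_filter, mem_range, mem_Ico]
      constructor
      · rintro ⟨h3, h4, -⟩
        exact ⟨h4, h3⟩
      · rintro ⟨h3, h4⟩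
        refine ⟨h4, h3, ?_⟩
        unfold q4
        rw [zero_mul, zero_mul, add_zero, add_zero]
        exact dvd_add (dvd_add k1 (k2.mul_right _)) (k3.mul_right _)
    rw [h2, Nat.card_Ico]
  · rw [if_neg hv, min_eq_right]
    rw [← hN]
    refine defD_roots 2 (defD_pol (v 3 : ZMod (v 0)) (v 6) (v 10) 0) (defD_pol_ne _ _ _ _ ?_)
      (defD_pol_deg2 _ _ _) _ fun t ht => ?_
    · rintro ⟨k1, k2, k3, -⟩
      rw [ZMod.natCast_eq_zero_iff] at k1 k2 k3
      exact hv ⟨k1, k2, k3⟩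
    · rw [defD_pol_eval]
      exact ht.2

/-- all coefficients of degree at least one vanish -/
private def defD_all (v : Fin 11 → ℕ) : Prop :=
  ((v 0 ∣ v 2 ∧ v 0 ∣ v 3) ∧ (v 0 ∣ v 4 ∧ v 0 ∣ v 5 ∧ v 0 ∣ v 6)) ∧
    (v 0 ∣ v 7 ∧ v 0 ∣ v 8 ∧ v 0 ∣ v 9 ∧ v 0 ∣ v 10)

open scoped Classical in
private noncomputable def defD_R (v : Fin 11 → ℕ) : ℕ :=
  if defD_all v then v 0 else
    min 3 #{t ∈ range (v 0) | v 0 ∣ q4 (v 7) (v 8) (v 9) (v 10) 0 t ∧
      v 0 ∣ q4 (v 4) (v 5) (v 6) 0 0 t ∧ v 0 ∣ q4 (v 2) (v 3) 0 0 0 t}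

private theorem defD_dR : DFun 11 defD_R := by
  classical
  have h (i : Fin 11) : DFun 11 (fun v => v i) := DFun.proj i
  have h0 : DFun (11 + 1) (fun w => w 0) := DFun.proj 0
  have c0 : DFun (11 + 1) (fun _ => 0) := DFun.const 0
  have h1 := cnt_small (n := 11) 3 (B := fun v => v 0)
    (A := fun t v => v 0 ∣ q4 (v 7) (v 8) (v 9) (v 10) 0 t ∧
      v 0 ∣ q4 (v 4) (v 5) (v 6) 0 0 t ∧ v 0 ∣ q4 (v 2) (v 3) 0 0 0 t) (h 0)
    ((delta_dvd (h 0).weak
      (defD_q4 (h 7).weak (h 8).weak (h 9).weak (h 10).weak c0 h0)).and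
      ((delta_dvd (h 0).weak (defD_q4 (h 4).weak (h 5).weak (h 6).weak c0 c0 h0)).and
        (delta_dvd (h 0).weak (defD_q4 (h 2).weak (h 3).weak c0 c0 c0 h0))))
  have hall : Delta0 11 defD_all :=
    (((delta_dvd (h 0) (h 2)).and (delta_dvd (h 0) (h 3))).and ((delta_dvd (h 0) (h 4)).and
      ((delta_dvd (h 0) (h 5)).and (delta_dvd (h 0) (h 6))))).and
      ((delta_dvd (h 0) (h 7)).and ((delta_dvd (h 0) (h 8)).and
        ((delta_dvd (h 0) (h 9)).and (delta_dvd (h 0) (h 10)))))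
  have h2 := DFun.ite hall (h 0) h1
  refine dfun_congr h2 fun v => ?_
  unfold defD_R
  by_cases hv : defD_all v
  · rw [if_pos hv, if_pos hv]
  · rw [if_neg hv, if_neg hv]
    congr!

private theorem defD_R_eq (v : Fin 11 → ℕ) [Fact (v 0).Prime] :
    defD_R v = #{t : ZMod (v 0) | q4 (v 7 : ZMod (v 0)) (v 8) (v 9) (v 10) 0 t = 0 ∧
      q4 (v 4 : ZMod (v 0)) (v 5) (v 6) 0 0 t = 0 ∧ (v 2 : ZMod (v 0)) + v 3 * t = 0} := by
  classical
  have hlin : ∀ t : ZMod (v 0), (v 2 : ZMod (v 0)) + v 3 * t =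
      q4 (v 2 : ZMod (v 0)) (v 3) 0 0 0 t := by
    intro t
    simp [q4]
  have hN : #{t : ZMod (v 0) | q4 (v 7 : ZMod (v 0)) (v 8) (v 9) (v 10) 0 t = 0 ∧
      q4 (v 4 : ZMod (v 0)) (v 5) (v 6) 0 0 t = 0 ∧ (v 2 : ZMod (v 0)) + v 3 * t = 0} =
      #{t ∈ range (v 0) | v 0 ∣ q4 (v 7) (v 8) (v 9) (v 10) 0 t ∧
      v 0 ∣ q4 (v 4) (v 5) (v 6) 0 0 t ∧ v 0 ∣ q4 (v 2) (v 3) 0 0 0 t} := by
    refine (defD_card (fun t : ZMod (v 0) => q4 (v 7 : ZMod (v 0)) (v 8) (v 9) (v 10) 0 t = 0 ∧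
      q4 (v 4 : ZMod (v 0)) (v 5) (v 6) 0 0 t = 0 ∧
        (v 2 : ZMod (v 0)) + v 3 * t = 0)).trans ?_
    congr 1
    apply filter_congr
    intro y _
    rw [defD_q4_dvd, defD_q4_dvd, defD_q4_dvd, Nat.cast_zero, hlin]
  rw [hN]
  unfold defD_R
  by_cases hv : defD_all v
  · rw [if_pos hv]
    obtain ⟨⟨⟨k2, k3⟩, k4, k5, k6⟩, k7, k8, k9, k10⟩ := hv
    rw [filter_true_of_mem, card_range]
    intro t _
    have hz : ∀ {a b c d : ℕ}, v 0 ∣ a → v 0 ∣ b → v 0 ∣ c → v 0 ∣ d →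
        v 0 ∣ q4 a b c d 0 t := by
      intro a b c d ha hb hc hd
      unfold q4
      rw [zero_mul, add_zero]
      exact dvd_add (dvd_add (dvd_add ha (hb.mul_right _)) (hc.mul_right _)) (hd.mul_right _)
    exact ⟨hz k7 k8 k9 k10, hz k4 k5 k6 (dvd_zero _), hz k2 k3 (dvd_zero _) (dvd_zero _)⟩
  · rw [if_neg hv, min_eq_right]
    rw [← hN]
    by_cases h7 : v 0 ∣ v 7 ∧ v 0 ∣ v 8 ∧ v 0 ∣ v 9 ∧ v 0 ∣ v 10
    · by_cases h4 : v 0 ∣ v 4 ∧ v 0 ∣ v 5 ∧ v 0 ∣ v 6
      · have h2 : ¬ (v 0 ∣ v 2 ∧ v 0 ∣ v 3) := fun h2 => hv ⟨⟨h2, h4⟩, h7⟩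
        refine defD_roots 3 (defD_pol (v 2 : ZMod (v 0)) (v 3) 0 0) (defD_pol_ne _ _ _ _ ?_)
          (defD_pol_deg _ _ _ _) _ fun t ht => ?_
        · rintro ⟨k1, k2, -, -⟩
          rw [ZMod.natCast_eq_zero_iff] at k1 k2
          exact h2 ⟨k1, k2⟩
        · rw [defD_pol_eval, ← hlin]
          exact ht.2.2
      · refine defD_roots 3 (defD_pol (v 4 : ZMod (v 0)) (v 5) (v 6) 0) (defD_pol_ne _ _ _ _ ?_)
          (defD_pol_deg _ _ _ _) _ fun t ht => ?_
        · rintro ⟨k1, k2, k3, -⟩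
          rw [ZMod.natCast_eq_zero_iff] at k1 k2 k3
          exact h4 ⟨k1, k2, k3⟩
        · rw [defD_pol_eval]
          exact ht.2.1
    · refine defD_roots 3 (defD_pol (v 7 : ZMod (v 0)) (v 8) (v 9) (v 10))
        (defD_pol_ne _ _ _ _ ?_) (defD_pol_deg _ _ _ _) _ fun t ht => ?_
      · rintro ⟨k1, k2, k3, k4⟩
        rw [ZMod.natCast_eq_zero_iff] at k1 k2 k3 k4
        exact h7 ⟨k1, k2, k3, k4⟩
      · rw [defD_pol_eval]
        exact ht.1

/-! ### the quartic discriminant -/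

private def defD_A (v : Fin 11 → ℕ) : ℕ := v 4 ^ 2 + (v 0 - 1) * (4 * v 7 * v 2)

private def defD_B (v : Fin 11 → ℕ) : ℕ :=
  2 * v 4 * v 5 + (v 0 - 1) * (4 * (v 7 * v 3 + v 8 * v 2))

private def defD_C (v : Fin 11 → ℕ) : ℕ :=
  v 5 ^ 2 + 2 * v 4 * v 6 + (v 0 - 1) * (4 * (v 8 * v 3 + v 9 * v 2))

private def defD_D (v : Fin 11 → ℕ) : ℕ :=
  2 * v 5 * v 6 + (v 0 - 1) * (4 * (v 9 * v 3 + v 10 * v 2))

private def defD_E (v : Fin 11 → ℕ) : ℕ := v 6 ^ 2 + (v 0 - 1) * (4 * v 10 * v 3)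

open scoped Classical in
private theorem defD_dQ : DFun 11 (fun v => if Good (v 0) then
    QN (v 0) (defD_A v) (defD_B v) (defD_C v) (defD_D v) (defD_E v) else 0) := by
  have h (i : Fin 11) : DFun 11 (fun v => v i) := DFun.proj i
  have m1 : DFun 11 (fun v => v 0 - 1) := (h 0).sub (DFun.const 1)
  have c2 : DFun 11 (fun _ => 2) := DFun.const 2
  have c4 : DFun 11 (fun _ => 4) := DFun.const 4
  have hA : DFun 11 defD_A := (DFun.powConst (h 4) 2).add (m1.mul ((c4.mul (h 7)).mul (h 2)))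
  have hB : DFun 11 defD_B := ((c2.mul (h 4)).mul (h 5)).add
    (m1.mul (c4.mul (((h 7).mul (h 3)).add ((h 8).mul (h 2)))))
  have hC : DFun 11 defD_C := ((DFun.powConst (h 5) 2).add ((c2.mul (h 4)).mul (h 6))).add
    (m1.mul (c4.mul (((h 8).mul (h 3)).add ((h 9).mul (h 2)))))
  have hD : DFun 11 defD_D := ((c2.mul (h 5)).mul (h 6)).add
    (m1.mul (c4.mul (((h 9).mul (h 3)).add ((h 10).mul (h 2)))))
  have hE : DFun 11 defD_E := (DFun.powConst (h 6) 2).add (m1.mul ((c4.mul (h 10)).mul (h 3)))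
  refine DFun.comp (h := ![fun v => v 0, defD_A, defD_B, defD_C, defD_D, defD_E]) quart_def ?_
  intro i
  fin_cases i
  · exact h 0
  · exact hA
  · exact hB
  · exact hC
  · exact hD
  · exact hE

private theorem defD_pred {p : ℕ} (hp : 0 < p) : ((p - 1 : ℕ) : ZMod p) = -1 := by
  rw [Nat.cast_sub hp, ZMod.natCast_self, Nat.cast_one, zero_sub]

private theorem defD_Q_eq (v : Fin 11 → ℕ) [hp : Fact (v 0).Prime] (h5 : 5 ≤ v 0) :
    (QN (v 0) (defD_A v) (defD_B v) (defD_C v) (defD_D v) (defD_E v) : ℤ) =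
      v 0 + S4 (F := ZMod (v 0)) ((v 4 : ZMod (v 0)) ^ 2 - 4 * v 7 * v 2)
        (2 * v 4 * v 5 - 4 * (v 7 * v 3 + v 8 * v 2))
        ((v 5 : ZMod (v 0)) ^ 2 + 2 * v 4 * v 6 - 4 * (v 8 * v 3 + v 9 * v 2))
        (2 * v 5 * v 6 - 4 * (v 9 * v 3 + v 10 * v 2))
        ((v 6 : ZMod (v 0)) ^ 2 - 4 * v 10 * v 3) := by
  have h0 : 0 < v 0 := by omega
  rw [qn_eq (by omega)]
  unfold defD_A defD_B defD_C defD_D defD_E
  push_cast [defD_pred h0]
  congr 2 <;> ring

private theorem defD_main (v : Fin 11 → ℕ) (hg : Good (v 0)) (hd : v 0 ∣ v 1) :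
    PN (v 0) (fun i => v i.succ) =
      (1 + defD_Y v + QN (v 0) (defD_A v) (defD_B v) (defD_C v) (defD_D v) (defD_E v) +
        v 0 * defD_R v) - (RN (v 0) (v 7) (v 8) (v 9) (v 10) + RN (v 0) (v 2) (v 3) 0 0) := by
  classical
  obtain ⟨hp, h5⟩ := hg
  have : Fact (v 0).Prime := ⟨hp⟩
  have h2 : (2 : ZMod (v 0)) ≠ 0 := by
    intro h
    have h1 : ((2 : ℕ) : ZMod (v 0)) = 0 := by exact_mod_cast h
    rw [ZMod.natCast_eq_zero_iff] at h1
    have := Nat.le_of_dvd (by norm_num) h1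
    omega
  have h0 : ((v 1 : ℕ) : ZMod (v 0)) = 0 := (ZMod.natCast_eq_zero_iff _ _).2 hd
  have key := pc_origin h2 (fun i : Fin 10 => ((v i.succ : ℕ) : ZMod (v 0))) h0
  have hR2 : RN (v 0) (v 2) (v 3) 0 0 =
      #{t : ZMod (v 0) | (v 2 : ZMod (v 0)) + v 3 * t = 0} := by
    rw [rn_eq]
    congr 1
    apply filter_congr
    intro t _
    rw [Nat.cast_zero]
    simp [q4]
  have hR1 := rn_eq (p := v 0) (v 7) (v 8) (v 9) (v 10)
  have hQ := defD_Q_eq v h5
  have hY := defD_Y_eq v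
  have hR := defD_R_eq v
  have hP := pn_eq (p := v 0) (fun i : Fin 10 => v i.succ)
  have hN : (PN (v 0) (fun i => v i.succ) : ℤ) = 1 + defD_Y v +
      QN (v 0) (defD_A v) (defD_B v) (defD_C v) (defD_D v) (defD_E v) + v 0 * defD_R v -
      (RN (v 0) (v 7) (v 8) (v 9) (v 10) + RN (v 0) (v 2) (v 3) 0 0) := by
    rw [hQ, hY, hR, hR1, hR2, hP]
    rw [ZMod.card] at key
    refine key.trans ?_
    have hf : ∀ a b c d e f : ℤ, 1 + a + b + c - d - e + f = 1 + a + (b + c) + f - (d + e) := by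
      intros
      ring
    exact hf _ _ _ _ _ _
  omega

open scoped Classical in
theorem orig_def : DFun 11 (fun v => if Good (v 0) ∧ v 0 ∣ v 1 then
    PN (v 0) (fun i => v i.succ) else 0) := by
  have h (i : Fin 11) : DFun 11 (fun v => v i) := DFun.proj i
  have r1 : DFun 11 (fun v => if (v 0).Prime then RN (v 0) (v 7) (v 8) (v 9) (v 10) else 0) := by
    refine DFun.comp (h := ![fun v => v 0, fun v => v 7, fun v => v 8, fun v => v 9,
      fun v => v 10]) rn_def ?_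
    intro i
    fin_cases i
    · exact h 0
    · exact h 7
    · exact h 8
    · exact h 9
    · exact h 10
  have r2 : DFun 11 (fun v => if (v 0).Prime then RN (v 0) (v 2) (v 3) 0 0 else 0) := by
    refine DFun.comp (h := ![fun v => v 0, fun v => v 2, fun v => v 3, fun _ => 0,
      fun _ => 0]) rn_def ?_
    intro i
    fin_cases i
    · exact h 0
    · exact h 2
    · exact h 3
    · exact DFun.const 0
    · exact DFun.const 0
  have hmain := DFun.ite ((good_def (h 0)).and (delta_dvd (h 0) (h 1)))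
    (((((DFun.const 1).add defD_dY).add defD_dQ).add ((h 0).mul defD_dR)).sub (r1.add r2))
    (DFun.const 0)
  refine dfun_congr hmain fun v => ?_
  by_cases hv : Good (v 0) ∧ v 0 ∣ v 1
  · rw [if_pos hv, if_pos hv, if_pos hv.1, if_pos hv.1.1, if_pos hv.1.1]
    exact defD_main v hv.1 hv.2
  · rw [if_neg hv, if_neg hv]

private theorem defD_PN_le (m : ℕ) (e : Fin 10 → ℕ) : PN m e ≤ m * m := by
  unfold PN
  refine (card_filter_le _ _).trans (le_of_eq ?_)
  rw [card_product, card_range]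

private theorem defD_cub_cast {p : ℕ} (e : Fin 10 → ℕ) (x y : ℕ) :
    ((cub e x y : ℕ) : ZMod p) = cub (fun i => (e i : ZMod p)) x y := by
  simp [cub]

private theorem defD_sh_cast {p : ℕ} (e : Fin 10 → ℕ) (x y : ℕ) (i : Fin 10) :
    ((sh e x y i : ℕ) : ZMod p) = sh (fun i => (e i : ZMod p)) x y i := by
  fin_cases i
  · exact defD_cub_cast e x y
  all_goals simp [sh]

private theorem defD_shift {p : ℕ} (hp : p.Prime) (e : Fin 10 → ℕ) (x y : ℕ) :
    PN p (sh e x y) = PN p e := by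
  have : Fact p.Prime := ⟨hp⟩
  rw [pn_eq, pn_eq, ← pc_shift (fun i => (e i : ZMod p)) x y]
  congr 1
  apply filter_congr
  intro z _
  have h : (fun i => ((sh e x y i : ℕ) : ZMod p)) = sh (fun i => (e i : ZMod p)) x y :=
    funext fun i => defD_sh_cast e x y i
  rw [h]

private theorem defD_none {p : ℕ} (e : Fin 10 → ℕ)
    (h : ¬ ∃ x, x ≤ p ∧ ∃ y, y ≤ p ∧ (x < p ∧ y < p ∧ p ∣ cub e x y)) : PN p e = 0 := by
  unfold PN
  rw [card_eq_zero, filter_eq_empty_iff]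
  rintro ⟨x, y⟩ hz hd
  rw [mem_product, mem_range, mem_range] at hz
  exact h ⟨x, hz.1.le, y, hz.2.le, hz.1, hz.2, hd⟩

open scoped Classical in
theorem pc_def :
    DFun 11 (fun v => if Good (v 0) then PN (v 0) (fun i => v i.succ) else 0) := by
  have h (i : Fin 11) : DFun 11 (fun v => v i) := DFun.proj i
  refine DFun.ofGraph ((h 0).mul (h 0)) (fun v => ?_) ?_
  · split_ifs
    · exact defD_PN_le _ _
    · exact Nat.zero_le _
  -- the three innermost variables: `y`, `x`, the value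
  have k0 : DFun (11 + 1 + 1 + 1) (fun u => u 0) := DFun.proj 0
  have k1 : DFun (11 + 1 + 1 + 1) (fun u => u (Fin.succ 0)) := DFun.proj _
  have k2 : DFun (11 + 1 + 1 + 1) (fun u => u (Fin.succ (Fin.succ 0))) := DFun.proj _
  have ke (i : Fin 11) : DFun (11 + 1 + 1 + 1) (fun u => u i.succ.succ.succ) := DFun.proj _
  have kc : DFun (11 + 1 + 1 + 1) (fun u => cub (fun i : Fin 10 => u i.succ.succ.succ.succ)
      (u (Fin.succ 0)) (u 0)) := defD_cub (fun i => ke i.succ) k1 k0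
  have ksh (i : Fin 10) : DFun (11 + 1 + 1 + 1) (fun u =>
      sh (fun i : Fin 10 => u i.succ.succ.succ.succ) (u (Fin.succ 0)) (u 0) i) :=
    defD_sh (fun i => ke i.succ) k1 k0 i
  have korig : DFun (11 + 1 + 1 + 1) (fun u =>
      if Good (u (Fin.succ (Fin.succ (Fin.succ 0)))) ∧ u (Fin.succ (Fin.succ (Fin.succ 0))) ∣
        sh (fun i : Fin 10 => u i.succ.succ.succ.succ) (u (Fin.succ 0)) (u 0) 0 then
      PN (u (Fin.succ (Fin.succ (Fin.succ 0))))
        (sh (fun i : Fin 10 => u i.succ.succ.succ.succ) (u (Fin.succ 0)) (u 0)) else 0) := by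
    refine DFun.comp (h := Fin.cons (fun u => u (Fin.succ (Fin.succ (Fin.succ 0))))
      (fun (i : Fin 10) u => sh (fun i : Fin 10 => u i.succ.succ.succ.succ) (u (Fin.succ 0))
        (u 0) i)) orig_def ?_
    intro i
    refine Fin.cases ?_ (fun j => ?_) i
    · exact ke 0
    · exact ksh j
  have hin : Delta0 (11 + 1 + 1 + 1) (fun u => u (Fin.succ 0) < u (Fin.succ (Fin.succ
      (Fin.succ 0))) ∧ u 0 < u (Fin.succ (Fin.succ (Fin.succ 0))) ∧
      u (Fin.succ (Fin.succ (Fin.succ 0))) ∣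
        cub (fun i : Fin 10 => u i.succ.succ.succ.succ) (u (Fin.succ 0)) (u 0)) :=
    (Delta0.ltFun k1 (ke 0)).and ((Delta0.ltFun k0 (ke 0)).and (delta_dvd (ke 0) kc))
  have hex : Delta0 (11 + 1) (fun w => ∃ x, x ≤ w (Fin.succ 0) ∧ ∃ y, y ≤ w (Fin.succ 0) ∧
      ((x < w (Fin.succ 0) ∧ y < w (Fin.succ 0) ∧
        w (Fin.succ 0) ∣ cub (fun i : Fin 10 => w i.succ.succ) x y) ∧
        w 0 = if Good (w (Fin.succ 0)) ∧ w (Fin.succ 0) ∣
          sh (fun i : Fin 10 => w i.succ.succ) x y 0 then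
          PN (w (Fin.succ 0)) (sh (fun i : Fin 10 => w i.succ.succ) x y) else 0)) := by
    refine Delta0.bexFun (h 0).weak (P := fun x w => ∃ y, y ≤ w (Fin.succ 0) ∧
      ((x < w (Fin.succ 0) ∧ y < w (Fin.succ 0) ∧
        w (Fin.succ 0) ∣ cub (fun i : Fin 10 => w i.succ.succ) x y) ∧
        w 0 = if Good (w (Fin.succ 0)) ∧ w (Fin.succ 0) ∣
          sh (fun i : Fin 10 => w i.succ.succ) x y 0 then
          PN (w (Fin.succ 0)) (sh (fun i : Fin 10 => w i.succ.succ) x y) else 0)) ?_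
    refine Delta0.bexFun (h 0).weak.weak (P := fun y u =>
      ((u 0 < u (Fin.succ (Fin.succ 0)) ∧ y < u (Fin.succ (Fin.succ 0)) ∧
        u (Fin.succ (Fin.succ 0)) ∣ cub (fun i : Fin 10 => u i.succ.succ.succ) (u 0) y) ∧
        u (Fin.succ 0) = if Good (u (Fin.succ (Fin.succ 0))) ∧ u (Fin.succ (Fin.succ 0)) ∣
          sh (fun i : Fin 10 => u i.succ.succ.succ) (u 0) y 0 then
          PN (u (Fin.succ (Fin.succ 0)))
            (sh (fun i : Fin 10 => u i.succ.succ.succ) (u 0) y) else 0)) ?_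
    exact hin.and (Delta0.eqFun k2 korig)
  have hno : Delta0 (11 + 1) (fun w => ∃ x, x ≤ w (Fin.succ 0) ∧ ∃ y, y ≤ w (Fin.succ 0) ∧
      (x < w (Fin.succ 0) ∧ y < w (Fin.succ 0) ∧
        w (Fin.succ 0) ∣ cub (fun i : Fin 10 => w i.succ.succ) x y)) := by
    refine Delta0.bexFun (h 0).weak (P := fun x w => ∃ y, y ≤ w (Fin.succ 0) ∧
      (x < w (Fin.succ 0) ∧ y < w (Fin.succ 0) ∧
        w (Fin.succ 0) ∣ cub (fun i : Fin 10 => w i.succ.succ) x y)) ?_
    refine Delta0.bexFun (h 0).weak.weak (P := fun y u =>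
      (u 0 < u (Fin.succ (Fin.succ 0)) ∧ y < u (Fin.succ (Fin.succ 0)) ∧
        u (Fin.succ (Fin.succ 0)) ∣ cub (fun i : Fin 10 => u i.succ.succ.succ) (u 0) y)) ?_
    exact hin
  have w0 : DFun (11 + 1) (fun w => w 0) := DFun.proj 0
  have hz : Delta0 (11 + 1) (fun w => w 0 = 0) := Delta0.eqFun w0 (DFun.const 0)
  have hg : Delta0 (11 + 1) (fun w => Good (w (Fin.succ 0))) := good_def (h 0).weak
  refine ((hg.not.and hz).or (hg.and (hex.or (hno.not.and hz)))).of_iff ?_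
  intro w
  show w 0 = (if Good (w (Fin.succ 0)) then PN (w (Fin.succ 0)) (fun i => w i.succ.succ) else 0) ↔ _
  by_cases hgw : Good (w (Fin.succ 0))
  · rw [if_pos hgw]
    have hval : ∀ x y, w (Fin.succ 0) ∣ cub (fun i : Fin 10 => w i.succ.succ) x y →
        (if Good (w (Fin.succ 0)) ∧ w (Fin.succ 0) ∣
          sh (fun i : Fin 10 => w i.succ.succ) x y 0 then
          PN (w (Fin.succ 0)) (sh (fun i : Fin 10 => w i.succ.succ) x y) else 0) =
        PN (w (Fin.succ 0)) (fun i => w i.succ.succ) := by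
      intro x y hxy
      have h1 : sh (fun i : Fin 10 => w i.succ.succ) x y 0 =
          cub (fun i : Fin 10 => w i.succ.succ) x y := rfl
      rw [if_pos ⟨hgw, by rw [h1]; exact hxy⟩]
      exact defD_shift hgw.1 _ x y
    constructor
    · intro hw
      refine Or.inr ⟨hgw, ?_⟩
      by_cases hs : ∃ x, x ≤ w (Fin.succ 0) ∧ ∃ y, y ≤ w (Fin.succ 0) ∧
          (x < w (Fin.succ 0) ∧ y < w (Fin.succ 0) ∧
            w (Fin.succ 0) ∣ cub (fun i : Fin 10 => w i.succ.succ) x y)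
      · obtain ⟨x, hx, y, hy, hxy⟩ := hs
        refine Or.inl ⟨x, hx, y, hy, hxy, ?_⟩
        rw [hval x y hxy.2.2]
        exact hw
      · refine Or.inr ⟨hs, ?_⟩
        rw [hw]
        exact defD_none _ hs
    · rintro (⟨h1, -⟩ | ⟨-, ⟨x, -, y, -, hxy, h2⟩ | ⟨h1, h2⟩⟩)
      · exact absurd hgw h1
      · rw [h2]
        exact hval x y hxy.2.2
      · rw [h2]
        exact (defD_none _ h1).symm
  · rw [if_neg hgw]
    constructor
    · intro hw
      exact Or.inl ⟨hgw, hw⟩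
    · rintro (⟨-, h2⟩ | ⟨h1, -⟩)
      · exact h2
      · exact absurd h1 hgw

end Pool.Agent.PtC
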