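import Pool.Agent.ECD.EcCount

/-!
# Counting solutions of cubic equations modulo `m`: definitions
-/

set_option autoImplicit false

namespace Pool.Agent.PtC

open Finset

/-- the value of a polynomial of degree at most four -/
def q4 {F : Type*} [CommSemiring F] (a b c d e x : F) : F :=
  a + b * x + c * x ^ 2 + d * x ^ 3 + e * x ^ 4

/-- the character sum of a polynomial of degree at most four -/
noncomputable def S4 {F : Type*} [Field F] [Fintype F] [DecidableEq F] (a b c d e : F) : ℤ :=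
  ∑ x : F, quadraticChar F (q4 a b c d e x)

/-- the number of the solutions of `y ^ 2 = a + b x + c x ^ 2 + d x ^ 3 + e x ^ 4` modulo `m` -/
def QN (m a b c d e : ℕ) : ℕ := #{z ∈ range m ×ˢ range m | z.2 ^ 2 ≡ q4 a b c d e z.1 [MOD m]}

/-- the number of the square roots of `a` modulo `m` -/
def SN (m a : ℕ) : ℕ := #{y ∈ range m | y ^ 2 ≡ a [MOD m]}

/-- the number of the roots of `a + b t + c t ^ 2 + d t ^ 3` modulo `m` -/
def RN (m a b c d : ℕ) : ℕ := #{t ∈ range m | m ∣ q4 a b c d 0 t}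

/-- a polynomial of degree at most three in two variables -/
def cub {F : Type*} [CommSemiring F] (e : Fin 10 → F) (x y : F) : F :=
  e 0 + e 1 * x + e 2 * y + e 3 * x ^ 2 + e 4 * x * y + e 5 * y ^ 2 +
    e 6 * x ^ 3 + e 7 * x ^ 2 * y + e 8 * x * y ^ 2 + e 9 * y ^ 3

/-- the coefficients of `cub e (x + s) (y + t)` -/
def sh {F : Type*} [CommSemiring F] (e : Fin 10 → F) (s t : F) : Fin 10 → F :=
  ![cub e s t,
    e 1 + 2 * e 3 * s + e 4 * t + 3 * e 6 * s ^ 2 + 2 * e 7 * s * t + e 8 * t ^ 2,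
    e 2 + e 4 * s + 2 * e 5 * t + e 7 * s ^ 2 + 2 * e 8 * s * t + 3 * e 9 * t ^ 2,
    e 3 + 3 * e 6 * s + e 7 * t, e 4 + 2 * e 7 * s + 2 * e 8 * t, e 5 + e 8 * s + 3 * e 9 * t,
    e 6, e 7, e 8, e 9]

/-- the number of the solutions of `cub e x y = 0` modulo `m` -/
def PN (m : ℕ) (e : Fin 10 → ℕ) : ℕ := #{z ∈ range m ×ˢ range m | m ∣ cub e z.1 z.2}

/-- the primes from `5` on -/
def Good (p : ℕ) : Prop := p.Prime ∧ 5 ≤ p

end Pool.Agent.PtC
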