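import Pool.Agent.PtC.Defs

/-!
# Package PtC-Small: small numbers of elements of definable sets

*`cnt_small`*: let `G k v b` be `k ≤ #{x < b | A x v}`; it is `Delta0` (`n + 1`, first variable `b`)
for each fixed `k`, by induction: `G 0` is true, and `G (k + 1) v b` iff there is an `x < b` with
`A x v` and `G k v x` (the largest element). Then `min k #{…}` is a finite sum of indicators, or
`DFun.ofGraph` with a finite disjunction, or by induction on `k`:
`min (k + 1) N = min k N + (if k + 1 ≤ N then 1 else 0)` (`DFun.ite`). ∎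

*`sn_def`*, *`rn_def`*: for a prime `p` the number of square roots is at most `2`, and the number of
roots of a cubic polynomial that does not vanish modulo `p` identically (some coefficient is not
`0` modulo `p`) is at most `3` (`Polynomial.card_roots'` over `ZMod p`), so `cnt_small` applies with
`k = 2`, `k = 3`; if all coefficients are `0` modulo `p` the number of roots is `p` (`DFun.ite`). ∎

*`small_def`*: a finite sum of indicators (`k` is fixed): induction on `k`, or `cnt_small` with
`k * k` and pairs. ∎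

Difficulty: 1.2 h.
-/

set_option autoImplicit false

namespace Pool.Agent.PtC

open Finset Pool.Agent.Grz Pool.Agent.GAvg Pool.Agent.PTr Pool.Agent.MTr Pool.Agent.LPC
  Pool.Agent.ECD

open scoped Classical in
private theorem count_Small (P : ℕ → Prop) (k b : ℕ) :
    k + 1 ≤ #{x ∈ range b | P x} ↔ ∃ x, x ≤ b ∧ (x < b ∧ P x ∧ k ≤ #{y ∈ range x | P y}) := by
  simp only [← Nat.count_eq_card_filter_range]
  induction b with
  | zero => simp
  | succ b ih =>
    rw [Nat.count_succ]
    by_cases hb : P b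
    · rw [if_pos hb]
      constructor
      · intro h
        exact ⟨b, by omega, by omega, hb, by omega⟩
      · rintro ⟨x, _, hx, _, h⟩
        have h2 := Nat.count_monotone P (show x ≤ b by omega)
        omega
    · rw [if_neg hb, add_zero, ih]
      constructor
      · rintro ⟨x, h1, h2, h3, h4⟩
        exact ⟨x, by omega, by omega, h3, h4⟩
      · rintro ⟨x, h1, h2, h3, h4⟩
        have hne : x ≠ b := by
          rintro rfl
          exact hb h3
        exact ⟨x, by omega, by omega, h3, h4⟩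

open scoped Classical in
private theorem cntG_Small {n : ℕ} (k : ℕ) {A : ℕ → (Fin n → ℕ) → Prop}
    (hA : Delta0 (n + 1) (fun w => A (w 0) (fun i => w i.succ))) :
    Delta0 (n + 1) (fun w => k ≤ #{x ∈ range (w 0) | A x (fun i => w i.succ)}) := by
  induction k with
  | zero =>
    refine (Delta0.leFun (DFun.const (n := n + 1) 0) (DFun.const (n := n + 1) 0)).of_iff ?_
    intro v
    simp
  | succ k ih =>
    have h0 : DFun (n + 1) (fun w => w 0) := DFun.proj 0
    have e1 : Delta0 (n + 1 + 1) (fun u => A (u 0) (fun i => u i.succ.succ)) := by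
      have := hA.rename (n := n + 1 + 1) (Fin.cons 0 (fun i => i.succ.succ))
      refine this.of_iff ?_
      intro u
      simp [Fin.cons_succ]
    have e2 : Delta0 (n + 1 + 1)
        (fun u => k ≤ #{x ∈ range (u 0) | A x (fun i => u i.succ.succ)}) := by
      have := ih.rename (n := n + 1 + 1) (Fin.cons 0 (fun i => i.succ.succ))
      refine this.of_iff ?_
      intro u
      simp [Fin.cons_succ]
    have e3 : Delta0 (n + 1 + 1) (fun u => u 0 < u 1) :=
      Delta0.ltFun (DFun.proj 0) (DFun.proj 1)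
    have h := Delta0.bexFun (n := n + 1) (b := fun w => w 0)
      (P := fun x w => x < w 0 ∧ A x (fun i => w i.succ) ∧
        k ≤ #{y ∈ range x | A y (fun i => w i.succ)}) h0 (e3.and (e1.and e2))
    refine h.of_iff ?_
    intro w
    exact count_Small _ _ _

open scoped Classical in
theorem cnt_small {n : ℕ} (k : ℕ) {B : (Fin n → ℕ) → ℕ} {A : ℕ → (Fin n → ℕ) → Prop}
    (hB : DFun n B) (hA : Delta0 (n + 1) (fun w => A (w 0) (fun i => w i.succ))) :
    DFun n (fun v => min k #{x ∈ range (B v) | A x v}) := by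
  induction k with
  | zero => exact dfun_congr (DFun.const 0) (fun v => Nat.zero_min _)
  | succ k ih =>
    have h1 : Delta0 n (fun v => k + 1 ≤ #{x ∈ range (B v) | A x v}) := by
      have := Delta0.useFun hB (cntG_Small (k + 1) hA)
      refine this.of_iff ?_
      intro v
      simp only [Matrix.cons_val_zero, Matrix.cons_val_succ]
    have h2 := ih.add (DFun.ite h1 (DFun.const 1) (DFun.const 0))
    refine dfun_congr h2 ?_
    intro v
    split_ifs with h <;> omega

private theorem roots_Small {p : ℕ} (hp : p.Prime) (f : Polynomial (ZMod p)) (hf : f ≠ 0)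
    (P : ℕ → Prop) [DecidablePred P] (hP : ∀ t, P t → f.eval (t : ZMod p) = 0) :
    #{t ∈ range p | P t} ≤ f.natDegree := by
  classical
  have : Fact p.Prime := ⟨hp⟩
  have h1 : #{t ∈ range p | P t} ≤ #f.roots.toFinset := by
    apply Finset.card_le_card_of_injOn (fun t : ℕ => (t : ZMod p))
    · intro t ht
      have ht' := (Finset.mem_filter.1 (Finset.mem_coe.1 ht)).2
      rw [Finset.mem_coe, Multiset.mem_toFinset, Polynomial.mem_roots hf]
      exact hP t ht'
    · intro a ha b hb hab
      have ha' := Finset.mem_range.1 (Finset.mem_filter.1 (Finset.mem_coe.1 ha)).1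
      have hb' := Finset.mem_range.1 (Finset.mem_filter.1 (Finset.mem_coe.1 hb)).1
      have h := (ZMod.natCast_eq_natCast_iff' a b p).1 hab
      rwa [Nat.mod_eq_of_lt ha', Nat.mod_eq_of_lt hb'] at h
  exact h1.trans ((Multiset.toFinset_card_le _).trans (Polynomial.card_roots' f))

private theorem sn_le_Small {p : ℕ} (hp : p.Prime) (a : ℕ) : SN p a ≤ 2 := by
  have : Fact p.Prime := ⟨hp⟩
  have h := roots_Small hp (Polynomial.X ^ 2 - Polynomial.C (a : ZMod p))
    (Polynomial.X_pow_sub_C_ne_zero (by norm_num) _) (fun y => y ^ 2 ≡ a [MOD p]) (by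
      intro t ht
      have h2 := (ZMod.natCast_eq_natCast_iff _ _ _).2 ht
      push_cast at h2
      simp [h2])
  rwa [Polynomial.natDegree_X_pow_sub_C] at h

private theorem rn_le_Small {p : ℕ} (hp : p.Prime) (a b c d : ℕ)
    (h0 : ¬ (p ∣ a ∧ p ∣ b ∧ p ∣ c ∧ p ∣ d)) : RN p a b c d ≤ 3 := by
  have : Fact p.Prime := ⟨hp⟩
  obtain ⟨f, hf⟩ : ∃ f : Polynomial (ZMod p), f = Polynomial.C (a : ZMod p) +
    Polynomial.C (b : ZMod p) * Polynomial.X + Polynomial.C (c : ZMod p) * Polynomial.X ^ 2 +
    Polynomial.C (d : ZMod p) * Polynomial.X ^ 3 := ⟨_, rfl⟩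
  have hne : f ≠ 0 := by
    intro h
    apply h0
    have h1 : ∀ i, f.coeff i = 0 := by
      intro i
      rw [h, Polynomial.coeff_zero]
    have c0 := h1 0
    have c1 := h1 1
    have c2 := h1 2
    have c3 := h1 3
    rw [hf] at c0 c1 c2 c3
    simp [Polynomial.coeff_X, Polynomial.coeff_X_pow] at c0 c1 c2 c3
    exact ⟨(ZMod.natCast_eq_zero_iff _ _).1 c0, (ZMod.natCast_eq_zero_iff _ _).1 c1,
      (ZMod.natCast_eq_zero_iff _ _).1 c2, (ZMod.natCast_eq_zero_iff _ _).1 c3⟩
  have hdeg : f.natDegree ≤ 3 := by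
    rw [hf]
    compute_degree
  have h := roots_Small hp f hne (fun t => p ∣ q4 a b c d 0 t) (by
      intro t ht
      have h2 := (ZMod.natCast_eq_zero_iff _ _).2 ht
      simp only [q4] at h2
      push_cast at h2
      rw [hf]
      simp only [Polynomial.eval_add, Polynomial.eval_mul, Polynomial.eval_C,
        Polynomial.eval_pow, Polynomial.eval_X]
      linear_combination h2)
  exact h.trans hdeg

private theorem rn_all_Small {p : ℕ} (a b c d : ℕ)
    (h0 : p ∣ a ∧ p ∣ b ∧ p ∣ c ∧ p ∣ d) : RN p a b c d = p := by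
  unfold RN
  rw [Finset.filter_true_of_mem, Finset.card_range]
  intro t _
  unfold q4
  obtain ⟨h1, h2, h3, h4⟩ := h0
  simp only [zero_mul, add_zero]
  exact dvd_add (dvd_add (dvd_add h1 (Dvd.dvd.mul_right h2 _)) (Dvd.dvd.mul_right h3 _))
    (Dvd.dvd.mul_right h4 _)

open scoped Classical in
theorem sn_def : DFun 2 (fun v => if (v 0).Prime then SN (v 0) (v 1) else 0) := by
  have hA : Delta0 (2 + 1) (fun w => (w 0) ^ 2 ≡ w 2 [MOD w 1]) := by
    have h := Delta0.eqFun (DFun.modAny ((DFun.proj (n := 3) 0).mul (DFun.proj 0))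
      (DFun.proj 1)) (DFun.modAny (DFun.proj (n := 3) 2) (DFun.proj 1))
    refine h.of_iff ?_
    intro w
    rw [_root_.sq]
    exact Iff.rfl
  have h1 := cnt_small (n := 2) 2 (B := fun v => v 0)
    (A := fun y v => y ^ 2 ≡ v 1 [MOD v 0]) (DFun.proj 0) hA
  have h2 := DFun.ite (delta_prime (DFun.proj (n := 2) 0)) h1 (DFun.const 0)
  refine dfun_congr h2 ?_
  intro v
  by_cases hp : (v 0).Prime
  · rw [if_pos hp, if_pos hp]
    refine (min_eq_right (sn_le_Small hp (v 1))).symm.trans ?_
    unfold SN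
    congr!
  · rw [if_neg hp, if_neg hp]

open scoped Classical in
theorem rn_def :
    DFun 5 (fun v => if (v 0).Prime then RN (v 0) (v 1) (v 2) (v 3) (v 4) else 0) := by
  have hA : Delta0 (5 + 1) (fun w => w 1 ∣ q4 (w 2) (w 3) (w 4) (w 5) 0 (w 0)) := by
    have p0 : DFun 6 (fun w => w 0) := DFun.proj 0
    have h := delta_dvd (DFun.proj (n := 6) 1)
      ((((DFun.proj (n := 6) 2).add ((DFun.proj 3).mul p0)).add
        ((DFun.proj 4).mul (p0.mul p0))).add ((DFun.proj 5).mul ((p0.mul p0).mul p0)))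
    refine h.of_iff ?_
    intro w
    have e : q4 (w 2) (w 3) (w 4) (w 5) 0 (w 0) = w 2 + w 3 * w 0 + w 4 * (w 0 * w 0) +
        w 5 * (w 0 * w 0 * w 0) := by
      unfold q4
      ring
    rw [e]
  have h1 := cnt_small (n := 5) 3 (B := fun v => v 0)
    (A := fun t v => v 0 ∣ q4 (v 1) (v 2) (v 3) (v 4) 0 t) (DFun.proj 0) hA
  have hD : Delta0 5 (fun v => v 0 ∣ v 1 ∧ v 0 ∣ v 2 ∧ v 0 ∣ v 3 ∧ v 0 ∣ v 4) :=
    (delta_dvd (DFun.proj 0) (DFun.proj 1)).and ((delta_dvd (DFun.proj 0) (DFun.proj 2)).and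
      ((delta_dvd (DFun.proj 0) (DFun.proj 3)).and (delta_dvd (DFun.proj 0) (DFun.proj 4))))
  have h2 := DFun.ite (delta_prime (DFun.proj (n := 5) 0)) (DFun.ite hD (DFun.proj 0) h1)
    (DFun.const 0)
  refine dfun_congr h2 ?_
  intro v
  by_cases hp : (v 0).Prime
  · rw [if_pos hp, if_pos hp]
    by_cases h0 : v 0 ∣ v 1 ∧ v 0 ∣ v 2 ∧ v 0 ∣ v 3 ∧ v 0 ∣ v 4
    · rw [if_pos h0]
      exact rn_all_Small _ _ _ _ h0
    · rw [if_neg h0]
      refine (min_eq_right (rn_le_Small hp (v 1) (v 2) (v 3) (v 4) h0)).symm.trans ?_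
      unfold RN
      congr!
  · rw [if_neg hp, if_neg hp]

private theorem sum_Small {n : ℕ} {ι : Type*} (S : Finset ι) (f : ι → (Fin n → ℕ) → ℕ)
    (hf : ∀ i, DFun n (f i)) : DFun n (fun v => ∑ i ∈ S, f i v) := by
  classical
  induction S using Finset.induction_on with
  | empty => exact dfun_congr (DFun.const 0) (fun v => Finset.sum_empty)
  | insert i S hi ih => exact dfun_congr ((hf i).add ih) (fun v => Finset.sum_insert hi)

open scoped Classical in
theorem small_def {n : ℕ} (k : ℕ) {R : ℕ → ℕ → (Fin n → ℕ) → Prop}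
    (hR : ∀ x y, Delta0 n (R x y)) :
    DFun n (fun v => #{z ∈ range k ×ˢ range k | R z.1 z.2 v}) := by
  have h := sum_Small (range k ×ˢ range k) (fun z v => if R z.1 z.2 v then 1 else 0)
    (fun z => DFun.ite (hR z.1 z.2) (DFun.const 1) (DFun.const 0))
  refine dfun_congr h ?_
  intro v
  rw [Finset.card_filter]

end Pool.Agent.PtC
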