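import Pool.Agent.PtC.Defs

/-!
# Package PtC-SumA: character sums of polynomials of degree at most two

`χ = quadraticChar F`, `q = |F|`.

*`s_const`*: definition. *`s_lin`*: `x ↦ a + b x` is a bijection (`b ≠ 0`) and `∑ χ = 0`
(`quadraticChar_sum_zero`; `ringChar F ≠ 2` from `2 ≠ 0`).

*`s_quad`*: `4 c (a + b x + c x ^ 2) = (2 c x + b) ^ 2 - D`, `D = b ^ 2 - 4 a c`, and
`χ(4 c) = χ(c)`, `χ(c) ^ 2 = 1`; `x ↦ 2 c x + b` is a bijection; so the sum is
`χ(c) ∑_u χ(u ^ 2 - D)`. If `D = 0` the inner sum is `q - 1`. If `D ≠ 0` it is `-1`: the number of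
the pairs `(u, w)` with `w ^ 2 = u ^ 2 - D` is `∑_u (1 + χ(u ^ 2 - D))` (`quadraticChar_card_sqrts`) and
it is `q - 1`: `(u, w) ↦ u - w` is a bijection to the nonzero elements, with the inverse
`s ↦ ((s + D / s) / 2, (D / s - s) / 2)`. ∎

Difficulty: 1.0 h.
-/

set_option autoImplicit false

namespace Pool.Agent.PtC

open Finset

variable {F : Type*} [Field F] [Fintype F] [DecidableEq F]

omit [DecidableEq F] [Fintype F] in
private theorem SumA_char (h2 : (2 : F) ≠ 0) : ringChar F ≠ 2 := by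
  intro h
  apply h2
  have h3 := ringChar.Nat.cast_ringChar (R := F)
  rw [h] at h3
  exact_mod_cast h3

private theorem SumA_ite : ∑ s : F, (if s = 0 then (0 : ℤ) else 1) = Fintype.card F - 1 := by
  have h1 : ∀ s : F, (if s = 0 then (0 : ℤ) else 1) = 1 - (if s = 0 then 1 else 0) := by
    intro s
    split_ifs <;> simp
  simp only [h1, Finset.sum_sub_distrib, Finset.sum_ite_eq', Finset.mem_univ, if_true,
    Finset.sum_const, Finset.card_univ, nsmul_eq_mul, mul_one]

omit [DecidableEq F] in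
private theorem SumA_aff {b : F} (hb : b ≠ 0) (a : F) (f : F → ℤ) :
    ∑ x : F, f (a + b * x) = ∑ y : F, f y :=
  Equiv.sum_comp ((Equiv.mulLeft₀ b hb).trans (Equiv.addLeft a)) f

private theorem SumA_zero : ∑ u : F, quadraticChar F (u ^ 2 - 0) = Fintype.card F - 1 := by
  rw [← SumA_ite]
  refine Finset.sum_congr rfl fun u _ => ?_
  rw [sub_zero]
  split_ifs with h
  · rw [h]
    simp
  · exact quadraticChar_sq_one' h

private theorem SumA_ne (h2 : (2 : F) ≠ 0) {D : F} (hD : D ≠ 0) :
    ∑ u : F, quadraticChar F (u ^ 2 - D) = -1 := by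
  have h3 : ∑ u : F, (quadraticChar F (u ^ 2 - D) + 1) = Fintype.card F - 1 := by
    have h4 : ∀ u : F, quadraticChar F (u ^ 2 - D) + 1 =
        ∑ w : F, if w ^ 2 = u ^ 2 - D then (1 : ℤ) else 0 := by
      intro u
      rw [← quadraticChar_card_sqrts (SumA_char h2), Set.toFinset_ofPred, Finset.card_filter]
      push_cast
      rfl
    simp only [h4]
    rw [Finset.sum_comm]
    have h5 : ∀ w : F, ∑ u : F, (if w ^ 2 = u ^ 2 - D then (1 : ℤ) else 0) =
        ∑ s : F, (if w ^ 2 = (w + s) ^ 2 - D then (1 : ℤ) else 0) := fun w =>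
      (Equiv.sum_comp (Equiv.addLeft w) fun u => if w ^ 2 = u ^ 2 - D then (1 : ℤ) else 0).symm
    simp only [h5]
    rw [Finset.sum_comm, ← SumA_ite]
    refine Finset.sum_congr rfl fun s _ => ?_
    by_cases hs : s = 0
    · rw [if_pos hs]
      refine Finset.sum_eq_zero fun w _ => if_neg ?_
      rw [hs]
      intro h6
      apply hD
      linear_combination h6
    · rw [if_neg hs]
      have h7 : ∀ w : F, w ^ 2 = (w + s) ^ 2 - D ↔ w = (D - s ^ 2) / (2 * s) := by
        intro w
        rw [eq_div_iff (mul_ne_zero h2 hs)]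
        constructor
        · intro h8
          linear_combination -h8
        · intro h8
          linear_combination -h8
      simp only [h7, Finset.sum_ite_eq', Finset.mem_univ, if_true]
  rw [Finset.sum_add_distrib] at h3
  simp only [Finset.sum_const, Finset.card_univ, nsmul_eq_mul, mul_one] at h3
  linarith

theorem s_const (a : F) : S4 a 0 0 0 0 = Fintype.card F * quadraticChar F a := by
  unfold S4 q4
  simp only [zero_mul, add_zero, Finset.sum_const, Finset.card_univ, nsmul_eq_mul]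

theorem s_lin (h2 : (2 : F) ≠ 0) {a b : F} (hb : b ≠ 0) : S4 a b 0 0 0 = 0 := by
  unfold S4 q4
  simp only [zero_mul, add_zero]
  rw [SumA_aff hb a (fun y => quadraticChar F y)]
  exact quadraticChar_sum_zero (SumA_char h2)

theorem s_quad (h2 : (2 : F) ≠ 0) {a b c : F} (hc : c ≠ 0) : S4 a b c 0 0 =
    if b ^ 2 = 4 * a * c then (Fintype.card F - 1) * quadraticChar F c
    else - quadraticChar F c := by
  have h3 : S4 a b c 0 0 =
      quadraticChar F c * ∑ u : F, quadraticChar F (u ^ 2 - (b ^ 2 - 4 * a * c)) := by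
    unfold S4 q4
    rw [← SumA_aff (b := 2 * c) (mul_ne_zero h2 hc) b
      (fun u => quadraticChar F (u ^ 2 - (b ^ 2 - 4 * a * c))), Finset.mul_sum]
    refine Finset.sum_congr rfl fun x _ => ?_
    have h4 : (b + 2 * c * x) ^ 2 - (b ^ 2 - 4 * a * c) =
        2 ^ 2 * (c * (a + b * x + c * x ^ 2 + 0 * x ^ 3 + 0 * x ^ 4)) := by ring
    rw [h4, map_mul, map_mul, quadraticChar_sq_one' h2, one_mul, ← mul_assoc, ← pow_two,
      quadraticChar_sq_one hc, one_mul]
  rw [h3]
  split_ifs with h
  · rw [show b ^ 2 - 4 * a * c = 0 by rw [h, sub_self], SumA_zero]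
    ring
  · rw [SumA_ne h2 (sub_ne_zero.2 h)]
    ring

end Pool.Agent.PtC
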